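import Pool.Agent.MP_96eeb0_lc.H32.Defs

/-! Strongly NIP (strongly dependent) fields in the language of rings. -/

namespace Pool.Agent.MP_96eeb0_lc.H87

open Pool.Agent.MP_96eeb0_lc.H32

/-- The formulas `φ 0, φ 1, ...` form an ICT pattern of infinite depth in the variables `x` marked
by `X`: for every `N` there are parameters `a n j` (`n, j < N`) such that for each `η : N → N` some
`x` satisfies `φ n (x; a n j)` exactly when `j = η n`. -/
def ICT (F : Type) [Field F] (φ : ℕ → Fm) (X : ℕ → Bool) : Prop :=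
  ∀ N : ℕ, ∃ a : Fin N → Fin N → ℕ → F, ∀ η : Fin N → Fin N, ∃ x : ℕ → F,
    ∀ n j : Fin N, Sat (φ n) (fun k => bif X k then x k else a n j k) ↔ j = η n

/-- No ICT pattern of infinite depth in finitely many variables. -/
def SNIP (F : Type) [Field F] : Prop :=
  ∀ (φ : ℕ → Fm) (X : ℕ → Bool), {k | X k = true}.Finite → ¬ ICT F φ X

end Pool.Agent.MP_96eeb0_lc.H87
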