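import Pool.Agent.MP_96eeb0_lc.H32.Defs

/-! Large (ample) fields. -/

namespace Pool.Agent.MP_96eeb0_lc.H87

/-- `F` is large: it is existentially closed in the field `F((t))` of Laurent series, that is, a
finite system of polynomial equations over `F` with a solution in `F((t))` has one in `F`. -/
def Large (F : Type) [Field F] : Prop :=
  ∀ s : Finset (MvPolynomial ℕ F),
    (∃ x : ℕ → LaurentSeries F, ∀ p ∈ s, MvPolynomial.aeval x p = 0) →
      ∃ x : ℕ → F, ∀ p ∈ s, MvPolynomial.aeval x p = 0

end Pool.Agent.MP_96eeb0_lc.H87
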