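import Pool.Agent.MP_96eeb0_lc.H87.Spec

/-! The ring lemma. -/

namespace Pool.Agent.MP_96eeb0_lc.H87

namespace SBx

/-- membership in an ideal is a local property -/
theorem loc {R : Type} [CommRing R] (J : Ideal R) (z : R)
    (h : ∀ m : Ideal R, m.IsMaximal → ∃ s, s ∉ m ∧ s * z ∈ J) : z ∈ J := by
  by_contra hz
  obtain ⟨m, hm, hle⟩ := Ideal.exists_le_maximal
    (Submodule.comap (LinearMap.toSpanSingleton R R z) J) fun e => hz (by simpa using (Ideal.eq_top_iff_one _).1 e)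
  obtain ⟨s, hs, h'⟩ := h m hm
  exact hs (hle (by simpa using h'))

/-- approximation at finitely many maximal ideals -/
theorem crt {R : Type} [CommRing R] [Finite (MaximalSpectrum R)] (m : Ideal R) (hm : m.IsMaximal)
    (z : R) : ∃ y, y - z ∈ m ∧ ∀ m' : Ideal R, m'.IsMaximal → m' ≠ m → y - 1 ∈ m' := by
  classical
  obtain ⟨y, hy⟩ := Ideal.exists_forall_sub_mem_ideal (I := fun i : MaximalSpectrum R => i.1)
    (fun _ _ h => MaximalSpectrum.isCoprime_of_ne h) fun i => if i.1 = m then z else 1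
  exact ⟨y, by simpa using hy ⟨m, hm⟩, fun m' h e => by simpa [e] using hy ⟨m', h⟩⟩

variable {F : Type} [Field F] {R : Subring F} {B₀ : Finset R}

theorem not_mem {m : Ideal R} (hm : m.IsMaximal) {y : R} (h0 : (y : F) ≠ 0) (h : (y : F)⁻¹ ∈ R) :
    y ∉ m := fun hy => hm.ne_top <| (Ideal.eq_top_iff_one _).2 <| by
  have := m.mul_mem_left ⟨_, h⟩ hy
  rwa [show (⟨_, h⟩ : R) * y = 1 from Subtype.ext (inv_mul_cancel₀ h0)] at this

theorem val (h1 : ∀ x : F, ∃ b ∈ B₀, x ≠ b ∧ (x - b)⁻¹ ∈ R) (a b : R) (hb : b ≠ 0) {m : Ideal R}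
    (hm : m.IsMaximal) : ∃ s, s ∉ m ∧ (b ∣ s * a ∨ a ∣ s * b) := by
  obtain ⟨c, -, h, hr⟩ := h1 (a / b)
  have b0 : (b : F) ≠ 0 := fun e => hb (Subtype.ext e)
  have e : (⟨_, hr⟩ : R) * a = (c * ⟨_, hr⟩ + 1) * b := Subtype.ext <| by
    have := inv_mul_cancel₀ (sub_ne_zero.2 h)
    have e := div_mul_cancel₀ (a : F) b0
    push_cast
    linear_combination (b : F) * this - ((a : F) / b - c)⁻¹ * e
  by_cases hs : (⟨_, hr⟩ : R) ∈ m
  · refine ⟨_, fun h' => hm.ne_top ((Ideal.eq_top_iff_one _).2 ?_),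
      Or.inr ⟨_, e.symm.trans (mul_comm _ _)⟩⟩
    simpa using m.sub_mem h' (m.mul_mem_left c hs)
  · exact ⟨_, hs, Or.inl ⟨_, e.trans (mul_comm _ _)⟩⟩

theorem fin (h1 : ∀ x : F, ∃ b ∈ B₀, x ≠ b ∧ (x - b)⁻¹ ∈ R) : Finite (MaximalSpectrum R) := by
  by_contra h
  rw [not_finite_iff_infinite] at h
  obtain ⟨f, hf⟩ := Countable.exists_injective_nat B₀
  obtain ⟨x, hx⟩ := Ideal.exists_forall_sub_mem_ideal
    (I := fun i : B₀ => (Infinite.natEmbedding (MaximalSpectrum R) (f i)).1)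
    (fun _ _ h => MaximalSpectrum.isCoprime_of_ne fun e => h (hf ((Infinite.natEmbedding _).2 e)))
    fun i => i.1
  obtain ⟨b, hb, h0, h⟩ := h1 x
  exact not_mem (MaximalSpectrum.isMaximal _) (y := x - b) (sub_ne_zero.2 h0) h (hx ⟨b, hb⟩)

theorem jac (h1 : ∀ x : F, ∃ b ∈ B₀, x ≠ b ∧ (x - b)⁻¹ ∈ R) {I : Ideal R}
    (h2 : ∀ x : F, (∀ ε ∈ I, ∃ ε' ∈ I, x * (ε : F) = (ε' : F)) → x ∈ R)
    (h3 : ∀ ε ∈ I, ∃ ε₁ ∈ I, ∃ ε₂ ∈ I, ε = ε₁ * ε₂) (y : R)
    (hy : ∀ m : Ideal R, m.IsMaximal → y ∈ m) : y ∈ I := by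
  have := fin h1
  refine loc I y fun m hm => ?_
  have key : ∀ w ∈ m, (∀ m' : Ideal R, m'.IsMaximal → m' ≠ m → w - 1 ∈ m') →
      ∃ s, s ∉ m ∧ s * w ∈ I := fun w hw hw' => by
    by_contra hn
    have w0 : w ≠ 0 := fun e => hn ⟨1, (Ideal.ne_top_iff_one _).1 hm.ne_top, by simp [e]⟩
    have w1 : (w : F) ≠ 0 := fun e => w0 (Subtype.ext e)
    refine not_mem hm w1 (h2 _ fun ε hε => ?_) hw
    obtain ⟨e', he', e⟩ : ε ∈ Submodule.map (LinearMap.toSpanSingleton R R w) I := by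
      refine loc _ ε fun m' hm' => ?_
      by_cases e : m' = m
      · obtain ⟨e1, h1', e2, h2', rfl⟩ := h3 ε hε
        obtain ⟨s, hs, ⟨t, ht⟩ | ⟨t, ht⟩⟩ := val h1 e1 w w0 hm
        · refine ⟨s, e ▸ hs, t * e2, I.mul_mem_left t h2', ?_⟩
          rw [LinearMap.toSpanSingleton_apply, smul_eq_mul]
          linear_combination (-e2) * ht
        · exact absurd ⟨s, hs, ht ▸ I.mul_mem_right t h1'⟩ hn
      · refine ⟨w, fun h => hm'.ne_top ((Ideal.eq_top_iff_one _).2 ?_), ε, hε, mul_comm _ _⟩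
        simpa using m'.sub_mem h (hw' m' hm' e)
    refine ⟨e', he', ?_⟩
    rw [← e, LinearMap.toSpanSingleton_apply, smul_eq_mul, Subring.coe_mul, mul_comm,
      mul_inv_cancel_right₀ w1]
  obtain ⟨x, hx, hx'⟩ := crt m hm 0
  rw [sub_zero] at hx
  obtain ⟨s, hs, h⟩ := key x hx hx'
  obtain ⟨t, ht, h'⟩ := key (x + y) (m.add_mem hx (hy m hm)) fun m' a b => by
    rw [add_sub_right_comm]
    exact m'.add_mem (hx' m' a b) (hy m' a)
  refine ⟨s * t, fun e => (hm.isPrime.mem_or_mem e).elim hs ht, ?_⟩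
  rw [show s * t * y = s * (t * (x + y)) - t * (s * x) by ring]
  exact I.sub_mem (I.mul_mem_left _ h') (I.mul_mem_left _ h)

end SBx

open SBx in
theorem sb : SB := by
  intro F _ R I B₀ h1 h2 h3 p₁ p₂ hp₁ hp₂ l1 l2 hne a c n hc ha
  have := fin h1
  have := Fintype.ofFinite (MaximalSpectrum R)
  have mx : ∀ p : Ideal R, p.IsPrime → I ≤ p → p.IsMaximal := fun p hp l => by
    obtain ⟨i, -, hi⟩ := (hp.inf_le' (s := Finset.univ) (f := fun i : MaximalSpectrum R => i.1)).1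
      fun y hy => l (jac h1 h2 h3 y fun m hm =>
        Finset.inf_le (f := fun i : MaximalSpectrum R => i.1) (Finset.mem_univ ⟨m, hm⟩) hy)
    exact i.2.eq_of_le hp.ne_top hi ▸ i.2
  obtain ⟨z, d, hd, e⟩ := (mx p₂ hp₂ l2).exists_inv hc
  obtain ⟨y, hy, hy'⟩ := crt p₂ (mx p₂ hp₂ l2) (a * z)
  have h : y * c - a ∈ p₂ := by
    rw [show y * c - a = (y - a * z) * c - a * d by linear_combination a * e]
    exact p₂.sub_mem (p₂.mul_mem_right _ hy) (p₂.mul_mem_left _ hd)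
  refine ⟨y, hy' p₁ (mx p₁ hp₁ l1) hne, h, jac h1 h2 h3 _ fun m hm => ?_⟩
  by_cases em : m = p₂
  · subst em
    have := m.add_mem (m.mem_of_dvd (sub_dvd_pow_sub_pow (y * c) a n) h) ha
    rw [show (y * c) ^ n - a ^ n + (a ^ n - c ^ n) = c ^ n * (y ^ n - 1) by ring] at this
    exact (hp₂.mem_or_mem this).resolve_left fun h => hc (hp₂.mem_of_pow_mem n h)
  · exact m.mem_of_dvd (sub_one_dvd_pow_sub_one y n) (hy' m hm em)

end Pool.Agent.MP_96eeb0_lc.H87
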