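import Pool.Agent.MP_96eeb0_lc.H87.Spec

/-! Approximation at two complex places below a good filter, through an ultrapower. -/

namespace Pool.Agent.MP_96eeb0_lc.H87

open Filter Topology

namespace SCx

/-- the ultrafilter -/
noncomputable abbrev UU : Filter ℕ := (hyperfilter ℕ : Ultrafilter ℕ)

theorem UU_le : UU ≤ atTop := by
  rw [← Nat.cofinite_eq_atTop]
  exact hyperfilter_le_cofinite

theorem diag (A : ℕ → ℕ → Prop) (h : ∀ k, ∀ᶠ n in UU, A k n) :
    ∃ κ : ℕ → ℕ, Tendsto κ UU atTop ∧ ∀ᶠ n in UU, A (κ n) n := by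
  classical
  refine ⟨fun n => Nat.findGreatest (fun k => A k n) n, ?_, ?_⟩
  · refine tendsto_atTop.2 fun k => ?_
    filter_upwards [h k, UU_le (eventually_ge_atTop k)] with n h1 h2
    exact Nat.le_findGreatest h2 h1
  · filter_upwards [h 0] with n h1
    exact Nat.findGreatest_spec (P := fun k => A k n) (Nat.zero_le n) h1

variable {E : Type} [Field E]

/-- the ultrapower -/
abbrev FF (E : Type) := Germ UU E

/-- constants -/
noncomputable def cst (b : E) : FF E := ((fun _ : ℕ => b : ℕ → E) : FF E)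

variable {I : Filter E}

theorem t_add (hI : Good I) {x y : FF E} (hx : x.Tendsto I) (hy : y.Tendsto I) :
    (x + y).Tendsto I := by
  induction x using Germ.inductionOn with | h f => ?_
  induction y using Germ.inductionOn with | h g => ?_
  rw [Germ.coe_tendsto] at hx hy
  rw [← Germ.coe_add, Germ.coe_tendsto]
  exact hI.add.comp (hx.prodMk hy)

theorem t_cst (hI : Good I) (c : E) {x : FF E} (hx : x.Tendsto I) : (cst c * x).Tendsto I := by
  induction x using Germ.inductionOn with | h f => ?_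
  rw [Germ.coe_tendsto] at hx
  unfold cst
  rw [← Germ.coe_mul, Germ.coe_tendsto]
  exact (hI.smul c).comp hx

theorem t_zero (hI : Good I) : (0 : FF E).Tendsto I := by
  rw [← Germ.coe_zero, Germ.coe_tendsto]
  exact (tendsto_const_pure (b := (0 : E))).mono_right hI.zero

theorem cst_neg_one : (cst (-1 : E)) = -1 := rfl

/-- the ring of multipliers of the infinitesimals -/
noncomputable def RR (hI : Good I) : Subring (FF E) where
  carrier := {x | ∀ e : FF E, e.Tendsto I → (x * e).Tendsto I}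
  mul_mem' := fun {x y} hx hy e he => by
    rw [mul_assoc]
    exact hx _ (hy e he)
  one_mem' := fun e he => by rwa [one_mul]
  add_mem' := fun {x y} hx hy e he => by
    rw [add_mul]
    exact t_add hI (hx e he) (hy e he)
  zero_mem' := fun e _ => by
    rw [zero_mul]
    exact t_zero hI
  neg_mem' := fun {x} hx e he => by
    have := t_cst hI (-1) (hx e he)
    rwa [cst_neg_one, neg_one_mul, ← neg_mul] at this

theorem mem_RR (hI : Good I) {x : FF E} :
    x ∈ RR hI ↔ ∀ e : FF E, e.Tendsto I → (x * e).Tendsto I := Iff.rfl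

theorem cst_mem (hI : Good I) (c : E) : cst c ∈ RR hI := fun _ he => t_cst hI c he

theorem bd_mem (hI : Good I) {V : Set E} (hV : ∀ W ∈ I, ∀ᶠ t in I, ∀ v ∈ V, t * v ∈ W)
    {f : ℕ → E} (hf : ∀ᶠ n in UU, f n ∈ V) : (f : FF E) ∈ RR hI := by
  intro e he
  induction e using Germ.inductionOn with | h g => ?_
  rw [Germ.coe_tendsto] at he
  rw [← Germ.coe_mul, Germ.coe_tendsto]
  intro W hW
  have := he.eventually (hV W hW)
  rw [mem_map]
  filter_upwards [this, hf] with n h1 h2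
  show f n * g n ∈ W
  rw [mul_comm]
  exact h1 _ h2

theorem t_mem (hI : Good I) {x : FF E} (hx : x.Tendsto I) : x ∈ RR hI := by
  obtain ⟨V, hV, h1, -⟩ := hI.bd
  induction x using Germ.inductionOn with | h f => ?_
  exact bd_mem hI h1 (Germ.coe_tendsto.1 hx hV)

/-- the ideal of infinitesimals -/
noncomputable def JJ (hI : Good I) : Ideal (RR hI) where
  carrier := {r | (r : FF E).Tendsto I}
  add_mem' := fun hx hy => t_add hI hx hy
  zero_mem' := t_zero hI
  smul_mem' := fun c _ hx => c.2 _ hx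

theorem mem_JJ (hI : Good I) {r : RR hI} : r ∈ JJ hI ↔ (r : FF E).Tendsto I := Iff.rfl

theorem cover (hI : Good I) : ∃ P : Finset E, ∀ x : FF E, ∃ b ∈ P, x ≠ cst b ∧
    (x - cst b)⁻¹ ∈ RR hI := by
  classical
  obtain ⟨V, -, h1, P, hP⟩ := hI.bd
  refine ⟨P.image Prod.fst, fun x => ?_⟩
  induction x using Germ.inductionOn with | h f => ?_
  have h2 : ∀ᶠ n in (hyperfilter ℕ : Filter ℕ), ∃ p ∈ (P : Set (E × E)),
      f n ≠ p.1 ∧ p.2 ≠ 0 ∧ p.2 * (f n - p.1)⁻¹ ∈ V := Eventually.of_forall fun n => hP (f n)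
  obtain ⟨p, hp, h3⟩ := (Ultrafilter.eventually_exists_mem_iff P.finite_toSet).1 h2
  refine ⟨p.1, Finset.mem_image_of_mem _ hp, fun e => ?_, ?_⟩
  · obtain ⟨n, a, b⟩ := (h3.and (Germ.coe_eq.1 e)).exists
    exact a.1 b
  · have h4 := bd_mem hI h1 (f := fun n => p.2 * (f n - p.1)⁻¹) (h3.mono fun n h => h.2.2)
    have h5 := (RR hI).mul_mem (cst_mem hI p.2⁻¹) h4
    have h6 : ((f : FF E) - cst p.1)⁻¹
        = cst p.2⁻¹ * ((fun n => p.2 * (f n - p.1)⁻¹ : ℕ → E) : FF E) := by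
      unfold cst
      rw [← Germ.coe_sub, ← Germ.coe_inv, ← Germ.coe_mul, Germ.coe_eq]
      filter_upwards [h3] with n h
      show (f n - p.1)⁻¹ = p.2⁻¹ * (p.2 * (f n - p.1)⁻¹)
      rw [inv_mul_cancel_left₀ h.2.1]
    rwa [h6]

theorem basis (hc : I.IsCountablyGenerated) (hI : Good I) : ∃ (N : ℕ → Set E) (t : ℕ → E),
    (∀ k, N k ∈ I) ∧ (∀ k, t k ∈ N k ∧ t k ≠ 0) ∧
    ∀ (κ : ℕ → ℕ) (s : ℕ → E), Tendsto κ UU atTop → (∀ᶠ n in UU, s n ∈ N (κ n)) →
      Tendsto s UU I := by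
  obtain ⟨N, hN⟩ := I.exists_antitone_basis
  have h1 : ∀ k, ∃ t, t ∈ N k ∧ t ≠ 0 := fun k => by
    obtain ⟨t, a, b⟩ := (hI.nd.and_eventually (hN.mem k)).exists
    exact ⟨t, b, a⟩
  choose t ht using h1
  refine ⟨N, t, hN.mem, ht, fun κ s hκ hs W hW => ?_⟩
  rw [mem_map]
  filter_upwards [hκ.eventually (hN.eventually_subset hW), hs] with n a b
  exact a b

theorem fact (hc : I.IsCountablyGenerated) (hI : Good I) {x : FF E} (hx : x.Tendsto I) :
    ∃ y z : FF E, y.Tendsto I ∧ z.Tendsto I ∧ x = y * z := by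
  obtain ⟨N, t, h1, h2, h3⟩ := basis hc hI
  induction x using Germ.inductionOn with | h f => ?_
  rw [Germ.coe_tendsto] at hx
  obtain ⟨κ, hκ, h4⟩ := diag (fun k n => (t k)⁻¹ * f n ∈ N k) fun k =>
    ((hI.smul (t k)⁻¹).comp hx) (h1 k)
  refine ⟨(fun n => t (κ n) : ℕ → E), (fun n => (t (κ n))⁻¹ * f n : ℕ → E),
    Germ.coe_tendsto.2 (h3 κ _ hκ (Eventually.of_forall fun n => (h2 _).1)),
    Germ.coe_tendsto.2 (h3 κ _ hκ h4), ?_⟩
  rw [← Germ.coe_mul, Germ.coe_eq]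
  refine Eventually.of_forall fun n => ?_
  show f n = t (κ n) * ((t (κ n))⁻¹ * f n)
  rw [mul_inv_cancel_left₀ (h2 _).2]

/-- limit at a complex place -/
def Lim (σ : E →+* ℂ) (x : FF E) (l : ℂ) : Prop := x.Tendsto (comap σ (𝓝 l))

variable {σ : E →+* ℂ}

theorem lim_coe {f : ℕ → E} {l : ℂ} :
    Lim σ (f : FF E) l ↔ Tendsto (fun n => σ (f n)) UU (𝓝 l) := by
  unfold Lim
  rw [Germ.coe_tendsto, tendsto_comap_iff]
  rfl

theorem lim_cst (b : E) : Lim σ (cst b) (σ b) := lim_coe.2 tendsto_const_nhds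

theorem lim_add {x y : FF E} {l m : ℂ} (hx : Lim σ x l) (hy : Lim σ y m) :
    Lim σ (x + y) (l + m) := by
  induction x using Germ.inductionOn with | h f => ?_
  induction y using Germ.inductionOn with | h g => ?_
  rw [← Germ.coe_add, lim_coe]
  simpa using (lim_coe.1 hx).add (lim_coe.1 hy)

theorem lim_sub {x y : FF E} {l m : ℂ} (hx : Lim σ x l) (hy : Lim σ y m) :
    Lim σ (x - y) (l - m) := by
  induction x using Germ.inductionOn with | h f => ?_
  induction y using Germ.inductionOn with | h g => ?_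
  rw [← Germ.coe_sub, lim_coe]
  simpa using (lim_coe.1 hx).sub (lim_coe.1 hy)

theorem lim_mul {x y : FF E} {l m : ℂ} (hx : Lim σ x l) (hy : Lim σ y m) :
    Lim σ (x * y) (l * m) := by
  induction x using Germ.inductionOn with | h f => ?_
  induction y using Germ.inductionOn with | h g => ?_
  rw [← Germ.coe_mul, lim_coe]
  simpa using (lim_coe.1 hx).mul (lim_coe.1 hy)

theorem lim_unique {x : FF E} {l m : ℂ} (hx : Lim σ x l) (hy : Lim σ x m) : l = m := by
  induction x using Germ.inductionOn with | h f => ?_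
  exact tendsto_nhds_unique (lim_coe.1 hx) (lim_coe.1 hy)

theorem lim_one : Lim σ (1 : FF E) 1 := by
  have := lim_cst (σ := σ) 1
  rwa [map_one] at this

theorem lim_t (hσ : Tendsto σ I (𝓝 0)) {x : FF E} (hx : x.Tendsto I) : Lim σ x 0 := by
  induction x using Germ.inductionOn with | h f => ?_
  exact lim_coe.2 (hσ.comp (Germ.coe_tendsto.1 hx))

theorem lim_ex (hc : I.IsCountablyGenerated) (hI : Good I) (hσ : Tendsto σ I (𝓝 0)) {x : FF E}
    (hx : x ∈ RR hI) : ∃ l, Lim σ x l := by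
  obtain ⟨N, t, -, h2, h3⟩ := basis hc hI
  induction x using Germ.inductionOn with | h f => ?_
  have hb : ∃ C : ℝ, ∀ᶠ n in UU, ‖σ (f n)‖ ≤ C := by
    by_contra hn
    obtain ⟨κ, hκ, h4⟩ := diag (fun k n => ¬‖σ (f n)‖ ≤ ‖σ (t k)‖⁻¹) fun k =>
      Ultrafilter.eventually_not.2 fun h => hn ⟨_, h⟩
    have h5 := hx _ (Germ.coe_tendsto.2 (h3 κ _ hκ (Eventually.of_forall fun n => (h2 _).1)))
    rw [← Germ.coe_mul] at h5
    have h6 := (lim_coe.1 (lim_t hσ h5)).norm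
    rw [norm_zero] at h6
    obtain ⟨n, a, b⟩ := (h4.and (h6.eventually (gt_mem_nhds one_pos))).exists
    have h7 : 0 < ‖σ (t (κ n))‖ := norm_pos_iff.2 ((map_ne_zero σ).2 (h2 _).2)
    rw [Pi.mul_apply, map_mul, norm_mul] at b
    apply a
    rw [← one_div, le_div_iff₀ h7]
    exact b.le
  obtain ⟨C, hC⟩ := hb
  obtain ⟨l, -, hl⟩ := (isCompact_closedBall (0 : ℂ) C).ultrafilter_le_nhds
    ((hyperfilter ℕ).map fun n => σ (f n)) (by
      rw [le_principal_iff, Ultrafilter.coe_map, mem_map]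
      filter_upwards [hC] with n h
      exact mem_closedBall_zero_iff.2 h)
  exact ⟨l, lim_coe.2 hl⟩

theorem hom (hc : I.IsCountablyGenerated) (hI : Good I) (hσ : Tendsto σ I (𝓝 0)) :
    ∃ φ : RR hI →+* ℂ, ∀ r : RR hI, Lim σ r (φ r) := by
  choose φ hφ using fun r : RR hI => lim_ex hc hI hσ r.2
  refine ⟨⟨⟨⟨φ, lim_unique (hφ 1) lim_one⟩, fun x y => lim_unique (hφ _) (lim_mul (hφ x) (hφ y))⟩,
    lim_unique (hφ 0) (lim_t hσ (t_zero hI)),
    fun x y => lim_unique (hφ _) (lim_add (hφ x) (hφ y))⟩, hφ⟩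

theorem inv_ne {x : FF E} {b : E} {l m : ℂ} (h : x ≠ cst b) (hx : Lim σ x l)
    (hr : Lim σ (x - cst b)⁻¹ m) : m ≠ 0 := by
  have h1 := lim_mul hr (lim_sub hx (lim_cst b))
  rw [inv_mul_cancel₀ (sub_ne_zero.2 h)] at h1
  have h2 := lim_unique h1 lim_one
  rintro rfl
  simp at h2

theorem inv_zero' {x : FF E} {b : E} {m : ℂ} (h : x ≠ cst b) (h0 : x ≠ 0) (hx : Lim σ x⁻¹ 0)
    (hr : Lim σ (x - cst b)⁻¹ m) : m = 0 := by
  have h1 := lim_mul hx (lim_add lim_one (lim_mul (lim_cst b) hr))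
  have h2 : x⁻¹ * (1 + cst b * (x - cst b)⁻¹) = (x - cst b)⁻¹ := by
    have := sub_ne_zero.2 h
    field_simp
    ring
  rw [h2, zero_mul] at h1
  exact lim_unique hr h1

end SCx

open SCx in
theorem sc (h : SB) : SC := by
  classical
  intro E _ I hc hI σ₁ σ₂ h₁ h₂ w hw₂ hw₁ n ζ hζ hcl W hW U₁ hU₁ U₂ hU₂
  obtain ⟨P, hP⟩ := cover hI
  obtain ⟨φ₁, hφ₁⟩ := hom hc hI h₁
  obtain ⟨φ₂, hφ₂⟩ := hom hc hI h₂
  have hne : RingHom.ker φ₁ ≠ RingHom.ker φ₂ := by
    intro e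
    obtain ⟨b, -, hb, hr⟩ := hP ((fun k => w ^ k : ℕ → E) : FF E)
    have hw0 : w ≠ 0 := by
      rintro rfl
      rw [map_zero, norm_zero] at hw₁
      linarith
    have a0 : ((fun k => w ^ k : ℕ → E) : FF E) ≠ 0 := by
      intro e0
      rw [← Germ.coe_zero, Germ.coe_eq] at e0
      obtain ⟨k, hk⟩ := e0.exists
      exact pow_ne_zero k hw0 hk
    have a1 : Lim σ₁ ((fun k => w ^ k : ℕ → E) : FF E)⁻¹ 0 := by
      rw [← Germ.coe_inv, lim_coe]
      have := tendsto_pow_atTop_nhds_zero_of_norm_lt_one (x := (σ₁ w)⁻¹)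
        (by rw [norm_inv]; exact inv_lt_one_of_one_lt₀ hw₁)
      simpa using this.mono_left UU_le
    have a2 : Lim σ₂ ((fun k => w ^ k : ℕ → E) : FF E) 0 := by
      rw [lim_coe]
      simpa using (tendsto_pow_atTop_nhds_zero_of_norm_lt_one hw₂).mono_left UU_le
    have b1 : (⟨_, hr⟩ : RR hI) ∈ RingHom.ker φ₁ := inv_zero' hb a0 a1 (hφ₁ ⟨_, hr⟩)
    rw [e] at b1
    exact inv_ne hb a2 (hφ₂ ⟨_, hr⟩) b1
  obtain ⟨z', hz', hz⟩ := mem_closure_iff_seq_limit.1 hcl
  choose z hz0 using hz'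
  have hZ : Lim σ₂ (z : FF E) ζ := by
    rw [lim_coe]
    simp only [hz0]
    exact hz.mono_left UU_le
  obtain ⟨b, -, hb, hr⟩ := hP (z : FF E)
  set c : RR hI := ⟨_, hr⟩ with hcd
  set a : RR hI := ⟨cst b, cst_mem hI b⟩ * c + 1 with had
  have hc0 : φ₂ c ≠ 0 := inv_ne hb hZ (hφ₂ c)
  have ha : φ₂ a = ζ * φ₂ c := by
    have e : (a : FF E) = (z : FF E) * (c : FF E) := by
      show cst b * ((z : FF E) - cst b)⁻¹ + 1 = (z : FF E) * ((z : FF E) - cst b)⁻¹
      have := sub_ne_zero.2 hb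
      field_simp
      ring
    have := hφ₂ a
    rw [e] at this
    exact lim_unique this (lim_mul hZ (hφ₂ c))
  obtain ⟨y, y1, y2, y3⟩ := h (FF E) (RR hI) (JJ hI) (P.image fun b => ⟨cst b, cst_mem hI b⟩)
    (fun x => by
      obtain ⟨b, h1, h2⟩ := hP x
      exact ⟨_, Finset.mem_image_of_mem _ h1, h2⟩)
    (fun x hx e he => by
      obtain ⟨e', h1, h2⟩ := hx ⟨e, t_mem hI he⟩ he
      have h3 : x * e = (e' : FF E) := h2
      rw [h3]
      exact h1)
    (fun e he => by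
      obtain ⟨y, z, h1, h2, h3⟩ := fact hc hI he
      exact ⟨⟨y, t_mem hI h1⟩, h1, ⟨z, t_mem hI h2⟩, h2, Subtype.ext h3⟩)
    (RingHom.ker φ₁) (RingHom.ker φ₂) (RingHom.ker_isPrime _) (RingHom.ker_isPrime _)
    (fun r hr => lim_unique (hφ₁ r) (lim_t h₁ hr)) (fun r hr => lim_unique (hφ₂ r) (lim_t h₂ hr))
    hne a c n hc0 (by
      rw [RingHom.mem_ker, map_sub, map_pow, map_pow, ha, mul_pow, hζ, one_mul, sub_self])
  rw [RingHom.mem_ker, map_sub, map_one, sub_eq_zero] at y1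
  rw [RingHom.mem_ker, map_sub, map_mul, ha, sub_eq_zero] at y2
  have y4 : φ₂ y = ζ := mul_right_cancel₀ hc0 y2
  have l1 := hφ₁ y
  have l2 := hφ₂ y
  have l3 : ((y : FF E) ^ n - 1).Tendsto I := y3
  rw [y1] at l1
  rw [y4] at l2
  generalize (y : FF E) = Y at l1 l2 l3
  induction Y using Germ.inductionOn with | h g => ?_
  rw [← Germ.coe_pow, ← Germ.coe_one, ← Germ.coe_sub, Germ.coe_tendsto] at l3
  obtain ⟨k, k1, k2, k3⟩ := ((l3.eventually_mem hW).and (((lim_coe.1 l1).eventually_mem hU₁).and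
    ((lim_coe.1 l2).eventually_mem hU₂))).exists
  exact ⟨g k, k1, k2, k3⟩

end Pool.Agent.MP_96eeb0_lc.H87
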