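import Pool.Agent.MP_96eeb0_lc.H87.Spec

/-! Two independent complex places force infinite index of the powers. -/

namespace Pool.Agent.MP_96eeb0_lc.H87

open Filter Topology

namespace SD1x

/-- the principal root -/
noncomputable def rt (n : ℕ) (z : ℂ) : ℂ := Complex.exp (Complex.log z / n)

theorem rt_pow {n : ℕ} (hn : 0 < n) {z : ℂ} (hz : z ≠ 0) : rt n z ^ n = z := by
  have : (n : ℂ) ≠ 0 := by exact_mod_cast hn.ne'
  rw [rt, ← Complex.exp_nat_mul, mul_div_cancel₀ _ this, Complex.exp_log hz]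

theorem log_one : Tendsto Complex.log (𝓝 1) (𝓝 0) := by
  simpa using (continuousAt_clog (x := 1) Complex.one_mem_slitPlane).tendsto

theorem rt_one (n : ℕ) : Tendsto (rt n) (𝓝 1) (𝓝 1) := by
  have := (Complex.continuous_exp.tendsto _).comp (log_one.div_const (n : ℂ))
  rwa [zero_div, Complex.exp_zero] at this

theorem rt_near {n : ℕ} (hn : 0 < n) : ∀ᶠ z in 𝓝 (1 : ℂ), rt n (z ^ n) = z := by
  have h0 : (n : ℂ) ≠ 0 := by exact_mod_cast hn.ne'
  have h : Tendsto (fun z => ((n : ℂ) * Complex.log z).im) (𝓝 1) (𝓝 0) := by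
    have := (Complex.continuous_im.tendsto _).comp (log_one.const_mul (n : ℂ))
    rwa [mul_zero, Complex.zero_im] at this
  filter_upwards [h.eventually (Ioo_mem_nhds (neg_neg_of_pos Real.pi_pos) Real.pi_pos),
    eventually_ne_nhds (one_ne_zero (α := ℂ))] with z h1 h2
  have e : z ^ n = Complex.exp (n * Complex.log z) := by
    rw [Complex.exp_nat_mul, Complex.exp_log h2]
  rw [e, rt, Complex.log_exp h1.1 h1.2.le, mul_div_cancel_left₀ _ h0, Complex.exp_log h2]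

theorem rt_far {n : ℕ} (hn : 2 ≤ n) :
    ∃ ζ : ℂ, ζ ^ n = 1 ∧ ∀ᶠ z in 𝓝 ζ, rt n (z ^ n) ≠ z := by
  have h := Complex.isPrimitiveRoot_exp n (by omega)
  refine ⟨_, h.pow_eq_one, ?_⟩
  have h1 := (continuous_pow n).tendsto (Complex.exp (2 * Real.pi * Complex.I / n))
  rw [h.pow_eq_one] at h1
  have h2 := (((rt_one n).comp h1).sub tendsto_id).eventually_ne
    (sub_ne_zero.2 (h.ne_one (by omega)).symm)
  exact h2.mono fun z hz => sub_ne_zero.1 hz

theorem rt_mul (n : ℕ) {z w : ℂ} (hz : ‖z - 1‖ < 1) (hw : ‖w - 1‖ < 1) :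
    rt n (z * w) = rt n z * rt n w := by
  have re : ∀ {z : ℂ}, ‖z - 1‖ < 1 → 0 < z.re := fun {z} h => by
    have := (abs_le.1 ((Complex.abs_re_le_norm (z - 1)))).1
    simp only [Complex.sub_re, Complex.one_re] at this
    linarith
  have ne : ∀ {z : ℂ}, ‖z - 1‖ < 1 → z ≠ 0 := fun h e => by simp [e] at h
  have a1 := abs_lt.1 (Complex.abs_arg_lt_pi_div_two_iff.2 (Or.inl (re hz)))
  have a2 := abs_lt.1 (Complex.abs_arg_lt_pi_div_two_iff.2 (Or.inl (re hw)))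
  rw [rt, (Complex.log_mul_eq_add_log_iff (ne hz) (ne hw)).2 ⟨by linarith, by linarith⟩, add_div,
    Complex.exp_add, rt, rt]

theorem dense {ι : ℂ} (h : ι * ι = -1) (z : ℂ) {ε : ℝ} (hε : 0 < ε) :
    ∃ a b : ℚ, ‖z - (a + b * ι)‖ < ε := by
  have key : ∀ z : ℂ, ∃ a b : ℚ, ‖z - (a + b * Complex.I)‖ < ε := fun z => by
    obtain ⟨a, ha⟩ := exists_rat_near z.re (half_pos hε)
    obtain ⟨b, hb⟩ := exists_rat_near z.im (half_pos hε)
    refine ⟨a, b, (Complex.norm_le_abs_re_add_abs_im _).trans_lt ?_⟩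
    simp only [Complex.sub_re, Complex.sub_im, Complex.add_re, Complex.add_im, Complex.mul_re,
      Complex.mul_im, Complex.ratCast_re, Complex.ratCast_im, Complex.I_re, Complex.I_im]
    simp only [mul_zero, mul_one, sub_zero, add_zero, zero_add]
    linarith
  obtain ⟨a, b, hab⟩ := key z
  rcases mul_self_eq_mul_self_iff.1 (h.trans Complex.I_mul_I.symm) with rfl | rfl
  · exact ⟨a, b, hab⟩
  · exact ⟨a, -b, by simpa using hab⟩

theorem core (hA : SA) (hC : SC) {E J Q : Type} [Field E] [Countable E] [Fintype J] [CommGroup Q]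
    (τ : J → E →+* ℂ) (G : Set E) (χ : E → Q) {n : ℕ} (hn : 0 < n) (h1 : 1 ∈ G)
    (ho : ∀ g ∈ G, ∃ η > 0, ∀ g', (∀ j, ‖τ j g' - τ j g‖ < η) → g' ∈ G)
    (hs : ∀ g ∈ G, ∀ j, ‖τ j g - 1‖ < 1) (hm : ∀ g ∈ G, ∀ h ∈ G, χ (g * h) = χ g * χ h)
    (hf : (Set.range χ).Finite) (hp : ∀ g, χ g ^ n = 1) (hv : VC {g | g ∈ G ∧ χ g = 1})
    (j₁ j₂ : J) (w : E) (w2 : ‖τ j₂ w‖ < 1) (w1 : 1 < ‖τ j₁ w‖) (ζ : ℂ) (hζ : ζ ^ n = 1)
    (hc : ζ ∈ closure (Set.range (τ j₂))) (U₁ U₂ : Set ℂ) (u1 : U₁ ∈ 𝓝 (1 : ℂ)) (u2 : U₂ ∈ 𝓝 ζ) :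
    ∃ y : E, (y ^ n ∈ G ∧ χ (y ^ n) = 1) ∧ τ j₁ y ∈ U₁ ∧ τ j₂ y ∈ U₂ := by
  classical
  have : CharZero E := (τ j₁).charZero
  let Φ : E →+* (J → ℂ) := RingHom.pi τ
  let _ : TopologicalSpace E := TopologicalSpace.induced Φ inferInstance
  have hi : IsInducing Φ := ⟨rfl⟩
  have ct : ∀ j, Continuous (τ j) := fun j => (continuous_apply j).comp hi.continuous
  have : ContinuousAdd E := hi.continuousAdd Φ
  have : ContinuousMul E := hi.continuousMul Φ
  have : ContinuousNeg E := hi.continuousNeg fun x => map_neg Φ x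
  have : IsTopologicalRing E := {}
  have : ContinuousInv₀ E := ⟨fun x hx => hi.continuousAt_iff.2 (continuousAt_pi.2 fun j => by
    have := (ct j).continuousAt.inv₀ ((map_ne_zero (τ j)).2 hx)
    simpa [Φ, Function.comp_def, Pi.inv_def] using this)⟩
  have : IsTopologicalDivisionRing E := {}
  have nh : ∀ (x : E) (W : Set E),
      W ∈ 𝓝 x ↔ ∃ η > 0, ∀ y, (∀ j, ‖τ j y - τ j x‖ < η) → y ∈ W := fun x W => by
    rw [nhds_induced, mem_comap]
    constructor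
    · rintro ⟨t, ht, h⟩
      obtain ⟨η, h0, hb⟩ := Metric.mem_nhds_iff.1 ht
      exact ⟨η, h0, fun y hy => h (hb ((dist_pi_lt_iff h0).2 fun j => by
        simpa [Φ, dist_eq_norm] using hy j))⟩
    · rintro ⟨η, h0, h⟩
      exact ⟨_, Metric.ball_mem_nhds _ h0, fun y hy => h y fun j => by
        simpa [Φ, dist_eq_norm] using (dist_pi_lt_iff h0).1 hy j⟩
  have bd : ∀ B : Set E, (∀ u ∈ B, ∀ j, ‖τ j u‖ ≤ 1) → Bd B := fun B hB W hW => by
    obtain ⟨η, h0, h⟩ := (nh _ _).1 hW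
    obtain ⟨m, hm⟩ := exists_nat_one_div_lt h0
    refine ⟨((m + 1 : ℕ) : E)⁻¹, inv_ne_zero (Nat.cast_ne_zero.2 m.succ_ne_zero),
      fun u hu => h _ fun j => lt_of_le_of_lt ?_ hm⟩
    rw [map_zero, sub_zero, map_mul, map_inv₀, map_natCast, norm_mul, norm_inv,
      Complex.norm_natCast, Nat.cast_succ, one_div]
    exact mul_le_of_le_one_right (by positivity) (hB u hu j)
  obtain ⟨I, i1, i2, i3, i4⟩ := hA E Q G χ n {u | ∀ j, ‖τ j u‖ ≤ 1}
    (Finset.univ.image fun k : Fin (Fintype.card J + 1) => ((2 * k : ℕ) : E))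
    (isOpen_iff_mem_nhds.2 fun g hg => (nh _ _).2 (ho g hg)) h1
    (fun h => by simpa using hs 0 h j₁) hm hf hn hp
    (bd _ fun u hu j => by simpa using (hs _ hu j).le) (bd _ fun u hu => hu) (by simp)
    (fun x => by
      have : ∃ k : Fin (Fintype.card J + 1), ∀ j, 1 ≤ ‖τ j x - (2 * k : ℕ)‖ := by
        by_contra hk
        push Not at hk
        choose c hc using hk
        obtain ⟨k, l, ne, e⟩ := Fintype.exists_ne_map_eq_of_card_lt c (by simp)
        have h := norm_sub_le (τ (c l) x - (2 * l : ℕ)) (τ (c k) x - (2 * k : ℕ))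
        rw [show τ (c l) x - (2 * l : ℕ) - (τ (c k) x - (2 * k : ℕ)) =
          ((2 * ((k : ℕ) - (l : ℕ)) : ℤ) : ℂ) by rw [e]; push_cast; ring, Complex.norm_intCast] at h
        have h2 : |((2 * ((k : ℕ) - (l : ℕ)) : ℤ) : ℝ)| < 2 := by linarith [hc k, hc l]
        have h3 : |(2 * ((k : ℕ) - (l : ℕ)) : ℤ)| < 2 := by exact_mod_cast h2
        have := abs_lt.1 h3
        exact ne (Fin.ext (by omega))
      obtain ⟨k, hk⟩ := this
      refine ⟨_, Finset.mem_image_of_mem _ (Finset.mem_univ k), fun e => ?_, fun j => ?_⟩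
      · have := hk j₁
        rw [e, map_natCast, sub_self, norm_zero] at this
        linarith
      · rw [map_inv₀, map_sub, map_natCast, norm_inv]
        exact inv_le_one_of_one_le₀ (hk j)) hv
  have tt : ∀ j, Tendsto (τ j) I (𝓝 0) := fun j => by
    simpa using ((ct j).tendsto 0).mono_left i3
  obtain ⟨y, hy, h⟩ := hC E I i1 i2 _ _ (tt j₁) (tt j₂) w w2 w1 n ζ hζ hc _ i4 U₁ u1 U₂ u2
  exact ⟨y, by simpa using hy, h⟩

variable {E J : Type} [Field E] (σ : J → E →+* ℂ) (n : ℕ)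

/-- the graph of the powers -/
def gr : Eˣ →* Eˣ × (J → ℂˣ) :=
  (powMonoidHom n).prod (MonoidHom.pi fun j => Units.map (σ j : E →* ℂ))

open Classical in
/-- the obstruction to being a local power -/
noncomputable def ch (g : E) : (Eˣ × (J → ℂˣ)) ⧸ (gr σ n).range :=
  if h : g = 0 then 1 else
    QuotientGroup.mk (Units.mk0 g h, fun j => Units.mk0 (rt n (σ j g)) (Complex.exp_ne_zero _))

theorem ch_one {g : E} (hn : 0 < n) (h : g ≠ 0) :
    ch σ n g = 1 ↔ ∃ u : E, u ^ n = g ∧ ∀ j, σ j u = rt n (σ j g) := by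
  rw [ch, dif_neg h, QuotientGroup.eq_one_iff]
  constructor
  · rintro ⟨u, hu⟩
    exact ⟨u, by simpa [gr] using congrArg (fun p => (p.1 : E)) hu,
      fun j => by simpa [gr] using congrArg (fun p => (p.2 j : ℂ)) hu⟩
  · rintro ⟨u, h1, h2⟩
    have : u ≠ 0 := fun e => h (by rw [← h1, e, zero_pow hn.ne'])
    exact ⟨Units.mk0 u this, Prod.ext (Units.ext (by simpa [gr] using h1))
      (funext fun j => Units.ext (by simpa [gr] using h2 j))⟩

theorem ch_pow (hn : 0 < n) (g : E) : ch σ n g ^ n = 1 := by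
  rw [ch]
  split_ifs with h
  · exact one_pow n
  · rw [← QuotientGroup.mk_pow, QuotientGroup.eq_one_iff]
    exact ⟨Units.mk0 g h, Prod.ext rfl (funext fun j => Units.ext (by
      simpa [gr] using (rt_pow hn ((map_ne_zero (σ j)).2 h)).symm))⟩

theorem ch_mul {g h : E} (g0 : g ≠ 0) (h0 : h ≠ 0) (hg : ∀ j, ‖σ j g - 1‖ < 1)
    (hh : ∀ j, ‖σ j h - 1‖ < 1) : ch σ n (g * h) = ch σ n g * ch σ n h := by
  rw [ch, ch, ch, dif_neg g0, dif_neg h0, dif_neg (mul_ne_zero g0 h0), ← QuotientGroup.mk_mul]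
  congr 1
  exact Prod.ext (Units.ext rfl) (funext fun j => Units.ext (by
    simpa using rt_mul n (hg j) (hh j)))

theorem ch_fin [Finite J] (hn : 0 < n) [(powMonoidHom n : Eˣ →* Eˣ).range.FiniteIndex] :
    (Set.range (ch σ n)).Finite := by
  have f1 : ∀ a : ℂ, {z : ℂˣ | (z : ℂ) ^ n = a}.Finite := fun a =>
    ((Polynomial.nthRoots n a).finite_toSet.preimage Units.val_injective.injOn).subset
      fun z hz => (Polynomial.mem_nthRoots hn).2 hz
  have f2 : (⋃ q : Eˣ ⧸ (powMonoidHom n : Eˣ →* Eˣ).range, {q.out} ×ˢ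
      {r : J → ℂˣ | ∀ j, r j ∈ {z : ℂˣ | (z : ℂ) ^ n = σ j (q.out : Eˣ)}}).Finite :=
    Set.finite_iUnion fun q => (Set.finite_singleton _).prod (Set.Finite.pi' fun j => f1 _)
  refine ((f2.image QuotientGroup.mk).insert 1).subset ?_
  rintro _ ⟨g, rfl⟩
  rw [ch]
  split_ifs with h
  · exact Set.mem_insert _ _
  obtain ⟨⟨_, u, rfl⟩, hu⟩ := QuotientGroup.mk_out_eq_mul (powMonoidHom n : Eˣ →* Eˣ).range
    (Units.mk0 g h)
  refine Set.mem_insert_of_mem _ ⟨_, Set.mem_iUnion.2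
    ⟨QuotientGroup.mk (Units.mk0 g h), ?_, fun j => ?_⟩,
    QuotientGroup.mk_mul_of_mem _ (b := gr σ n u) ⟨u, rfl⟩⟩
  · exact hu.symm
  simp [hu, gr, mul_pow, rt_pow hn ((map_ne_zero (σ j)).2 h)]

end SD1x

open SD1x

theorem sd1 : SD1 := fun hA hC E J _ _ σ Box hB i j₁ j₂ hi hne hσ n hn hF => by
  have n0 : 0 < n := by omega
  obtain ⟨ε₁, e1, s1⟩ := Metric.eventually_nhds_iff.1 (rt_near n0)
  obtain ⟨m', hm'⟩ := hB.small ε₁ e1
  obtain ⟨η, h0, hη⟩ := hB.opn m' 1 (hB.one m')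
  obtain ⟨ε₂, e2, s2⟩ := Metric.eventually_nhds_iff.1
    ((rt_one n).eventually (Metric.ball_mem_nhds 1 h0))
  obtain ⟨m, hm⟩ := hB.small (min ε₂ 1) (lt_min e2 one_pos)
  have hs : ∀ g ∈ Box m, ∀ j, ‖σ j g - 1‖ < 1 := fun g hg j => (hm g hg j).trans_le (min_le_right _ _)
  have g0 : ∀ g ∈ Box m, g ≠ 0 := fun g hg e => by simpa [e] using hs g hg j₁
  have key : ∀ g ∈ Box m, ch σ n g = 1 ↔ ∃ u ∈ Box m', u ^ n = g := fun g hg => by
    rw [ch_one σ n n0 (g0 g hg)]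
    constructor
    · rintro ⟨u, h1, h2⟩
      refine ⟨u, hη u fun j => ?_, h1⟩
      rw [h2, map_one, ← dist_eq_norm]
      exact s2 (by rw [dist_eq_norm]; exact (hm g hg j).trans_le (min_le_left _ _))
    · rintro ⟨u, h1, rfl⟩
      exact ⟨u, rfl, fun j => by rw [map_pow, s1 (by rw [dist_eq_norm]; exact hm' u h1 j)]⟩
  obtain ⟨α, hα⟩ := DFunLike.ne_iff.1 hne
  have hD : 0 < ‖σ j₁ α - σ j₂ α‖ := norm_pos_iff.2 (sub_ne_zero.2 hα)
  have hι : σ j₂ i * σ j₂ i = -1 := by rw [← map_mul, hi, map_neg, map_one]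
  obtain ⟨a, b, hab⟩ := dense hι (σ j₂ α) (show 0 < ‖σ j₁ α - σ j₂ α‖ / 3 by positivity)
  obtain ⟨ρ, r1, r2⟩ := exists_rat_btwn
    (show ‖σ j₁ α - σ j₂ α‖ / 3 < 2 * (‖σ j₁ α - σ j₂ α‖ / 3) by linarith)
  have r0 : (0 : ℝ) < ρ := by linarith
  have : CharZero E := (σ j₁).charZero
  have nw : ∀ j, σ j i = σ j₂ i →
      ‖σ j ((α - (a + b * i)) / ρ)‖ = ‖σ j α - (a + b * σ j₂ i)‖ / ρ := fun j hj => by
    rw [map_div₀, map_sub, map_add, map_mul, map_ratCast, map_ratCast, map_ratCast, hj, norm_div,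
      Complex.norm_ratCast, abs_of_pos r0]
  set w : E := (α - (a + b * i)) / ρ
  let E₀ := Subfield.closure ({i, w} : Set E)
  have hi0 : i ∈ E₀ := Subfield.subset_closure (by simp)
  have hw0 : w ∈ E₀ := Subfield.subset_closure (by simp)
  have : Countable E₀ := Cardinal.mk_le_aleph0_iff.1
    ((Subfield.cardinalMk_closure_le_max _).trans (max_le (Cardinal.mk_le_aleph0_iff.2
      (Set.toFinite _).countable) le_rfl))
  obtain ⟨ζ, hζ, u2⟩ := rt_far hn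
  obtain ⟨y, ⟨y1, y2⟩, y3, y4⟩ := core hA hC (fun j => (σ j).comp E₀.subtype)
    {g | (g : E) ∈ Box m} (fun g => ch σ n g) n0 (hB.one m)
    (fun g hg => (hB.opn m g hg).imp fun η h => ⟨h.1, fun g' => h.2 g'⟩) (fun g hg => hs g hg)
    (fun g hg h hh => ch_mul σ n (g0 g hg) (g0 h hh) (hs g hg) (hs h hh))
    ((ch_fin σ n n0).subset (by rintro _ ⟨g, rfl⟩; exact ⟨g, rfl⟩)) (fun g => ch_pow σ n n0 g)
    ((hB.vc m m' n).imp fun N hN ⟨x, y, h⟩ => hN ⟨fun S => x S, fun k => y k, fun S k =>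
      (and_congr_right (key _)).symm.trans (h S k)⟩)
    j₁ j₂ ⟨w, hw0⟩ ((nw j₂ rfl).trans_lt ((div_lt_one r0).2 (hab.trans r1)))
    (((one_lt_div r0).2 (by
      linarith [norm_sub_le_norm_sub_add_norm_sub (σ j₁ α) (a + b * σ j₂ i) (σ j₂ α),
        norm_sub_rev (σ j₂ α) (a + b * σ j₂ i)])).trans_eq (nw j₁ hσ).symm) ζ hζ
    (Metric.mem_closure_iff.2 fun ε hε => by
      obtain ⟨c, d, h⟩ := dense hι ζ hε
      exact ⟨_, ⟨c + d * ⟨i, hi0⟩, rfl⟩, by simpa [dist_eq_norm] using h⟩)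
    _ _ (rt_near n0) u2
  obtain ⟨u, -, hu⟩ := (ch_one σ n n0 (g0 _ y1)).1 y2
  have e : ∀ j, σ j u = rt n (σ j y ^ n) := fun j => by simpa using hu j
  have : u = y := (σ j₁).injective ((e j₁).trans y3)
  exact y4 ((e j₂).symm.trans (by rw [this]; rfl))

end Pool.Agent.MP_96eeb0_lc.H87
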