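import Pool.Agent.MP_96eeb0_lc.H87.Spec
import Pool.Agent.MP_96eeb0_lc.H32.Ord
import Pool.Agent.MP_96eeb0_lc.H32.Ext

/-! Coordinate boxes in a finite extension of a NIP subfield of the reals. -/

namespace Pool.Agent.MP_96eeb0_lc.H87

open Pool.Agent.MP_96eeb0_lc.H32 Module

namespace SD2x

section
variable {K E : Type} [Field K] [Field E] [Algebra K E] {d : ℕ} (b : Basis (Fin d) K E)

/-- the vector with coordinates `w i, ..., w (i + d - 1)` -/
noncomputable def T (i : ℕ) (w : ℕ → K) : E := ∑ k : Fin d, w (i + k) • b k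

/-- the coordinates as a sequence -/
noncomputable def R (x : E) (k : ℕ) : K := if h : k < d then b.repr x ⟨k, h⟩ else 0

theorem T_R (x : E) : T b 0 (R b x) = x := by simp [T, R]

theorem T_app0 (a v : ℕ → K) : T b 0 (app d a v) = T b 0 a := by simp [T, app]

theorem T_app (i : ℕ) (a v : ℕ → K) : T b (d + i) (app d a v) = T b i v := by
  refine Finset.sum_congr rfl fun k _ => ?_
  rw [app, if_neg (by omega), show d + i + k - d = i + k by omega]

theorem vc_of (hK : NIP K) {e : ℕ → K} {D : Set E} (h : Df e fun w => T b d w + T b 0 w ∈ D) :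
    VC D := by
  obtain ⟨n, hn⟩ := h.nip hK fun k => decide (k < d)
  refine ⟨n, fun ⟨x, y, hxy⟩ => hn ⟨fun i => R b (y i), fun S k => R b (x S) (k - d),
    fun i S => ?_⟩⟩
  have e1 : (fun k => bif decide (k < d) then R b (y i) k else R b (x S) (k - d))
      = app d (R b (y i)) (R b (x S)) := by
    funext k
    by_cases hk : k < d <;> simp [app, hk]
  have e2 := T_app b 0 (R b (y i)) (R b (x S))
  rw [add_zero] at e2
  simp only [e1, e2, T_app0, T_R]
  exact hxy S i

/-- the coordinates are polynomials -/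
def CP (e : ℕ → K) (f : (ℕ → K) → E) : Prop := ∀ k, Pl e fun w => b.repr (f w) k

variable {b} {e : ℕ → K} {f g : (ℕ → K) → E}

theorem CP.vec (i : ℕ) : CP b e (T b i) := fun k => by
  have : ∀ w, b.repr (T b i w) k = w (i + k) := fun w => by
    simp [T, Finsupp.single_apply]
  simpa only [this] using Pl.var (i + k)

theorem CP.add (h : CP b e f) (h' : CP b e g) : CP b e fun w => f w + g w := fun k => by
  simpa using (h k).add (h' k)

theorem CP.sub (h : CP b e f) (h' : CP b e g) : CP b e fun w => f w - g w := fun k => by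
  simpa using (h k).sub (h' k)

theorem CP.mul (hm : ∀ s t, CP b e fun _ => b s * b t) (h : CP b e f) (h' : CP b e g) :
    CP b e fun w => f w * g w := fun k => by
  have : ∀ w, b.repr (f w * g w) k = ∑ s : Fin d, ∑ t : Fin d,
      b.repr (f w) s * b.repr (g w) t * b.repr (b s * b t) k := fun w => by
    conv_lhs => rw [← b.sum_repr (f w), ← b.sum_repr (g w)]
    simp only [Finset.sum_mul_sum, smul_mul_smul_comm, map_sum, map_smul,
      Finsupp.finsetSum_apply, Finsupp.smul_apply, smul_eq_mul]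
  simp only [this]
  exact Pl.sum _ fun s => Pl.sum _ fun t => ((h s).mul (h' t)).mul (hm s t k)

theorem CP.pow (h1 : CP b e fun _ => 1) (hm : ∀ s t, CP b e fun _ => b s * b t) (h : CP b e f)
    (n : ℕ) : CP b e fun w => f w ^ n := by
  induction n with
  | zero => simpa using h1
  | succ n ih => simpa only [pow_succ] using CP.mul hm ih h

theorem CP.eq (h : CP b e f) (h' : CP b e g) : Df e fun w => f w = g w :=
  (Df.forall_fin Finset.univ fun k => Df.eq (h k) (h' k)).congr fun _ =>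
    ⟨fun h _ _ => by rw [h], fun h => b.ext_elem fun k => h k (Finset.mem_univ k)⟩

theorem params (b : Basis (Fin d) K E) (a : K) : ∃ e : ℕ → K, e 0 = a ∧ (CP b e fun _ => 1) ∧
    ∀ s t, CP b e fun _ => b s * b t := by
  let C : (Fin d × Fin d × Fin d) ⊕ Fin d → K :=
    Sum.elim (fun t => b.repr (b t.1 * b t.2.1) t.2.2) fun k => b.repr 1 k
  let e : ℕ → K := cons a fun n => ((Encodable.decode n).map C).getD 0
  have he : ∀ t, Pl e fun _ => C t := fun t => by
    have := Pl.par (e := e) (Encodable.encode t + 1)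
    simp only [e, cons_succ, Encodable.encodek, Option.map_some, Option.getD_some] at this
    exact this
  exact ⟨e, rfl, fun k => he (.inr k), fun s t k => he (.inl (s, t, k))⟩

end

variable {K : Subfield ℝ} {E : Type} [Field E] [Algebra K E] {d : ℕ} (b : Basis (Fin d) K E)

/-- the box -/
def Bx (m : ℕ) : Set E := {g | ∀ k, ((m : ℝ) + 1) * |(b.repr (g - 1) k : ℝ)| < 1}

theorem df_Bx {e : ℕ → K} (ho : OrdDf e) (h1 : CP b e fun _ => 1) {f : (ℕ → K) → E}
    (h : CP b e f) (m : ℕ) : Df e fun w => f w ∈ Bx b m := by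
  have hp := fun k => (Pl.nat (m + 1)).mul (h.sub h1 k)
  refine (Df.forall_fin Finset.univ fun k =>
    (ho.lt (Pl.int (-1)) (hp k)).and (ho.lt (hp k) Pl.one)).congr fun w => ?_
  simp only [Bx, Set.mem_ofPred_eq, Finset.mem_univ, true_imp_iff]
  refine forall_congr' fun k => ?_
  rw [← abs_of_pos (show (0 : ℝ) < m + 1 by positivity), ← abs_mul, abs_lt,
    ← Subtype.coe_lt_coe, ← Subtype.coe_lt_coe]
  push_cast
  rfl

theorem vc_Bx (hK : NIP K) (m m' n : ℕ) : VC {g | g ∈ Bx b m ∧ ∃ u ∈ Bx b m', u ^ n = g} := by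
  obtain ⟨a, ha⟩ := ordDf_of K hK
  obtain ⟨e, he, h1, hm⟩ := params b a
  have ho := ha e he
  have h2 := ((df_Bx b ho h1 (CP.vec 0) m').and ((CP.pow h1 hm (CP.vec 0) n).eq
    ((CP.vec (d + d)).add (CP.vec (d + 0))))).exN d
  refine vc_of b hK (((df_Bx b ho h1 ((CP.vec d).add (CP.vec 0)) m).and h2).congr fun w => ?_)
  simp only [T_app, T_app0, Set.mem_ofPred_eq]
  exact and_congr_right' ⟨fun ⟨u, hu⟩ => ⟨R b u, by rwa [T_R]⟩, fun ⟨u, hu⟩ => ⟨_, hu⟩⟩

end SD2x

open SD2x in
theorem sd2 : SD2 := by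
  intro K hK E _ _ _
  classical
  let b0 := Module.finBasis K E
  let b := b0.traceDual
  have hc : ∀ c : K, ‖algebraMap K ℂ c‖ = |(c : ℝ)| := fun c => Complex.norm_real c
  refine ⟨Bx b, fun m k => by simp, fun m g hg => ?_, fun ε hε => ?_, vc_Bx b hK⟩
  · let U : Set ((E →ₐ[K] ℂ) → ℂ) :=
      {z | ∀ k, ((m : ℝ) + 1) * ‖∑ σ, (z σ - 1) * σ (b0 k)‖ < 1}
    have hU : IsOpen U := by
      simp only [U, Set.ofPred_forall]
      exact isOpen_iInter_of_finite fun k => isOpen_lt (by fun_prop) continuous_const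
    have hm : ∀ x : E, (fun σ : E →ₐ[K] ℂ => σ x) ∈ U ↔ x ∈ Bx b m := fun x => by
      refine forall_congr' fun k => ?_
      rw [← hc, Basis.traceDual_repr_apply, Algebra.traceForm_apply, trace_eq_sum_embeddings]
      simp
    obtain ⟨η, hη, h⟩ := Metric.isOpen_iff.1 hU _ ((hm g).2 hg)
    refine ⟨η, hη, fun g' h' => (hm g').1 (h ?_)⟩
    rw [Metric.mem_ball, dist_pi_lt_iff hη]
    exact fun σ => by rw [dist_eq_norm]; exact h' σ
  · let M : ℝ := ∑ σ : E →ₐ[K] ℂ, ∑ k, ‖σ (b k)‖
    obtain ⟨m, hm⟩ := exists_nat_gt (M / ε)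
    refine ⟨m, fun g hg σ => ?_⟩
    have h1 : (σ : E →+* ℂ) g - 1 = ∑ k, algebraMap K ℂ (b.repr (g - 1) k) * σ (b k) := by
      have := congrArg σ (b.sum_repr (g - 1))
      simp only [map_sum, Algebra.smul_def, map_mul, AlgHom.commutes] at this
      rw [this]
      simp
    have h2 : ((m : ℝ) + 1) * ‖(σ : E →+* ℂ) g - 1‖ ≤ ∑ k, ‖σ (b k)‖ := by
      rw [h1]
      refine (mul_le_mul_of_nonneg_left (norm_sum_le _ _) (by positivity)).trans ?_
      rw [Finset.mul_sum]
      refine Finset.sum_le_sum fun k _ => ?_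
      rw [norm_mul, hc, ← mul_assoc]
      exact mul_le_of_le_one_left (norm_nonneg _) (hg k).le
    have h3 : ∑ k, ‖σ (b k)‖ ≤ M := Finset.single_le_sum
      (f := fun σ : E →ₐ[K] ℂ => ∑ k, ‖σ (b k)‖) (fun _ _ => by positivity) (Finset.mem_univ σ)
    rw [div_lt_iff₀ hε] at hm
    refine lt_of_mul_lt_mul_left (a := (m : ℝ) + 1) ?_ (by positivity)
    linarith

end Pool.Agent.MP_96eeb0_lc.H87
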