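import Pool.Agent.MP_96eeb0_lc.H87.Spec
import Pool.Agent.MP_96eeb0_lc.H32.Ext

/-! Strongly NIP fields are NIP, and their finite extensions have power subgroups of finite
index. -/

namespace Pool.Agent.MP_96eeb0_lc.H87

open Pool.Agent.MP_96eeb0_lc.H32 MvPolynomial

namespace SD3x

theorem nip {F : Type} [Field F] (h : SNIP F) : NIP F := by
  intro φ X hI
  obtain ⟨M, hM⟩ := sat_supp φ
  refine h (fun _ => φ) (fun k => !X k && decide (k < M))
    ((Set.finite_lt_nat M).subset fun k a => by simpa using (Bool.and_eq_true_iff.1 a).2) fun N => ?_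
  obtain ⟨a, b, hab⟩ := hI (N * N)
  refine ⟨fun n j => a (finProdFinEquiv (n, j)), fun η =>
    ⟨b (finProdFinEquiv '' {p | p.2 = η p.1}), fun n j => ?_⟩⟩
  refine ((hM _ _ fun k hk => ?_).trans (hab (finProdFinEquiv (n, j))
    (finProdFinEquiv '' {p | p.2 = η p.1}))).trans (finProdFinEquiv.injective.mem_set_image (a := (n, j)))
  cases hX : X k <;> simp [hk, hX]

theorem pat {F : Type} [Field F] (h : SNIP F) {e : ℕ → F} {A : ℕ → (ℕ → F) → Prop}
    (hA : ∀ r, Df e (A r)) (X : ℕ → Bool) (hX : {k | X k = true}.Finite) :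
    ¬∀ N : ℕ, ∃ a : Fin N → Fin N → ℕ → F, ∀ η : Fin N → Fin N, ∃ x : ℕ → F,
      ∀ n j : Fin N, A n (fun k => bif X k then x k else a n j k) ↔ j = η n := by
  choose φ hφ using hA
  intro hc
  refine h φ (fun k => if k % 2 = 0 then X (k / 2) else false)
    ((hX.image (2 * ·)).subset fun k a => ?_) fun N => ?_
  · by_cases hk : k % 2 = 0
    · exact ⟨k / 2, by simpa [hk] using a, by simp only; omega⟩
    · simp [hk] at a
  obtain ⟨a, ha⟩ := hc N
  refine ⟨fun n j => mix e (a n j), fun η => ?_⟩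
  obtain ⟨x, hx⟩ := ha η
  refine ⟨mix e x, fun n j => ?_⟩
  rw [← hx n j, hφ]
  refine iff_of_eq (congrArg _ (funext fun k => ?_))
  by_cases hk : k % 2 = 0 <;> simp [mix, hk]

theorem coord {K L : Type} [Field K] [Field L] [Algebra K L] {d : ℕ}
    (b : Module.Basis (Fin d) K L) : ∃ e : ℕ → K, ∀ φ : Fm,
      Df e fun w => Sat φ fun i => ∑ k : Fin d, w (Nat.pair i k) • b k := by
  let C : (Fin d × Fin d × Fin d) ⊕ Fin d → K :=
    Sum.elim (fun t => b.repr (b t.1 * b t.2.1) t.2.2) (fun k => b.repr 1 k)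
  let e : ℕ → K := fun n => ((Encodable.decode n).map C).getD 0
  have he : ∀ t, Pl e (fun _ => C t) := fun t => by
    have := Pl.par (e := e) (Encodable.encode t)
    simp only [e, Encodable.encodek, Option.map_some, Option.getD_some] at this
    exact this
  let T : (ℕ → K) → ℕ → L := fun w i => ∑ k : Fin d, w (Nat.pair i k) • b k
  have hP : ∀ (p : MvPolynomial ℕ ℤ) k, Pl e (fun w => b.repr (aeval (T w) p) k) := fun p => by
    induction p using MvPolynomial.induction_on with
    | C a =>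
      intro k
      have : ∀ w, b.repr (aeval (T w) (MvPolynomial.C a : MvPolynomial ℕ ℤ)) k
          = (a : K) * C (.inr k) := fun w => by
        have h1 : aeval (T w) (MvPolynomial.C a : MvPolynomial ℕ ℤ) = (a : K) • (1 : L) := by
          simp [Algebra.smul_def]
        rw [h1]
        simp [C]
      simp only [this]
      exact (Pl.int a).mul (he _)
    | add p q hp hq => intro k; simpa using (hp k).add (hq k)
    | mul_X p i hp =>
      intro k
      have : ∀ w, b.repr (aeval (T w) (p * X i)) k = ∑ s : Fin d, ∑ t : Fin d,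
          b.repr (aeval (T w) p) s * w (Nat.pair i t) * C (.inl (s, t, k)) := fun w => by
        rw [map_mul, aeval_X]
        conv_lhs => rw [← b.sum_repr (aeval (T w) p)]
        simp only [T, C, Finset.sum_mul_sum, smul_mul_smul_comm, map_sum, map_smul,
          Finsupp.finsetSum_apply, Finsupp.smul_apply, smul_eq_mul, Sum.elim_inl]
      simp only [this]
      exact Pl.sum _ fun s => Pl.sum _ fun t => ((hp s).mul (Pl.var _)).mul (he _)
  refine ⟨e, fun φ => ?_⟩
  show Df e fun w => Sat φ (T w)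
  · induction φ with
    | eq p =>
      refine (Df.forall_fin Finset.univ fun k => Df.eq0 (hP p k)).congr fun w => ?_
      simp only [Sat, Finset.mem_univ, true_imp_iff]
      exact ⟨fun h k => by simp [h], fun h => b.ext_elem fun k => by simpa using h k⟩
    | not φ ih => exact ih.not
    | and φ ψ ih1 ih2 => exact ih1.and ih2
    | ex φ ih =>
      let σ : ℕ → ℕ := fun n => if n.unpair.1 = 0 then n.unpair.2
        else Nat.pair (n.unpair.1 - 1) n.unpair.2 + d
      refine ((ih.ren σ).exN d).congr fun w => ?_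
      have key : ∀ u, T (fun n => app d u w (σ n)) = cons (∑ k : Fin d, u k • b k) (T w) := by
        intro u
        funext i
        cases i with
        | zero => simp [T, σ, app]
        | succ i => simp [T, σ, app]
      simp only [key, Sat]
      refine ⟨fun ⟨a, ha⟩ => ⟨fun k => if h : k < d then b.repr a ⟨k, h⟩ else 0, ?_⟩,
        fun ⟨u, hu⟩ => ⟨_, hu⟩⟩
      simpa using ha

/-- Simultaneous choice of cosets of the power subgroups. -/
theorem cos {Γ : Type} [CommGroup Γ] (p : ℕ → ℕ) (hp : ∀ r r', r ≠ r' → (p r).Coprime (p r'))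
    (h : ∀ r, ¬(powMonoidHom (p r) : Γ →* Γ).range.FiniteIndex) (N : ℕ) :
    ∃ a : Fin N → Fin N → Γ, ∀ η : Fin N → Fin N, ∃ x : Γ, ∀ n j : Fin N,
      (∃ u, x = a n j * u ^ p n) ↔ j = η n := by
  have hi : ∀ r, Infinite (Γ ⧸ (powMonoidHom (p r) : Γ →* Γ).range) := fun r =>
    not_finite_iff_infinite.1 fun _ => h r Subgroup.finiteIndex_of_finite_quotient
  have he : ∀ r : Fin N, ∃ k, k ≡ 1 [MOD p r] ∧ ∀ r' : Fin N, r' ≠ r → k ≡ 0 [MOD p r'] := fun r =>
    let k := Nat.chineseRemainder (Nat.Coprime.prod_right (t := Finset.univ.erase r)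
      (s := fun r' : Fin N => p r') fun r' a => hp r r' fun e =>
        Finset.ne_of_mem_erase a (Fin.ext e).symm) 1 0
    ⟨k.1, k.2.1, fun r' a => k.2.2.of_dvd
      (Finset.dvd_prod_of_mem (fun r' : Fin N => p r') (Finset.mem_erase.2 ⟨a, Finset.mem_univ _⟩))⟩
  choose k k1 k0 using he
  choose a ha using fun (r j : Fin N) => QuotientGroup.mk'_surjective
    (powMonoidHom (p r) : Γ →* Γ).range (Infinite.natEmbedding _ j)
  refine ⟨a, fun η => ⟨∏ r, a r (η r) ^ k r, fun n j => ?_⟩⟩
  have z : ∀ y : Γ, QuotientGroup.mk' (powMonoidHom (p n) : Γ →* Γ).range y ^ p n = 1 :=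
    fun y => (QuotientGroup.eq_one_iff (y ^ p n)).2 ⟨y, rfl⟩
  have c : QuotientGroup.mk' (powMonoidHom (p n) : Γ →* Γ).range (∏ r, a r (η r) ^ k r) =
      Infinite.natEmbedding _ (η n) := by
    rw [map_prod, Finset.prod_eq_single n (fun r _ e => by
      rw [map_pow, pow_eq_pow_of_modEq (k0 r n e.symm) (z _), pow_zero]) (by simp), map_pow,
      pow_eq_pow_of_modEq (k1 n) (z _), pow_one, ha]
  rw [Fin.ext_iff,
    ← (Infinite.natEmbedding (Γ ⧸ (powMonoidHom (p n) : Γ →* Γ).range)).injective.eq_iff, ← c,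
    ← ha, QuotientGroup.mk'_eq_mk']
  exact ⟨fun ⟨u, e⟩ => ⟨_, ⟨u, rfl⟩, e.symm⟩, fun ⟨_, ⟨u, rfl⟩, e⟩ => ⟨u, e.symm⟩⟩

end SD3x

open SD3x

theorem sd3 : SD3 := by
  refine fun K _ h => ⟨nip h, fun E _ _ _ => by_contra fun hc => ?_⟩
  let b := Module.finBasis K E
  obtain ⟨e, he⟩ := coord b
  refine pat h (fun r => he (.ex (.eq (X 1 - X 2 * X 0 ^ Nat.nth Nat.Prime r))))
    (fun m => decide (m.unpair.1 = 0 ∧ m.unpair.2 < Module.finrank K E))
    (((Set.finite_lt_nat (Module.finrank K E)).image (Nat.pair 0)).subset fun m a => ?_) fun N => ?_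
  · have a' := of_decide_eq_true a
    exact ⟨_, a'.2, by rw [← a'.1, Nat.pair_unpair]⟩
  obtain ⟨a, ha⟩ := cos (Γ := Eˣ) (Nat.nth Nat.Prime) (fun r r' e =>
    (Nat.coprime_primes (Nat.prime_nth_prime r) (Nat.prime_nth_prime r')).2
      ((Nat.nth_injective Nat.infinite_setOfPred_prime).ne e))
    (fun r k => hc ⟨_, (Nat.prime_nth_prime r).two_le, k⟩) N
  let R : E → ℕ → K := fun v m =>
    if h : m.unpair.2 < Module.finrank K E then b.repr v ⟨_, h⟩ else 0
  refine ⟨fun n j => R (a n j), fun η => ?_⟩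
  obtain ⟨x, hx⟩ := ha η
  refine ⟨R x, fun n j => Iff.trans ?_ (hx n j)⟩
  simp only [Sat, map_sub, map_mul, map_pow, aeval_X, sub_eq_zero, cons]
  simp only [R, Nat.unpair_pair, Fin.is_lt, and_self, decide_true, cond_true, dite_true, Fin.eta,
    Module.Basis.sum_repr, one_ne_zero, false_and, decide_false, cond_false]
  refine ⟨fun ⟨u, k⟩ => ?_, fun ⟨u, k⟩ => ⟨u, by simp [k]⟩⟩
  have u0 : u ≠ 0 := fun z => x.ne_zero (by simp [k, z, (Nat.prime_nth_prime n).ne_zero])
  exact ⟨Units.mk0 u u0, Units.ext (by simpa using k)⟩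

end Pool.Agent.MP_96eeb0_lc.H87
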