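import Pool.Agent.MP_96eeb0_lc.H87.Spec
import Pool.Agent.MP_96eeb0_lc.H32.Main

/-! A finite extension of degree at least three which contains a square root of `-1`. -/

namespace Pool.Agent.MP_96eeb0_lc.H87

open Pool.Agent.MP_96eeb0_lc.H32 Complex IntermediateField Polynomial

theorem sd4 : SD4 := by
  intro K hK
  obtain ⟨α, hα, halg⟩ := exists_alg hK
  have h1 : IsIntegral K (α : ℂ) := halg.isIntegral.algebraMap
  have h2 : IsIntegral K I := ⟨X ^ 2 + C 1, monic_X_pow_add_C _ two_ne_zero, by simp⟩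
  let E := adjoin K {(α : ℂ), I}
  have fin : FiniteDimensional K E :=
    finiteDimensional_adjoin (by rintro _ (rfl | rfl) <;> assumption)
  have a1 : (α : ℂ) ∈ E := subset_adjoin _ _ (by simp)
  have a2 : I ∈ E := subset_adjoin _ _ (by simp)
  refine ⟨E, fin, ⟨⟨I, a2⟩, Subtype.ext (by simp)⟩, ?_⟩
  have li : LinearIndependent K ![(1 : E), ⟨α, a1⟩, ⟨I, a2⟩] := by
    refine Fintype.linearIndependent_iff.2 fun g hg => ?_
    have e : ((g 0 : ℝ) : ℂ) * 1 + ((g 1 : ℝ) : ℂ) * α + ((g 2 : ℝ) : ℂ) * I = 0 := by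
      rw [Fin.sum_univ_three] at hg
      exact congrArg Subtype.val hg
    have e2 : (g 2 : ℝ) = 0 := by simpa using congrArg im e
    have e0 : (g 0 : ℝ) + g 1 * α = 0 := by simpa using congrArg re e
    have e1 : (g 1 : ℝ) = 0 := by_contra fun h => hα <| by
      rw [show α = -(g 0 : ℝ) / g 1 by field_simp; linarith]
      exact K.div_mem (K.neg_mem (g 0).2) (g 1).2
    rw [e1, zero_mul, add_zero] at e0
    intro i
    fin_cases i
    exacts [Subtype.ext e0, Subtype.ext e1, Subtype.ext e2]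
  exact Nat.lt_of_succ_le (by simpa using li.fintype_card_le_finrank)

end Pool.Agent.MP_96eeb0_lc.H87
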