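import Pool.Agent.MP_96eeb0_lc.H87.SA
import Pool.Agent.MP_96eeb0_lc.H87.SB
import Pool.Agent.MP_96eeb0_lc.H87.SC
import Pool.Agent.MP_96eeb0_lc.H87.SD1
import Pool.Agent.MP_96eeb0_lc.H87.SD2
import Pool.Agent.MP_96eeb0_lc.H87.SD3
import Pool.Agent.MP_96eeb0_lc.H87.SD4

/-! Assembly. -/

namespace Pool.Agent.MP_96eeb0_lc.H87

open Pool.Agent.MP_96eeb0_lc.H32

theorem power_index (K : Subfield ℝ) (hK : NIP K) (E : Type) [Field E] [Algebra K E]
    [FiniteDimensional K E] (hi : IsSquare (-1 : E)) (hd : 2 < Module.finrank K E) (n : ℕ)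
    (hn : 2 ≤ n) : ¬ (powMonoidHom n : Eˣ →* Eˣ).range.FiniteIndex := by
  classical
  obtain ⟨Box, hB⟩ := sd2 K hK E
  obtain ⟨i, hi⟩ := hi
  have : CharZero E := charZero_of_injective_algebraMap (algebraMap K E).injective
  have hc : Fintype.card (E →ₐ[K] ℂ) = Module.finrank K E := AlgHom.card K E ℂ
  have hm : ∀ σ : E →ₐ[K] ℂ, σ ∈ (Finset.univ : Finset (E →ₐ[K] ℂ)) →
      σ i ∈ ({Complex.I, -Complex.I} : Finset ℂ) := fun σ _ => by
    have h1 : σ i * σ i = Complex.I * Complex.I := by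
      rw [← map_mul, ← hi, map_neg, map_one, Complex.I_mul_I]
    simpa using mul_self_eq_mul_self_iff.1 h1
  obtain ⟨σ₁, -, σ₂, -, hne, he⟩ := Finset.exists_ne_map_eq_of_card_lt_of_maps_to
    (lt_of_le_of_lt Finset.card_le_two (by rwa [Finset.card_univ, hc])) hm
  exact sd1 sa (sc sb) E _ _ Box hB i σ₁ σ₂ hi.symm
    (fun e => hne (AlgHom.coe_ringHom_injective e)) he n hn

theorem snip_real_closed (K : Subfield ℝ) (hK : SNIP K) : IsRealClosed K := by
  by_contra h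
  obtain ⟨E, hE, hi, hd⟩ := sd4 K h
  obtain ⟨n, hn, hf⟩ := (sd3 K hK).2 E
  exact power_index K (sd3 K hK).1 E hi hd n hn hf

end Pool.Agent.MP_96eeb0_lc.H87
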