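import Pool.Agent.MP_96eeb0_lc.H87.Spec2
import Pool.Agent.MP_96eeb0_lc.H87.SB

/-! The ring step for large fields. -/

namespace Pool.Agent.MP_96eeb0_lc.H87

open Filter Topology Finset

namespace TBx

variable {R : Type} [CommRing R] {V : Set R} {t : R} {n : ℕ} {A : Finset R} {s₁ s₂ : R →+* ℂ}

/-- the element lies in the ball of level `k` -/
def Q (V : Set R) (t : R) (k : ℕ) (x : R) : Prop := ∃ v ∈ V, x = t ^ k * v

theorem not_mem {m : Ideal R} (hm : m.IsMaximal) {x : R} (hx : IsUnit x) : x ∉ m :=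
  fun e => hm.ne_top (m.eq_top_of_isUnit_mem e hx)

variable (h : SR V t n A s₁ s₂)
include h

theorem pw {x : R} {k l : ℕ} (hl : k ≤ l) (hx : t ^ k * x ∈ V) : t ^ l * x ∈ V := by
  induction hl with
  | refl => exact hx
  | step _ ih => simpa [pow_succ', mul_assoc] using h.sub _ ih _ h.zero

theorem mono {k l : ℕ} {x : R} (hl : l ≤ k) : Q V t k x → Q V t l x := fun ⟨v, hv, e⟩ =>
  ⟨_, pw h (k - l).zero_le (x := v) (by simpa using hv), by
    rw [e, ← mul_assoc, ← pow_add, Nat.add_sub_cancel' hl]⟩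

theorem qsub {k : ℕ} {x y : R} : Q V t (k + 1) x → Q V t (k + 1) y → Q V t k (x - y) :=
  fun ⟨v, hv, e⟩ ⟨w, hw, e'⟩ => ⟨_, h.sub v hv w hw, by rw [e, e']; ring⟩

theorem qzero (k : ℕ) : Q V t k 0 := ⟨0, h.zero, by simp⟩

theorem usub {x : R} (hx : Q V t 2 x) : IsUnit (1 - x) := by
  obtain ⟨v, hv, e⟩ := qsub h (qzero h 2) hx
  rw [sub_eq_add_neg, ← zero_sub x, e, pow_one]
  exact h.inv v hv

/-- the ideal of infinitesimal elements -/
def I : Ideal R where
  carrier := {x | ∀ k, Q V t k x}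
  add_mem' ha hb k := by simpa using qsub h (ha (k + 1)) (qsub h (qzero h _) (hb (k + 2)))
  zero_mem' := qzero h
  smul_mem' r x hx k := by
    obtain ⟨j, hj⟩ := h.abs r
    obtain ⟨v, hv, rfl⟩ := hx (k + j + 1)
    exact ⟨_, h.mul _ hj v hv, by rw [smul_eq_mul]; ring⟩

theorem jac {x : R} (hx : x ∈ I h) {m : Ideal R} (hm : m.IsMaximal) : x ∈ m := by
  by_contra e
  obtain ⟨y, c, hc, e⟩ := hm.exists_inv e
  exact not_mem hm (usub h ((I h).mul_mem_left y hx 2)) (eq_sub_of_add_eq' e ▸ hc)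

theorem ker {s : R →+* ℂ} {C : ℝ} (hC : ∀ v ∈ V, ‖s v‖ ≤ C) (ht : ‖s t‖ < 1) {x : R}
    (hx : x ∈ I h) : s x = 0 := by
  refine norm_le_zero_iff.1 (ge_of_tendsto' (by
    simpa using (tendsto_pow_atTop_nhds_zero_of_lt_one (norm_nonneg _) ht).mul_const C) fun k => ?_)
  obtain ⟨v, hv, rfl⟩ := hx k
  rw [map_mul, map_pow, norm_mul, norm_pow]
  exact mul_le_mul_of_nonneg_left (hC v hv) (by positivity)

theorem nrm {g : R} {m : ℕ} (hg : t ^ m * g ∉ V) :
    ∃ j, m < j ∧ t ^ j * g ∈ V ∧ ¬∃ v ∈ V, t ^ j * g = t * v := by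
  classical
  have h1 := Nat.find_spec (h.abs g)
  have h2 : m < Nat.find (h.abs g) := not_le.1 fun e => hg (pw h e h1)
  refine ⟨_, h2, h1, fun ⟨v, hv, e⟩ => ?_⟩
  obtain ⟨j, hj⟩ := Nat.exists_eq_add_one_of_ne_zero (Nat.ne_zero_of_lt h2)
  rw [hj, pow_succ', mul_assoc, h.unit.mul_right_inj] at e
  exact Nat.find_min (h.abs g) (hj ▸ j.lt_succ_self) (e ▸ hv)

theorem fin : Finite (MaximalSpectrum R) := by
  classical
  by_contra h0
  rw [not_finite_iff_infinite] at h0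
  obtain ⟨N, hN⟩ := h.vc
  let m : Fin (N + 1) → MaximalSpectrum R := fun i => Infinite.natEmbedding _ i
  choose c hc using fun i => Ideal.exists_forall_sub_mem_ideal (I := fun j => (m j).1)
    (fun _ _ a => MaximalSpectrum.isCoprime_of_ne fun e =>
      a (Fin.ext ((Infinite.natEmbedding _).2 e))) fun j => if j = i then 0 else 1
  have c1 : ∀ i j, j ≠ i → c i ∉ (m j).1 := fun i j e a => not_mem (m j).2 isUnit_one <| by
    simpa [e] using (m j).1.sub_mem a (hc i j)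
  choose k hk using fun F : Finset (Fin N) => h.abs (∏ j ∈ F, c j.succ)
  refine hN ⟨fun S => t ^ univ.sup k * ∏ j ∈ univ.filter S, c j.succ, 1, fun i => c i.succ,
    fun i (e : c _ = 0) => c1 i.succ 0 i.succ_ne_zero.symm (e ▸ zero_mem _), fun S i =>
      ⟨fun ⟨v, _, e⟩ => ?_,
      fun a => ⟨_, pw h (le_sup (mem_univ _)) (hk ((univ.filter S).erase i)), ?_⟩⟩⟩
  · have p := (m i.succ).2.isPrime
    have a : c i.succ * v ∈ (m i.succ).1 := Ideal.mul_mem_right _ _ (by simpa using hc i.succ i.succ)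
    simp only [Pi.one_apply, mul_one] at e
    rw [← e] at a
    obtain ⟨j, hj, b⟩ := Ideal.IsPrime.prod_mem_iff.1
      ((p.mem_or_mem a).resolve_left (not_mem (m _).2 (h.unit.pow _)))
    exact by_contra fun g => c1 j.succ i.succ
      (fun e => g ((Fin.succ_inj.1 e).symm ▸ (mem_filter.1 hj).2)) b
  · simp only [← mul_prod_erase _ _ (mem_filter.2 ⟨mem_univ i, a⟩), Pi.one_apply]
    ring

theorem red {x : R} (hx : x ^ 2 ∈ I h) : x ∈ I h := fun m => by
  obtain ⟨u, hu⟩ := (h.unit.pow m).exists_right_inv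
  obtain ⟨k, hk⟩ := h.red
  have h1 : ∀ a, (a * (u * x)) ^ 2 ∈ I h := fun a => by
    rw [← mul_assoc, mul_pow]
    exact (I h).mul_mem_left _ hx
  refine ⟨u * x, hk _ (by simpa [Q] using h1 1 k) fun a _ => ?_, by rw [← mul_assoc, hu, one_mul]⟩
  have h2 := usub h (h1 a 2)
  rw [← one_pow 2, sq_sub_sq] at h2
  obtain ⟨w, hw⟩ := ((isUnit_of_mul_isUnit_left h2).pow n).exists_right_inv
  obtain ⟨v, hv, e⟩ := (I h).mul_mem_left (-w)
    ((I h).mem_of_dvd (sq_dvd_add_pow_sub_sub (a * (u * x)) 1 n) (h1 a)) k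
  refine ⟨v, hv, ?_⟩
  rw [← e]
  simp only [one_pow]
  linear_combination ((1 + a * (u * x)) ^ n - (1 + n * (a * (u * x)))) * hw

theorem orth : ∃ N : ℕ, ∀ F : Finset R, F.card = N → (∀ a ∈ F, a ∉ I h) →
    ¬∀ a ∈ F, ∀ b ∈ F, a ≠ b → a * b ∈ I h := by
  classical
  obtain ⟨N, hN⟩ := h.vc
  refine ⟨N, fun F hF h1 h2 => ?_⟩
  let f : Fin N → R := fun i => (F.equivFinOfCardEq hF).symm i
  have f1 : ∀ i, f i ∈ F := fun i => Subtype.property _
  have f2 : ∀ (s : Finset (Fin N)) i, i ∉ s → (∑ j ∈ s, f j) * f i ∈ I h := fun s i hi => by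
    rw [sum_mul]
    exact sum_mem fun j hj => h2 _ (f1 j) _ (f1 i) fun e =>
      hi ((Equiv.injective _ (Subtype.ext e) : j = i) ▸ hj)
  choose k hk using fun i => not_forall.1 fun e : ∀ k, Q V t k (f i ^ 2) => h1 _ (f1 i) (red h e)
  obtain ⟨u, hu⟩ := (h.unit.pow (univ.sup k + 1)).exists_right_inv
  refine hN ⟨fun S => u * ∑ j ∈ univ.filter fun j => ¬S j, f j, f, 1,
    fun _ => s₁.domain_nontrivial.1.elim fun a ⟨b, e⟩ (g : (1 : R) = 0) =>
      e (by rw [← mul_one a, ← mul_one b, g, mul_zero, mul_zero]),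
    fun S i => ⟨fun ⟨v, hv, e⟩ => by_contra fun g => ?_, fun a => ?_⟩⟩
  · refine hk i (mono h (le_sup (mem_univ i)) ?_)
    simp only [← add_sum_erase (univ.filter fun j => ¬S j) _ (mem_filter.2 ⟨mem_univ i, g⟩),
      Pi.one_apply] at e
    have := qsub h ⟨v, hv, rfl⟩
      (f2 ((univ.filter fun j => ¬S j).erase i) i (notMem_erase _ _) (univ.sup k + 1))
    rwa [show t ^ (univ.sup k + 1) * v - _ = f i ^ 2 by
      linear_combination (-t ^ (univ.sup k + 1)) * e + (f i +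
        ∑ j ∈ (univ.filter fun j => ¬S j).erase i, f j) * f i * hu] at this
  · simpa [Q, mul_assoc] using (I h).mul_mem_left u (f2 (univ.filter fun j => ¬S j) i
      fun e => (mem_filter.1 e).2 a) 0

theorem zd {y : R} (hy : ¬IsUnit y) : ∃ z, z ∉ I h ∧ z * y ∈ I h := by
  have := fin h
  have h1 : ∀ k, ∃ z ∈ V, (¬∃ v ∈ V, z = t * v) ∧ Q V t k (z * y) := fun k => by
    obtain ⟨l, g, hg⟩ : ∃ l g, (y + t ^ (k + 1 + 3 * l + 2)) * g = 1 := by
      by_contra e
      choose m hm a using fun l => exists_max_ideal_of_mem_nonunits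
        (a := y + t ^ (k + 1 + 3 * l + 2)) fun u => e ⟨l, u.exists_right_inv⟩
      obtain ⟨i, j, ij, b⟩ := Set.Finite.exists_lt_map_eq_of_forall_mem
        (f := fun l => (⟨m l, hm l⟩ : MaximalSpectrum R)) (fun _ => Set.mem_univ _) Set.finite_univ
      obtain ⟨d, rfl⟩ := Nat.exists_eq_add_of_lt ij
      refine not_mem (hm i) ((h.unit.pow (k + 1 + 3 * i + 2)).mul (usub h (mono h
        (by omega : 2 ≤ 3 * d + 2) ⟨t, h.one, pow_succ _ _⟩))) ?_
      have := (m i).sub_mem (a i) ((MaximalSpectrum.mk.inj b).symm ▸ a (i + d + 1))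
      rwa [show _ - _ = t ^ (k + 1 + 3 * i + 2) * (1 - t ^ (3 * d + 2 + 1)) by ring] at this
    obtain ⟨j, hj, a, b⟩ := nrm h (g := g) (m := k + 1 + 3 * l) fun e => hy <| by
      have := (IsUnit.of_mul_eq_one _ hg).mul (usub h ⟨_, e, rfl⟩)
      rwa [show (y + _) * _ = y by linear_combination (-t ^ (k + 1 + 3 * l + 2)) * hg] at this
    obtain ⟨j, rfl⟩ := Nat.exists_eq_add_of_lt hj
    refine ⟨_, a, b, ?_⟩
    have := qsub h (k := k) (mono h (by omega) ⟨t, h.one, pow_succ t (k + 1 + 3 * l + j)⟩)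
      (mono h (k := k + 1 + 3 * l + 2) (by omega) ⟨_, a, rfl⟩)
    rwa [show _ - _ = t ^ (k + 1 + 3 * l + j + 1) * g * y by
      linear_combination (-t ^ (k + 1 + 3 * l + j + 1)) * hg] at this
  choose z a b c using h1
  obtain ⟨z', -, d, e, -⟩ := h.sat z a y
  exact ⟨z', fun g => d b (by simpa [Q] using g 1), e c⟩

theorem rad {f : R} (hf : ∀ m : Ideal R, m.IsMaximal → f ∈ m) : f ∈ I h := by
  classical
  by_contra f0
  obtain ⟨N, hN⟩ := orth h
  have key : ∀ r : ℕ, ∃ F : Finset R, F.card = r + 1 ∧ f ∈ F ∧ (∀ a ∈ F, a ∉ I h) ∧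
      ∀ a ∈ F, ∀ b ∈ F, a ≠ b → a * b ∈ I h := fun r => by
    induction r with
    | zero => exact ⟨{f}, rfl, by simp, by simpa, by simp⟩
    | succ r ih =>
      obtain ⟨F, c, m, h1, h2⟩ := ih
      have h3 : ∀ a ∈ F, a * ∑ b ∈ F.erase a, b ∈ I h := fun a ha => by
        rw [mul_sum]
        exact sum_mem fun b hb => h2 a ha b (mem_of_mem_erase hb) (ne_of_mem_erase hb).symm
      obtain ⟨z, z0, hz⟩ := zd h (y := ∑ b ∈ F, b) fun u => f0 <| by
        refine ((I h).mul_unit_mem_iff_mem (by_contra fun e => ?_)).1 (h3 f m)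
        obtain ⟨M, hM, e⟩ := exists_max_ideal_of_mem_nonunits e
        exact not_mem hM u (add_sum_erase F (fun b => b) m ▸ M.add_mem (hf M hM) e)
      have h4 : ∀ a ∈ F, z * a ∈ I h := fun a ha => red h <| by
        rw [← add_sum_erase F (fun b => b) ha] at hz
        have := (I h).sub_mem ((I h).mul_mem_left (z * a) hz) ((I h).mul_mem_left (z * z) (h3 a ha))
        rwa [show _ - _ = (z * a) ^ 2 by ring] at this
      refine ⟨insert z F, by rw [card_insert_of_notMem fun e => z0 (red h (sq z ▸ h4 z e)), c],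
        mem_insert_of_mem m, forall_mem_insert _ _ _ |>.2 ⟨z0, h1⟩, fun a ha b hb e => ?_⟩
      rcases mem_insert.1 ha with rfl | ha' <;> rcases mem_insert.1 hb with rfl | hb'
      exacts [absurd rfl e, h4 b hb', mul_comm a b ▸ h4 a ha', h2 a ha' b hb' e]
  obtain ⟨F, c, -, h1, h2⟩ := key N
  obtain ⟨G, s, c'⟩ := exists_subset_card_eq (s := F) (n := N) (by omega)
  exact hN G c' (fun a ha => h1 a (s ha)) fun a ha b hb => h2 a (s ha) b (s hb)

theorem mx {s : R →+* ℂ} (hs : ∀ x ∈ I h, s x = 0) : (RingHom.ker s).IsMaximal := by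
  have := fin h
  have := Fintype.ofFinite (MaximalSpectrum R)
  have hp := RingHom.ker_isPrime s
  obtain ⟨i, -, hi⟩ := (hp.inf_le' (s := univ) (f := fun i : MaximalSpectrum R => i.1)).1
    fun y hy => hs y (rad h fun m hm =>
      inf_le (f := fun i : MaximalSpectrum R => i.1) (mem_univ ⟨m, hm⟩) hy)
  exact i.2.eq_of_le hp.ne_top hi ▸ i.2

omit h in
theorem dense {s : R →+* ℂ} (hs : (RingHom.ker s).IsMaximal) {i : R} (hi : i * i = -1) :
    DenseRange s := by
  have h1 : ∀ q : ℚ, (q : ℂ) ∈ s.range := fun q => by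
    obtain ⟨y, c, hc, e⟩ := hs.exists_inv (x := q.den) (by simp)
    have := congrArg s e
    rw [map_add, map_mul, (RingHom.mem_ker).1 hc, add_zero, map_natCast, map_one] at this
    exact ⟨q.num * y, by
      rw [map_mul, map_intCast, eq_one_div_of_mul_eq_one_left this, mul_one_div, Rat.cast_def]⟩
  have h2 : Complex.I ∈ s.range := by
    have : s i * s i = Complex.I * Complex.I := by rw [← map_mul, hi]; simp
    rcases mul_self_eq_mul_self_iff.1 this with e | e
    exacts [⟨i, e⟩, ⟨-i, by rw [map_neg, e, neg_neg]⟩]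
  refine Dense.mono ?_ ((Function.Surjective.denseRange (f := fun p : ℝ × ℝ =>
    (p.1 : ℂ) + p.2 * Complex.I) fun z => ⟨(z.re, z.im), z.re_add_im⟩).comp
      (Rat.denseRange_cast.prodMap Rat.denseRange_cast) (by fun_prop))
  rintro _ ⟨p, rfl⟩
  simpa using add_mem (h1 p.1) (mul_mem (h1 p.2) h2)

end TBx

open TBx in
theorem tb : TB := fun R _ V t n A s₁ s₂ h w i ζ w2 w1 hi hζ => by
  have := fin h
  obtain ⟨C, hC⟩ := h.bd
  have m1 := mx h fun _ => ker h (fun v a => (hC v a).1) h.lt₁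
  have m2 := mx h fun _ => ker h (fun v a => (hC v a).2) h.lt₂
  obtain ⟨y, y2, hy⟩ := SBx.crt _ m2 0
  rw [sub_zero] at y2
  have all : ∀ x, s₂ x = 0 → (∀ m : Ideal R, m.IsMaximal → y - 1 ∈ m → x ∈ m) → x ∈ I h :=
    fun x a b => rad h fun m hm => (eq_or_ne m _).elim (fun e => e ▸ a) fun e => b m hm (hy m hm e)
  obtain ⟨η, η0, hη⟩ : ∃ η : ℝ, 0 < η ∧ ∀ z ∈ V, z * y ∈ I h → ‖s₂ z‖ < η →
      ∃ v ∈ V, z = t * v := by
    by_contra! e
    choose z a b c d using fun k : ℕ => e (1 / (k + 1)) Nat.one_div_pos_of_nat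
    obtain ⟨z', -, p, q, r⟩ := h.sat z a y
    refine p (fun k ⟨v, hv, g⟩ => d k v hv g) ?_
    simpa [Q] using all z' (r 0 (squeeze_zero_norm (fun k => (c k).le)
      tendsto_one_div_add_atTop_nhds_zero_nat)) (fun m hm g => (hm.isPrime.mem_or_mem
        (jac h (q fun k => b k k) hm)).resolve_right fun g' => not_mem hm isUnit_one <| by
          simpa using m.sub_mem g' g) 1
  have s2 : ∀ g, s₂ ((1 - y) * g) = s₂ g := fun g => by
    rw [map_mul, map_sub, RingHom.mem_ker.1 y2, map_one, sub_zero, one_mul]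
  have K : ∀ g, ‖s₂ g‖ < η → (1 - y) * g ∈ V := fun g hg => by_contra fun e => by
    obtain ⟨j, -, a, b⟩ := nrm h (m := 0) (by simpa using e)
    refine b (hη _ a (all _ (by rw [map_mul, RingHom.mem_ker.1 y2, mul_zero]) fun m _ c => ?_) ?_)
    · exact m.mul_mem_right _ (m.mul_mem_left _ (m.mul_mem_right _ (neg_sub y 1 ▸ m.neg_mem c)))
    · rw [map_mul, s2, map_pow, norm_mul, norm_pow]
      exact (mul_le_of_le_one_left (norm_nonneg _)
        (pow_le_one₀ (norm_nonneg _) h.lt₂.le)).trans_lt hg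
  have y1 : y - 1 ∈ RingHom.ker s₁ := hy _ m1 fun e => by
    obtain ⟨j, a, b⟩ := (((tendsto_pow_atTop_nhds_zero_of_lt_one (norm_nonneg _) w2).eventually
      (gt_mem_nhds η0)).and ((tendsto_pow_atTop_atTop_of_one_lt w1).eventually_gt_atTop C)).exists
    have := (hC _ (K (w ^ j) (by rwa [map_pow, norm_pow]))).1
    rw [map_mul, map_sub, RingHom.mem_ker.1 (e.ge y2), map_one, sub_zero, one_mul, map_pow,
      norm_pow] at this
    exact b.not_ge this
  obtain ⟨j, hj⟩ := ((show Tendsto (fun j : ℕ => ‖s₂ t‖ ^ j * ‖ζ‖) atTop (𝓝 0) by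
    simpa using (tendsto_pow_atTop_nhds_zero_of_lt_one (norm_nonneg _) h.lt₂).mul_const
      ‖ζ‖).eventually (gt_mem_nhds η0)).exists
  obtain ⟨x, a, b⟩ := mem_closure_iff_seq_limit.1 (Dense.open_subset_closure_inter (dense m2 hi)
    Metric.isOpen_ball (show s₂ t ^ j * ζ ∈ Metric.ball 0 η by simpa using hj))
  choose g hg using fun k => (a k).2
  obtain ⟨z, -, -, -, r⟩ := h.sat (fun k => (1 - y) * g k)
    (fun k => K _ (hg k ▸ mem_ball_zero_iff.1 (a k).1)) 0
  obtain ⟨u, hu⟩ := (h.unit.pow j).exists_left_inv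
  have e : s₂ (1 + (1 - y) * (u * z - 1)) = ζ := by
    rw [map_add, s2, map_sub, map_one, add_sub_cancel, map_mul, r _ (by simpa only [s2, hg] using b),
      ← map_pow, ← mul_assoc, ← map_mul, hu, map_one, one_mul]
  refine ⟨_, all _ (by rw [map_sub, map_pow, e, hζ, map_one, sub_self]) fun m _ c =>
    m.mem_of_dvd (sub_one_dvd_pow_sub_one _ n) ?_, ?_, e⟩
  · rw [add_sub_cancel_left]
    exact m.mul_mem_right _ (neg_sub y 1 ▸ m.neg_mem c)
  · rw [map_add, map_mul, ← neg_sub, map_neg, RingHom.mem_ker.1 y1]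
    simp

end Pool.Agent.MP_96eeb0_lc.H87
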