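import Pool.Agent.MP_96eeb0_lc.H87.Spec2
import Pool.Agent.MP_96eeb0_lc.H87.SC

/-! Approximation at two complex places for a ring norm, through an ultrapower. -/

namespace Pool.Agent.MP_96eeb0_lc.H87

open Filter Topology SCx

namespace TCx

section General

variable {F : Type} [Field F] {W : Set F} {τ : F}

theorem tmul (h : Nm W τ) {x : F} (hx : x ∈ W) : τ * x ∈ W := by
  have := h.sub x hx 0 h.zero
  rwa [sub_zero] at this

theorem tpow (h : Nm W τ) (k : ℕ) {x : F} (hx : x ∈ W) : τ ^ k * x ∈ W := by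
  induction k with
  | zero => rwa [pow_zero, one_mul]
  | succ k ih =>
    have := tmul h ih
    rwa [← mul_assoc, ← pow_succ'] at this

/-- the ring of elements absorbed by the unit ball -/
def RV (h : Nm W τ) : Subring F where
  carrier := {x | ∃ k : ℕ, τ ^ k * x ∈ W}
  mul_mem' := fun {x y} ⟨k, hk⟩ ⟨l, hl⟩ => ⟨k + l + 1, by
    have := h.mul _ hk _ hl
    convert this using 1
    ring⟩
  one_mem' := ⟨1, by simpa using h.one⟩
  add_mem' := fun {x y} ⟨k, hk⟩ ⟨l, hl⟩ => ⟨k + l + 2, by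
    have h1 := tpow h k (h.sub _ h.zero _ hl)
    have h2 := h.sub _ (tpow h (l + 1) hk) _ h1
    convert h2 using 1
    ring⟩
  zero_mem' := ⟨0, by simpa using h.zero⟩
  neg_mem' := fun {x} ⟨k, hk⟩ => ⟨k + 1, by
    have := h.sub _ h.zero _ hk
    convert this using 1
    ring⟩

theorem mem_RV (h : Nm W τ) {x : F} (k : ℕ) (hx : τ ^ k * x ∈ W) : x ∈ RV h := ⟨k, hx⟩

theorem mem0 (h : Nm W τ) {x : F} (hx : x ∈ W) : x ∈ RV h := ⟨0, by simpa using hx⟩

theorem mem1 (h : Nm W τ) {x : F} (hx : τ * x ∈ W) : x ∈ RV h := ⟨1, by simpa using hx⟩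

/-- the unit ball inside the ring -/
def VR (h : Nm W τ) : Set (RV h) := {x | (x : F) ∈ W}

/-- the uniformizer inside the ring -/
def tR (h : Nm W τ) : RV h := ⟨τ, mem0 h h.one⟩

theorem ex_iff (h : Nm W τ) (x c : RV h) :
    (∃ v ∈ VR h, x = c * v) ↔ ∃ v ∈ W, (x : F) = c * v :=
  ⟨fun ⟨v, h1, h2⟩ => ⟨v, h1, congrArg Subtype.val h2⟩,
    fun ⟨v, h1, h2⟩ => ⟨⟨v, mem0 h h1⟩, h1, Subtype.ext h2⟩⟩

theorem unit_t (h : Nm W τ) : IsUnit (tR h) := by
  refine IsUnit.of_mul_eq_one ⟨τ⁻¹, mem_RV h 2 ?_⟩ (Subtype.ext (mul_inv_cancel₀ h.ne))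
  have : τ ^ 2 * τ⁻¹ = τ := by
    have := h.ne
    field_simp
  rw [this]
  exact h.one

theorem unit_inv (h : Nm W τ) {x : RV h} (hx : x ∈ VR h) : IsUnit (1 + tR h * x) := by
  obtain ⟨h1, h2⟩ := h.inv x hx
  have h3 : (1 + τ * x)⁻¹ ∈ RV h := by
    have := (RV h).add_mem (mem0 h h2) (RV h).one_mem
    rwa [sub_add_cancel] at this
  exact IsUnit.of_mul_eq_one ⟨_, h3⟩ (Subtype.ext (mul_inv_cancel₀ h1))

end General

variable {E : Type} [Field E] {V : Set E} {t : E}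

/-- the nonstandard extension of a set -/
def St (V : Set E) : Set (FF E) := {x | x.LiftPred (· ∈ V)}

omit [Field E] in
theorem mem_St {f : ℕ → E} : (f : FF E) ∈ St V ↔ ∀ᶠ m in UU, f m ∈ V := Germ.liftPred_coe

omit [Field E] in
theorem cst_St {x : E} (hx : x ∈ V) : cst x ∈ St V := mem_St.2 (Eventually.of_forall fun _ => hx)

theorem cst_mul (x y : E) : cst (x * y) = cst x * cst y := rfl

theorem cst_pow (x : E) (k : ℕ) : cst x ^ k = ((fun _ : ℕ => x ^ k : ℕ → E) : FF E) := by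
  unfold cst
  rw [← Germ.coe_pow]
  rfl

theorem nm_St (h : Nm V t) : Nm (St V) (cst t) where
  ne := fun e => by
    obtain ⟨m, hm⟩ := (Germ.coe_eq.1 (e.trans Germ.coe_zero.symm)).exists
    exact h.ne hm
  zero := cst_St h.zero
  one := cst_St h.one
  sub := fun x hx y hy => by
    induction x using Germ.inductionOn with | h f => ?_
    induction y using Germ.inductionOn with | h g => ?_
    unfold cst
    rw [← Germ.coe_sub, ← Germ.coe_mul, mem_St]
    filter_upwards [mem_St.1 hx, mem_St.1 hy] with m a b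
    exact h.sub _ a _ b
  mul := fun x hx y hy => by
    induction x using Germ.inductionOn with | h f => ?_
    induction y using Germ.inductionOn with | h g => ?_
    unfold cst
    rw [← Germ.coe_mul, ← Germ.coe_mul, mem_St]
    filter_upwards [mem_St.1 hx, mem_St.1 hy] with m a b
    exact h.mul _ a _ b
  inv := fun x hx => by
    induction x using Germ.inductionOn with | h f => ?_
    unfold cst
    rw [← Germ.coe_mul, ← Germ.coe_one, ← Germ.coe_add, ← Germ.coe_inv, ← Germ.coe_sub, mem_St]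
    refine ⟨fun e => ?_, ?_⟩
    · obtain ⟨m, a, b⟩ := ((mem_St.1 hx).and (Germ.coe_eq.1 (e.trans Germ.coe_zero.symm))).exists
      exact (h.inv _ a).1 b
    · filter_upwards [mem_St.1 hx] with m a
      exact (h.inv _ a).2

theorem ex_St {f c : ℕ → E} :
    (∃ v ∈ St V, (f : FF E) = (c : FF E) * v) ↔ ∀ᶠ m in UU, ∃ v ∈ V, f m = c m * v := by
  classical
  constructor
  · rintro ⟨v, h1, h2⟩
    induction v using Germ.inductionOn with | h g => ?_
    rw [← Germ.coe_mul, Germ.coe_eq] at h2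
    filter_upwards [mem_St.1 h1, h2] with m a b
    exact ⟨g m, a, b⟩
  · intro h
    have h1 : ∀ m, ∃ v : E, (∃ v ∈ V, f m = c m * v) → v ∈ V ∧ f m = c m * v := fun m => by
      by_cases hm : ∃ v ∈ V, f m = c m * v
      · obtain ⟨v, hv⟩ := hm
        exact ⟨v, fun _ => hv⟩
      · exact ⟨0, fun h => absurd h hm⟩
    choose g hg using h1
    refine ⟨(g : FF E), mem_St.2 (h.mono fun m a => (hg m a).1), ?_⟩
    rw [← Germ.coe_mul, Germ.coe_eq]
    exact h.mono fun m a => (hg m a).2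

variable {σ : E →+* ℂ}

theorem lim_ex' (h : Nm V t) {C : ℝ} (hC : ∀ v ∈ V, ‖σ v‖ ≤ C) {x : FF E}
    (hx : x ∈ RV (nm_St h)) : ∃ l, Lim σ x l := by
  induction x using Germ.inductionOn with | h f => ?_
  obtain ⟨k, hk⟩ := hx
  rw [cst_pow, ← Germ.coe_mul, mem_St] at hk
  have h7 : 0 < ‖σ (t ^ k)‖ := norm_pos_iff.2 ((map_ne_zero σ).2 (pow_ne_zero k h.ne))
  obtain ⟨l, -, hl⟩ := (isCompact_closedBall (0 : ℂ) (C / ‖σ (t ^ k)‖)).ultrafilter_le_nhds
    ((hyperfilter ℕ).map fun n => σ (f n)) (by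
      rw [le_principal_iff, Ultrafilter.coe_map, mem_map]
      filter_upwards [hk] with n a
      have b := hC _ a
      rw [Pi.mul_apply, map_mul, norm_mul, mul_comm] at b
      exact mem_closedBall_zero_iff.2 ((le_div_iff₀ h7).2 b))
  exact ⟨l, lim_coe.2 hl⟩

theorem hom' (h : Nm V t) {C : ℝ} (hC : ∀ v ∈ V, ‖σ v‖ ≤ C) :
    ∃ φ : RV (nm_St h) →+* ℂ, ∀ r : RV (nm_St h), Lim σ r (φ r) := by
  choose φ hφ using fun r : RV (nm_St h) => lim_ex' h hC r.2
  have h0 : Lim σ (0 : FF E) 0 := by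
    have := lim_cst (σ := σ) 0
    rwa [map_zero] at this
  refine ⟨⟨⟨⟨φ, lim_unique (hφ 1) lim_one⟩, fun x y => lim_unique (hφ _) (lim_mul (hφ x) (hφ y))⟩,
    lim_unique (hφ 0) h0, fun x y => lim_unique (hφ _) (lim_add (hφ x) (hφ y))⟩, hφ⟩

theorem lim_le {C : ℝ} (hC : ∀ v ∈ V, ‖σ v‖ ≤ C) {x : FF E} (hx : x ∈ St V) {l : ℂ}
    (hl : Lim σ x l) : ‖l‖ ≤ C := by
  induction x using Germ.inductionOn with | h f => ?_
  exact le_of_tendsto (lim_coe.1 hl).norm ((mem_St.1 hx).mono fun m a => hC _ a)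

omit [Field E] in
theorem rep (x : FF E) : ∃ f : ℕ → E, (f : FF E) = x := by
  induction x using Germ.inductionOn with | h f => exact ⟨f, rfl⟩

theorem vc (h : Nm V t) {N : ℕ}
    (hN : ¬ ∃ (x : (Fin N → Prop) → E) (a : Fin N → E), ∀ S i, x S * a i ∈ V ↔ S i) :
    ¬ ∃ (x : (Fin N → Prop) → RV (nm_St h)) (a c : Fin N → RV (nm_St h)), (∀ i, c i ≠ 0) ∧
      ∀ S i, (∃ v ∈ VR (nm_St h), x S * a i = c i * v) ↔ S i := by
  rintro ⟨x, a, c, hc, hx⟩
  choose f hf using fun S => rep (x S : FF E)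
  choose g hg using fun i => rep ((a i : FF E) / (c i : FF E))
  have h1 : ∀ S i, (∀ᶠ m in UU, f S m * g i m ∈ V) ↔ S i := fun S i => by
    have hc' : (c i : FF E) ≠ 0 := fun e => hc i (Subtype.ext e)
    rw [← hx S i, ex_iff]
    refine (mem_St (f := f S * g i)).symm.trans ?_
    rw [Germ.coe_mul, hf, hg]
    constructor
    · intro h2
      refine ⟨_, h2, ?_⟩
      show (x S : FF E) * a i = _
      field_simp
    · rintro ⟨v, h2, h3⟩
      have h4 : (x S : FF E) * a i = c i * v := h3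
      rw [← mul_div_assoc, h4, mul_div_cancel_left₀ _ hc']
      exact h2
  have h2 : ∀ᶠ m in UU, ∀ S i, f S m * g i m ∈ V ↔ S i := by
    refine eventually_all.2 fun S => eventually_all.2 fun i => ?_
    by_cases hS : S i
    · filter_upwards [(h1 S i).2 hS] with m a
      exact ⟨fun _ => hS, fun _ => a⟩
    · filter_upwards [Ultrafilter.eventually_not.2 fun e => hS ((h1 S i).1 e)] with m a
      exact ⟨fun b => absurd b a, fun b => absurd b hS⟩
  obtain ⟨m, hm⟩ := h2.exists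
  exact hN ⟨fun S => f S m, fun i => g i m, hm⟩

theorem sat (h : Nm V t) {φ : RV (nm_St h) →+* ℂ} (hφ : ∀ r : RV (nm_St h), Lim σ r (φ r))
    (z : ℕ → RV (nm_St h)) (hz : ∀ k, z k ∈ VR (nm_St h)) (y : RV (nm_St h)) :
    ∃ z' ∈ VR (nm_St h),
      ((∀ k, ¬ ∃ v ∈ VR (nm_St h), z k = tR (nm_St h) * v) →
        ¬ ∃ v ∈ VR (nm_St h), z' = tR (nm_St h) * v) ∧
      ((∀ k, ∃ v ∈ VR (nm_St h), z k * y = tR (nm_St h) ^ k * v) →
        ∀ k, ∃ v ∈ VR (nm_St h), z' * y = tR (nm_St h) ^ k * v) ∧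
      ∀ ξ : ℂ, Tendsto (fun k => φ (z k)) atTop (𝓝 ξ) → φ z' = ξ := by
  choose f hf using fun k => rep (z k : FF E)
  obtain ⟨g, hg⟩ := rep (y : FF E)
  have e1 : ∀ (u : RV (nm_St h)) (p : ℕ → E), (p : FF E) = u →
      ((∃ v ∈ VR (nm_St h), u = tR (nm_St h) * v) ↔ ∀ᶠ m in UU, ∃ v ∈ V, p m = t * v) := by
    intro u p hp
    rw [ex_iff, ← hp]
    exact ex_St (c := fun _ => t)
  have e2 : ∀ (u : RV (nm_St h)) (p : ℕ → E) (k : ℕ), (p : FF E) = u →
      ((∃ v ∈ VR (nm_St h), u * y = tR (nm_St h) ^ k * v) ↔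
        ∀ᶠ m in UU, ∃ v ∈ V, p m * g m = t ^ k * v) := by
    intro u p k hp
    rw [ex_iff]
    have a1 : ((u * y : RV (nm_St h)) : FF E) = ((p * g : ℕ → E) : FF E) := by
      rw [Germ.coe_mul, hp, hg]
      rfl
    have a2 : ((tR (nm_St h) ^ k : RV (nm_St h)) : FF E)
        = ((fun _ : ℕ => t ^ k : ℕ → E) : FF E) := cst_pow t k
    rw [a1, a2]
    exact ex_St
  obtain ⟨κ, hκ, hA⟩ := diag (fun k m => f k m ∈ V ∧
      ((¬ ∃ v ∈ VR (nm_St h), z k = tR (nm_St h) * v) → ¬ ∃ v ∈ V, f k m = t * v) ∧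
      ((∃ v ∈ VR (nm_St h), z k * y = tR (nm_St h) ^ k * v) →
        ∃ v ∈ V, f k m * g m = t ^ k * v) ∧
      dist (σ (f k m)) (φ (z k)) < 1 / ((k : ℝ) + 1)) fun k => by
    refine Eventually.and (mem_St.1 (by rw [hf]; exact hz k)) (Eventually.and ?_
      (Eventually.and ?_ ?_))
    · by_cases hk : ∃ v ∈ VR (nm_St h), z k = tR (nm_St h) * v
      · exact Eventually.of_forall fun m a => absurd hk a
      · filter_upwards [Ultrafilter.eventually_not.2 fun e => hk ((e1 _ _ (hf k)).2 e)] with m a _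
        exact a
    · by_cases hk : ∃ v ∈ VR (nm_St h), z k * y = tR (nm_St h) ^ k * v
      · filter_upwards [(e2 _ _ k (hf k)).1 hk] with m a _
        exact a
      · exact Eventually.of_forall fun m a => absurd a hk
    · have := hφ (z k)
      rw [← hf] at this
      exact Metric.tendsto_nhds.1 (lim_coe.1 this) _ Nat.one_div_pos_of_nat
  have hz' : ((fun m => f (κ m) m : ℕ → E) : FF E) ∈ St V := mem_St.2 (hA.mono fun m a => a.1)
  refine ⟨⟨_, mem0 _ hz'⟩, hz', fun h1 h2 => ?_, fun h1 k => ?_, fun ξ hξ => ?_⟩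
  · obtain ⟨m, a, b⟩ := (hA.and ((e1 _ (fun m => f (κ m) m) rfl).1 h2)).exists
    exact a.2.1 (h1 _) b
  · refine (e2 _ (fun m => f (κ m) m) k rfl).2 ?_
    filter_upwards [hA, hκ.eventually (eventually_ge_atTop k)] with m a b
    obtain ⟨v, h2, h3⟩ := a.2.2.1 (h1 _)
    refine ⟨t ^ (κ m - k) * v, tpow h _ h2, ?_⟩
    rw [h3, ← mul_assoc, ← pow_add, Nat.add_sub_cancel' b]
  · refine lim_unique (hφ _) (lim_coe.2 ?_)
    refine (hξ.comp hκ).congr_dist ?_
    refine squeeze_zero' (Eventually.of_forall fun _ => dist_nonneg)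
      (hA.mono fun m a => ?_) (tendsto_one_div_add_atTop_nhds_zero_nat.comp hκ)
    rw [dist_comm]
    exact a.2.2.2.le

end TCx

open TCx in
theorem tc (h : TB) : TC := by
  classical
  rintro E _ V t n A σ₁ σ₂ hN hA ⟨N, hvc⟩ ⟨k, hred⟩ ⟨C, hC⟩ ht₁ ht₂ w i ζ hw hi hw₂ hw₁ hii hζ
    U₁ hU₁ U₂ hU₂
  obtain ⟨φ₁, hφ₁⟩ := hom' hN fun v hv => (hC v hv).1
  obtain ⟨φ₂, hφ₂⟩ := hom' hN fun v hv => (hC v hv).2
  have hm : ∀ a : E, t * a ∈ V → cst a ∈ RV (nm_St hN) := fun a ha =>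
    mem1 _ (by rw [← cst_mul]; exact cst_St ha)
  have c₁ : ∀ (a : E) (ha : cst a ∈ RV (nm_St hN)), φ₁ ⟨cst a, ha⟩ = σ₁ a := fun a ha =>
    lim_unique (hφ₁ _) (lim_cst a)
  have c₂ : ∀ (a : E) (ha : cst a ∈ RV (nm_St hN)), φ₂ ⟨cst a, ha⟩ = σ₂ a := fun a ha =>
    lim_unique (hφ₂ _) (lim_cst a)
  have hSR : SR (VR (nm_St hN)) (tR (nm_St hN)) n
      (A.attach.image fun a => ⟨cst a.1, hm _ (hA _ a.2)⟩) φ₁ φ₂ :=
    { unit := unit_t _
      zero := (nm_St hN).zero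
      one := (nm_St hN).one
      sub := fun x hx y hy => (nm_St hN).sub _ hx _ hy
      mul := fun x hx y hy => (nm_St hN).mul _ hx _ hy
      inv := fun x hx => unit_inv _ hx
      abs := fun x => x.2
      vc := ⟨N, vc hN hvc⟩
      red := ⟨k, fun x h1 h2 => by
        obtain ⟨f, hf⟩ := rep (x : FF E)
        have a2 : ((tR (nm_St hN) ^ k : RV (nm_St hN)) : FF E)
            = ((fun _ : ℕ => t ^ k : ℕ → E) : FF E) := cst_pow t k
        have b1 : ∀ᶠ m in UU, ∃ v ∈ V, f m ^ 2 = t ^ k * v := by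
          rw [ex_iff, a2, SubmonoidClass.coe_pow, ← hf, ← Germ.coe_pow] at h1
          exact ex_St.1 h1
        have b2 : ∀ᶠ m in UU, ∀ a ∈ A, ∃ v ∈ V,
            1 + n * (a * f m) = (1 + a * f m) ^ n * (1 + t ^ k * v) := by
          refine (eventually_all_finset A).2 fun a ha => ?_
          obtain ⟨v, h3, h4⟩ := h2 _ (Finset.mem_image_of_mem _ (Finset.mem_attach A ⟨a, ha⟩))
          obtain ⟨g, hg⟩ := rep (v : FF E)
          have h5 : (1 : FF E) + n * (cst a * x) = (1 + cst a * x) ^ n * (1 + cst t ^ k * v) :=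
            congrArg Subtype.val h4
          have h6 : (g : FF E) ∈ St V := by
            rw [hg]
            exact h3
          rw [← hf, ← hg, cst_pow, ← Germ.natCast_def] at h5
          unfold cst at h5
          simp only [← Germ.coe_one, ← Germ.coe_mul, ← Germ.coe_add, ← Germ.coe_pow,
            Germ.coe_eq] at h5
          filter_upwards [mem_St.1 h6, h5] with m p q
          exact ⟨g m, p, q⟩
        show (x : FF E) ∈ St V
        rw [← hf, mem_St]
        filter_upwards [b1, b2] with m p q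
        exact hred _ p q⟩
      bd := ⟨C, fun v hv => ⟨lim_le (fun v hv => (hC v hv).1) hv (hφ₁ v),
        lim_le (fun v hv => (hC v hv).2) hv (hφ₂ v)⟩⟩
      lt₁ := by
        rw [show φ₁ (tR (nm_St hN)) = σ₁ t from c₁ t _]
        exact ht₁
      lt₂ := by
        rw [show φ₂ (tR (nm_St hN)) = σ₂ t from c₂ t _]
        exact ht₂
      sat := sat hN hφ₂ }
  obtain ⟨y, y1, y2, y3⟩ := h _ _ _ n _ φ₁ φ₂ hSR ⟨cst w, hm w hw⟩ ⟨cst i, hm i hi⟩ ζ
    (by rw [c₂]; exact hw₂) (by rw [c₁]; exact hw₁)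
    (Subtype.ext (by
      show cst i * cst i = -1
      rw [← cst_mul, hii, cst_neg_one])) hζ
  obtain ⟨g, hg⟩ := rep (y : FF E)
  have l1 := hφ₁ y
  have l2 := hφ₂ y
  rw [y2, ← hg] at l1
  rw [y3, ← hg] at l2
  have l3 := y1 1
  rw [pow_one, ex_iff] at l3
  have l4 : ((y ^ n - 1 : RV (nm_St hN)) : FF E) = ((g ^ n - 1 : ℕ → E) : FF E) := by
    rw [Germ.coe_sub, Germ.coe_pow, hg]
    rfl
  rw [l4] at l3
  obtain ⟨m, k1, k2, k3⟩ := ((ex_St (c := fun _ => t).1 l3).and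
    (((lim_coe.1 l1).eventually_mem hU₁).and ((lim_coe.1 l2).eventually_mem hU₂))).exists
  exact ⟨g m, k1, k2, k3⟩

end Pool.Agent.MP_96eeb0_lc.H87
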