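import Pool.Agent.MP_96eeb0_lc.H87.Spec2
import Pool.Agent.MP_96eeb0_lc.H87.SD1

/-! Two independent complex places leave a Kummer curve without points. -/

namespace Pool.Agent.MP_96eeb0_lc.H87

open Filter Topology SD1x

namespace TD1x

theorem pigeon {J : Type} [Fintype J] (x : J → ℂ) (T : ℕ) :
    ∃ k : Fin (Fintype.card J + 1), ∀ j, (T : ℝ) ≤ ‖x j + (2 * k * T : ℕ)‖ := by
  by_contra hk
  push Not at hk
  choose c hc using hk
  obtain ⟨k, l, ne, e⟩ := Fintype.exists_ne_map_eq_of_card_lt c (by simp)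
  have h := norm_sub_le (x (c k) + (2 * k * T : ℕ)) (x (c l) + (2 * l * T : ℕ))
  rw [show x (c k) + (2 * k * T : ℕ) - (x (c l) + (2 * l * T : ℕ)) =
    ((((k : ℕ) - (l : ℕ)) * (2 * T) : ℤ) : ℂ) by rw [e]; push_cast; ring, Complex.norm_intCast] at h
  have h2 : |((((k : ℕ) - (l : ℕ)) * (2 * T) : ℤ) : ℝ)| < 2 * T := by linarith [hc k, hc l]
  have h3 : |(((k : ℕ) - (l : ℕ)) * (2 * T) : ℤ)| < 2 * T := by exact_mod_cast h2
  have h4 : (1 : ℤ) ≤ |((k : ℕ) - (l : ℕ) : ℤ)| :=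
    Int.one_le_abs fun z => ne (Fin.ext (by omega))
  rw [abs_mul, abs_of_nonneg (show (0 : ℤ) ≤ 2 * T by positivity)] at h3
  nlinarith

variable {E J : Type} [Field E] (σ : J → E →+* ℂ) (n : ℕ)

/-- the classes of the global powers -/
def Fs : Set ((Eˣ × (J → ℂˣ)) ⧸ (gr σ n).range) :=
  (fun r : J → ℂˣ => QuotientGroup.mk (1, r)) '' {r | ∀ j, r j ∈ {z : ℂˣ | (z : ℂ) ^ n = 1}}

theorem Fs_fin [Finite J] (hn : 0 < n) : (Fs σ n).Finite :=
  (Set.Finite.pi' fun _ => ((Polynomial.nthRoots n (1 : ℂ)).finite_toSet.preimage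
    Units.val_injective.injOn).subset fun _ hz => (Polynomial.mem_nthRoots hn).2 hz).image _

theorem ch_mem (hn : 0 < n) {u : E} (hu : u ≠ 0) : ch σ n (u ^ n) ∈ Fs σ n := by
  have h0 : ∀ j, σ j u ≠ 0 := fun j => (map_ne_zero (σ j)).2 hu
  refine ⟨fun j => Units.mk0 (rt n (σ j (u ^ n))) (Complex.exp_ne_zero _) *
    (Units.mk0 (σ j u) (h0 j))⁻¹, fun j => ?_, ?_⟩
  · simp [mul_pow, rt_pow hn (pow_ne_zero n (h0 j)), h0 j]
  · rw [ch, dif_neg (pow_ne_zero n hu)]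
    refine QuotientGroup.eq.2 ⟨Units.mk0 u hu, Prod.ext (Units.ext ?_) (funext fun j => Units.ext ?_)⟩
    · simp [gr]
    · simp [gr]

/-- small points on the Kummer curves -/
theorem small [Fintype J] (hK : KL E n) (A : Finset E) {η : ℝ} (hη : 0 < η) :
    ∃ δ : E, (∀ j, ‖σ j δ‖ < η) ∧ δ ≠ 0 ∧ ∀ a ∈ A, ∃ u : E, u ≠ 0 ∧ u ^ n = 1 + a * δ := by
  classical
  obtain ⟨T, hT⟩ := exists_nat_gt η⁻¹
  obtain ⟨δ, d0, hδ⟩ := hK (Finset.image₂ (fun (k : Fin (Fintype.card J + 1)) a =>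
    ((2 * k * T : ℕ) : E) + a) Finset.univ (insert 0 A))
  obtain ⟨k, hk⟩ := pigeon (fun j => σ j δ⁻¹) T
  set b : E := ((2 * k * T : ℕ) : E) with hb
  obtain ⟨u', u0, hu'⟩ := hδ _ (Finset.mem_image₂_of_mem (Finset.mem_univ k)
    (Finset.mem_insert_self 0 A))
  rw [← hb, add_zero] at hu'
  have h1 : 1 + b * δ ≠ 0 := hu' ▸ pow_ne_zero n u0
  have h2 : δ / (1 + b * δ) = (δ⁻¹ + b)⁻¹ := by field_simp
  refine ⟨δ / (1 + b * δ), fun j => ?_, div_ne_zero d0 h1, fun a ha => ?_⟩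
  · rw [h2, map_inv₀, map_add, hb, map_natCast, norm_inv]
    exact inv_lt_of_inv_lt₀ hη (hT.trans_le (hk j))
  · obtain ⟨u, u1, hu⟩ := hδ _ (Finset.mem_image₂_of_mem (Finset.mem_univ k)
      (Finset.mem_insert_of_mem ha))
    refine ⟨u / u', div_ne_zero u1 u0, ?_⟩
    rw [div_pow, hu, hu', ← hb]
    field_simp
    ring

theorem pow_mem {V : Set E} {t : E} (h : Nm V t) {v : E} (hv : v ∈ V) (k : ℕ) : t ^ k * v ∈ V := by
  induction k with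
  | zero => rwa [pow_zero, one_mul]
  | succ k ih =>
    have := h.sub _ ih _ h.zero
    rwa [sub_zero, ← mul_assoc, ← pow_succ'] at this

theorem core (hA : TA) (hH : TH) (hC : TC) {Q : Type} [Fintype J] [CommGroup Q]
    (G G' : Set E) (χ : E → Q) (F : Set Q) (hn : 0 < n) (h1 : 1 ∈ G) (h1' : 1 ∈ G')
    (ho : ∀ g ∈ G, ∃ η > 0, ∀ g', (∀ j, ‖σ j g' - σ j g‖ < η) → g' ∈ G)
    (ho' : ∃ η > 0, ∀ g', (∀ j, ‖σ j g' - σ j 1‖ < η) → g' ∈ G')
    (hs : ∀ g ∈ G, ∀ j, ‖σ j g - 1‖ < 1) (hm : ∀ g ∈ G, ∀ h ∈ G, χ (g * h) = χ g * χ h)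
    (hf : F.Finite) (hF : ∀ u, u ≠ 0 → χ (u ^ n) ∈ F) (hk : ∀ u ∈ G', u ^ n ∈ G → χ (u ^ n) = 1)
    (hv : VCr {g | g ∈ G ∧ χ g = 1}) (hK : KL E n)
    (j₁ j₂ : J) (w i : E) (w2 : ‖σ j₂ w‖ < 1) (w1 : 1 < ‖σ j₁ w‖) (hi : i * i = -1) (ζ : ℂ)
    (hζ : ζ ^ n = 1) (U₁ U₂ : Set ℂ) (u1 : U₁ ∈ 𝓝 (1 : ℂ)) (u2 : U₂ ∈ 𝓝 ζ) :
    ∃ y : E, (y ^ n ∈ G ∧ χ (y ^ n) = 1) ∧ σ j₁ y ∈ U₁ ∧ σ j₂ y ∈ U₂ := by
  classical
  have : CharZero E := (σ j₁).charZero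
  let Φ : E →+* (J → ℂ) := RingHom.pi σ
  let _ : TopologicalSpace E := TopologicalSpace.induced Φ inferInstance
  have hΦ : IsInducing Φ := ⟨rfl⟩
  have ct : ∀ j, Continuous (σ j) := fun j => (continuous_apply j).comp hΦ.continuous
  have : ContinuousAdd E := hΦ.continuousAdd Φ
  have : ContinuousMul E := hΦ.continuousMul Φ
  have : ContinuousNeg E := hΦ.continuousNeg fun x => map_neg Φ x
  have : IsTopologicalRing E := {}
  have : ContinuousInv₀ E := ⟨fun x hx => hΦ.continuousAt_iff.2 (continuousAt_pi.2 fun j => by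
    have := (ct j).continuousAt.inv₀ ((map_ne_zero (σ j)).2 hx)
    simpa [Φ, Function.comp_def, Pi.inv_def] using this)⟩
  have : IsTopologicalDivisionRing E := {}
  have nh : ∀ (x : E) (W : Set E),
      W ∈ 𝓝 x ↔ ∃ η > 0, ∀ y, (∀ j, ‖σ j y - σ j x‖ < η) → y ∈ W := fun x W => by
    rw [nhds_induced, mem_comap]
    constructor
    · rintro ⟨t, ht, h⟩
      obtain ⟨η, h0, hb⟩ := Metric.mem_nhds_iff.1 ht
      exact ⟨η, h0, fun y hy => h (hb ((dist_pi_lt_iff h0).2 fun j => by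
        simpa [Φ, dist_eq_norm] using hy j))⟩
    · rintro ⟨η, h0, h⟩
      exact ⟨_, Metric.ball_mem_nhds _ h0, fun y hy => h y fun j => by
        simpa [Φ, dist_eq_norm] using (dist_pi_lt_iff h0).1 hy j⟩
  have nh0 : ∀ W ∈ 𝓝 (0 : E), ∃ η > 0, ∀ y, (∀ j, ‖σ j y‖ < η) → y ∈ W := fun W hW => by
    simpa using (nh 0 W).1 hW
  have bd : Bd {u : E | 1 + u ∈ G} := fun W hW => by
    obtain ⟨η, h0, h⟩ := nh0 W hW
    obtain ⟨m, hm⟩ := exists_nat_one_div_lt h0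
    refine ⟨((m + 1 : ℕ) : E)⁻¹, inv_ne_zero (Nat.cast_ne_zero.2 m.succ_ne_zero),
      fun u hu => h _ fun j => lt_of_le_of_lt ?_ hm⟩
    rw [map_mul, map_inv₀, map_natCast, norm_mul, norm_inv, Complex.norm_natCast, Nat.cast_succ,
      one_div]
    exact mul_le_of_le_one_right (by positivity) (by simpa using (hs _ hu j).le)
  have op : IsOpen G := isOpen_iff_mem_nhds.2 fun g hg => (nh _ _).2 (ho g hg)
  have g0 : 0 ∉ G := fun h => by simpa using hs 0 h j₁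
  obtain ⟨A, V, hV, bV, hT⟩ := hA E Q G χ op h1 g0 hm bd (hH E Q G χ F op h1 g0 hm hf
    fun A W hW => by
      obtain ⟨η, h0, h⟩ := nh0 W hW
      obtain ⟨δ, d1, d2, d3⟩ := small σ n hK A h0
      refine ⟨δ, h δ d1, d2, fun a ha => ?_⟩
      obtain ⟨u, a1, a2⟩ := d3 a ha
      exact a2 ▸ hF u a1) hv
  have W1 : {y : E | ∀ j, ‖σ j y‖ < 1} ∈ 𝓝 (0 : E) :=
    (nh _ _).2 ⟨1, one_pos, fun y hy j => by simpa using hy j⟩
  obtain ⟨s, s0, hs'⟩ := bV _ W1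
  have bC : ∀ v ∈ V, ∀ j, ‖σ j v‖ ≤ ‖σ j s‖⁻¹ := fun v hv j => by
    have h := (hs' v hv j).le
    rw [map_mul, norm_mul] at h
    rwa [← one_div, le_div_iff₀' (norm_pos_iff.2 ((map_ne_zero (σ j)).2 s0))]
  obtain ⟨t, t1, hN, t2, t3⟩ := hT (insert w (insert i (A.image (· / (n : E))))) _ W1
  have n0 : (n : E) ≠ 0 := Nat.cast_ne_zero.2 hn.ne'
  obtain ⟨y, ⟨v, v1, v2⟩, h⟩ := hC E V t n (A.image (· / (n : E))) (σ j₁) (σ j₂) hN
    (fun a ha => t2 a (by simp only [Finset.mem_insert, ha, or_true]))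
    ((hv A.card).imp fun N hN ⟨x, a, h⟩ => hN ⟨x, fun k l => A.equivFin.symm l * a k,
      fun _ _ => 1, fun S k => Iff.trans (by
        rw [hV]
        refine ⟨fun z b hb => ?_, fun z l => ?_⟩
        · have := z (A.equivFin ⟨b, hb⟩)
          beta_reduce at this
          rwa [Equiv.symm_apply_apply, add_comm, mul_assoc, mul_comm (a k)] at this
        · have := z _ (A.equivFin.symm l).2
          rwa [add_comm, mul_comm (x S), ← mul_assoc] at this) (h S k)⟩)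
    (by
      have e1 : ∀ᶠ x in 𝓝 (0 : E), ∀ a ∈ A,
          1 + a / n * x ∈ G' ∧ (1 + a / n * x) ^ n ∈ G ∧ 1 + a * x ∈ G := by
        refine (eventually_all_finset A).2 fun a _ => Eventually.and ?_ (Eventually.and ?_ ?_)
        · exact (by fun_prop : ContinuousAt (fun x : E => 1 + a / n * x) 0).eventually_mem
            (by simpa using (nh _ _).2 ho')
        · exact (by fun_prop : ContinuousAt (fun x : E => (1 + a / n * x) ^ n) 0).eventually_mem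
            (by simpa using op.mem_nhds h1)
        · exact (by fun_prop : ContinuousAt (fun x : E => 1 + a * x) 0).eventually_mem
            (by simpa using op.mem_nhds h1)
      obtain ⟨ρ, r0, hρ⟩ := nh0 _ e1
      have e2 : ∀ᶠ k : ℕ in atTop, ∀ j, ‖σ j t‖ ^ (k + 1) * ‖σ j s‖⁻¹ < ρ ^ 2 := by
        refine eventually_all.2 fun j => ?_
        have := (((tendsto_pow_atTop_nhds_zero_of_lt_one (norm_nonneg _) (t1 j)).comp
          (tendsto_add_atTop_nat 1)).mul_const ‖σ j s‖⁻¹)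
        rw [zero_mul] at this
        exact this.eventually_lt_const (by positivity)
      obtain ⟨k, hk'⟩ := e2.exists
      refine ⟨k + 1, fun x ⟨v, v1, v2⟩ hx => (hV x).2 fun a ha => ?_⟩
      obtain ⟨a1, a2, a3⟩ := hρ x (fun j => by
        refine lt_of_pow_lt_pow_left₀ 2 r0.le (lt_of_le_of_lt ?_ (hk' j))
        rw [← norm_pow, ← map_pow, v2, map_mul, map_pow, norm_mul, norm_pow]
        exact mul_le_mul_of_nonneg_left (bC v v1 j) (by positivity)) a ha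
      obtain ⟨v', b1, b2⟩ := hx _ (Finset.mem_image_of_mem _ ha)
      obtain ⟨b3, b4⟩ := t3 _ (pow_mem hN b1 k)
      rw [← mul_assoc, ← pow_succ'] at b3 b4
      refine ⟨a3, ?_⟩
      rw [← mul_assoc, mul_div_cancel₀ _ n0] at b2
      rw [b2, hm _ a2 _ b3, hk _ a1 a2, b4, one_mul])
    ⟨max ‖σ j₁ s‖⁻¹ ‖σ j₂ s‖⁻¹, fun v hv =>
      ⟨le_max_of_le_left (bC v hv _), le_max_of_le_right (bC v hv _)⟩⟩
    (t1 j₁) (t1 j₂) w i ζ (t2 w (by simp)) (t2 i (by simp)) w2 w1 hi hζ U₁ u1 U₂ u2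
  exact ⟨y, by rw [sub_eq_iff_eq_add'.1 v2]; exact t3 v v1, h⟩

end TD1x

open TD1x

theorem td1 : TD1 := fun hA hH hC E J _ _ σ Box hB i j₁ j₂ hi hne hσ n hn hK => by
  have n0 : 0 < n := by omega
  obtain ⟨ε₁, e1, s1⟩ := Metric.eventually_nhds_iff.1 (rt_near n0)
  obtain ⟨m', hm'⟩ := hB.small ε₁ e1
  obtain ⟨η, h0, hη⟩ := hB.opn m' 1 (hB.one m')
  obtain ⟨ε₂, e2, s2⟩ := Metric.eventually_nhds_iff.1
    ((rt_one n).eventually (Metric.ball_mem_nhds 1 h0))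
  obtain ⟨m, hm⟩ := hB.small (min ε₂ 1) (lt_min e2 one_pos)
  have hs : ∀ g ∈ Box m, ∀ j, ‖σ j g - 1‖ < 1 := fun g hg j => (hm g hg j).trans_le (min_le_right _ _)
  have g0 : ∀ g ∈ Box m, g ≠ 0 := fun g hg e => by simpa [e] using hs g hg j₁
  have key : ∀ g ∈ Box m, ch σ n g = 1 ↔ ∃ u ∈ Box m', u ^ n = g := fun g hg => by
    rw [ch_one σ n n0 (g0 g hg)]
    constructor
    · rintro ⟨u, h1, h2⟩
      refine ⟨u, hη u fun j => ?_, h1⟩
      rw [h2, map_one, ← dist_eq_norm]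
      exact s2 (by rw [dist_eq_norm]; exact (hm g hg j).trans_le (min_le_left _ _))
    · rintro ⟨u, h1, rfl⟩
      exact ⟨u, rfl, fun j => by rw [map_pow, s1 (by rw [dist_eq_norm]; exact hm' u h1 j)]⟩
  obtain ⟨α, hα⟩ := DFunLike.ne_iff.1 hne
  have hD : 0 < ‖σ j₁ α - σ j₂ α‖ := norm_pos_iff.2 (sub_ne_zero.2 hα)
  have hι : σ j₂ i * σ j₂ i = -1 := by rw [← map_mul, hi, map_neg, map_one]
  obtain ⟨a, b, hab⟩ := dense hι (σ j₂ α) (show 0 < ‖σ j₁ α - σ j₂ α‖ / 3 by positivity)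
  obtain ⟨ρ, r1, r2⟩ := exists_rat_btwn
    (show ‖σ j₁ α - σ j₂ α‖ / 3 < 2 * (‖σ j₁ α - σ j₂ α‖ / 3) by linarith)
  have r0 : (0 : ℝ) < ρ := by linarith
  have : CharZero E := (σ j₁).charZero
  have nw : ∀ j, σ j i = σ j₂ i →
      ‖σ j ((α - (a + b * i)) / ρ)‖ = ‖σ j α - (a + b * σ j₂ i)‖ / ρ := fun j hj => by
    rw [map_div₀, map_sub, map_add, map_mul, map_ratCast, map_ratCast, map_ratCast, hj, norm_div,
      Complex.norm_ratCast, abs_of_pos r0]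
  obtain ⟨ζ, hζ, u2⟩ := rt_far hn
  have hD' : {g | g ∈ Box m ∧ ch σ n g = 1} = {g | g ∈ Box m ∧ ∃ u ∈ Box m', u ^ n = g} :=
    Set.ext fun g => and_congr_right (key g)
  obtain ⟨y, ⟨y1, y2⟩, y3, y4⟩ := core σ n hA hH hC (Box m) (Box m') (ch σ n) (Fs σ n) n0
    (hB.one m) (hB.one m') (hB.opn m) ⟨η, h0, hη⟩ hs
    (fun g hg h hh => ch_mul σ n (g0 g hg) (g0 h hh) (hs g hg) (hs h hh)) (Fs_fin σ n n0)
    (fun u hu => ch_mem σ n n0 hu) (fun u h1 h2 => (key _ h2).2 ⟨u, h1, rfl⟩)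
    (hD' ▸ hB.vcr m m' n) hK j₁ j₂ _ i ((nw j₂ rfl).trans_lt ((div_lt_one r0).2 (hab.trans r1)))
    (((one_lt_div r0).2 (by
      linarith [norm_sub_le_norm_sub_add_norm_sub (σ j₁ α) (a + b * σ j₂ i) (σ j₂ α),
        norm_sub_rev (σ j₂ α) (a + b * σ j₂ i)])).trans_eq (nw j₁ hσ).symm) hi ζ hζ
    _ _ (rt_near n0) u2
  obtain ⟨u, -, hu⟩ := (ch_one σ n n0 (g0 _ y1)).1 y2
  have e : ∀ j, σ j u = rt n (σ j y ^ n) := fun j => by simpa using hu j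
  have : u = y := (σ j₁).injective ((e j₁).trans y3)
  exact y4 ((e j₂).symm.trans (by rw [this]))

end Pool.Agent.MP_96eeb0_lc.H87
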