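import Pool.Agent.MP_96eeb0_lc.H87.Spec2
import Pool.Agent.MP_96eeb0_lc.H87.SD2

/-! Coordinate boxes with the stronger VC property. -/

namespace Pool.Agent.MP_96eeb0_lc.H87

open Pool.Agent.MP_96eeb0_lc.H32 Module

namespace TD2x

open SD2x

section
variable {K E : Type} [Field K] [Field E] [Algebra K E] {d : ℕ} (b : Basis (Fin d) K E)

/-- the vector number `j` after the first one -/
noncomputable def Tp (j : ℕ) (w : ℕ → K) : E := ∑ k : Fin d, w (d + Nat.pair j k) • b k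

theorem Tp_app (j : ℕ) (a : ℕ → K) (y : ℕ → E) :
    Tp b j (app d a fun n => R b (y n.unpair.1) n.unpair.2) = y j := by simp [Tp, app, R]

theorem cp_Tp (e : ℕ → K) (j : ℕ) : CP b e (Tp b j) := fun k => by
  have : ∀ w, b.repr (Tp b j w) k = w (d + Nat.pair j k) := fun w => by
    simp [Tp, Finsupp.single_apply]
  simpa only [this] using Pl.var (d + Nat.pair j k)

theorem df_of {e : ℕ → K} {D : Set E} (h : Df e fun w => T b 0 w ∈ D) {f : (ℕ → K) → E}
    (hf : CP b e f) : Df e fun w => f w ∈ D :=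
  (h.comp (f := fun i w => R b (f w) i) fun i => by
    by_cases hi : i < d
    · simpa only [R, dif_pos hi] using hf ⟨i, hi⟩
    · simpa only [R, dif_neg hi] using Pl.zero).congr fun w => by rw [T_R]

theorem vcr_of (hK : NIP K) {e : ℕ → K} {D : Set E} (hm : ∀ s t, CP b e fun _ => b s * b t)
    (h : Df e fun w => T b 0 w ∈ D) : VCr D := by
  intro r
  obtain ⟨n, hn⟩ := (Df.forall_fin (Finset.univ : Finset (Fin r)) fun l => df_of b h
    ((CP.mul hm (cp_Tp b e (2 * l)) (CP.vec 0)).add (cp_Tp b e (2 * l + 1)))).nip hK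
    fun k => decide (d ≤ k)
  refine ⟨n, fun ⟨x, μ, β, hx⟩ => ?_⟩
  obtain ⟨y, h1, h2⟩ : ∃ y : Fin n → ℕ → E, (∀ i (l : Fin r), y i (2 * l) = μ i l) ∧
      ∀ i (l : Fin r), y i (2 * l + 1) = β i l :=
    ⟨fun i j => if h : j / 2 < r then (if j % 2 = 0 then μ i ⟨j / 2, h⟩ else β i ⟨j / 2, h⟩) else 0,
      fun i l => by simp, fun i l => by simp [show (2 * l.1 + 1) / 2 = l by omega]⟩
  refine hn ⟨fun i k => R b (y i (k - d).unpair.1) (k - d).unpair.2, fun S => R b (x S),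
    fun i S => ?_⟩
  have e1 : (fun k => bif decide (d ≤ k) then R b (y i (k - d).unpair.1) (k - d).unpair.2
      else R b (x S) k) = app d (R b (x S)) fun n => R b (y i n.unpair.1) n.unpair.2 := by
    funext k
    by_cases hk : k < d
    · simp [app, hk, hk.not_ge]
    · simp [app, hk, not_lt.1 hk]
  simp only [e1, Tp_app, T_app0, T_R, h1, h2, Finset.mem_univ, true_imp_iff]
  exact hx S i

end

variable {K : Subfield ℝ} {E : Type} [Field E] [Algebra K E] {d : ℕ} (b : Basis (Fin d) K E)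

theorem vcr_Bx (hK : NIP K) (m m' n : ℕ) : VCr {g | g ∈ Bx b m ∧ ∃ u ∈ Bx b m', u ^ n = g} := by
  obtain ⟨a, ha⟩ := ordDf_of K hK
  obtain ⟨e, he, h1, hm⟩ := params b a
  have ho := ha e he
  have h2 := ((df_Bx b ho h1 (CP.vec 0) m').and ((CP.pow h1 hm (CP.vec 0) n).eq
    (CP.vec (d + 0)))).exN d
  refine vcr_of b hK hm (((df_Bx b ho h1 (CP.vec 0) m).and h2).congr fun w => ?_)
  simp only [T_app, T_app0, Set.mem_ofPred_eq]
  exact and_congr_right' ⟨fun ⟨u, hu⟩ => ⟨R b u, by rwa [T_R]⟩, fun ⟨u, hu⟩ => ⟨_, hu⟩⟩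

end TD2x

open SD2x TD2x in
theorem td2 : TD2 := by
  intro K hK E _ _ _
  classical
  let b0 := Module.finBasis K E
  let b := b0.traceDual
  have hc : ∀ c : K, ‖algebraMap K ℂ c‖ = |(c : ℝ)| := fun c => Complex.norm_real c
  refine ⟨Bx b, ⟨fun m k => by simp, fun m g hg => ?_, fun ε hε => ?_, vc_Bx b hK⟩, vcr_Bx b hK⟩
  · let U : Set ((E →ₐ[K] ℂ) → ℂ) :=
      {z | ∀ k, ((m : ℝ) + 1) * ‖∑ σ, (z σ - 1) * σ (b0 k)‖ < 1}
    have hU : IsOpen U := by
      simp only [U, Set.ofPred_forall]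
      exact isOpen_iInter_of_finite fun k => isOpen_lt (by fun_prop) continuous_const
    have hm : ∀ x : E, (fun σ : E →ₐ[K] ℂ => σ x) ∈ U ↔ x ∈ Bx b m := fun x => by
      refine forall_congr' fun k => ?_
      rw [← hc, Basis.traceDual_repr_apply, Algebra.traceForm_apply, trace_eq_sum_embeddings]
      simp
    obtain ⟨η, hη, h⟩ := Metric.isOpen_iff.1 hU _ ((hm g).2 hg)
    refine ⟨η, hη, fun g' h' => (hm g').1 (h ?_)⟩
    rw [Metric.mem_ball, dist_pi_lt_iff hη]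
    exact fun σ => by rw [dist_eq_norm]; exact h' σ
  · let M : ℝ := ∑ σ : E →ₐ[K] ℂ, ∑ k, ‖σ (b k)‖
    obtain ⟨m, hm⟩ := exists_nat_gt (M / ε)
    refine ⟨m, fun g hg σ => ?_⟩
    have h1 : (σ : E →+* ℂ) g - 1 = ∑ k, algebraMap K ℂ (b.repr (g - 1) k) * σ (b k) := by
      have := congrArg σ (b.sum_repr (g - 1))
      simp only [map_sum, Algebra.smul_def, map_mul, AlgHom.commutes] at this
      rw [this]
      simp
    have h2 : ((m : ℝ) + 1) * ‖(σ : E →+* ℂ) g - 1‖ ≤ ∑ k, ‖σ (b k)‖ := by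
      rw [h1]
      refine (mul_le_mul_of_nonneg_left (norm_sum_le _ _) (by positivity)).trans ?_
      rw [Finset.mul_sum]
      refine Finset.sum_le_sum fun k _ => ?_
      rw [norm_mul, hc, ← mul_assoc]
      exact mul_le_of_le_one_left (norm_nonneg _) (hg k).le
    have h3 : ∑ k, ‖σ (b k)‖ ≤ M := Finset.single_le_sum
      (f := fun σ : E →ₐ[K] ℂ => ∑ k, ‖σ (b k)‖) (fun _ _ => by positivity) (Finset.mem_univ σ)
    rw [div_lt_iff₀ hε] at hm
    refine lt_of_mul_lt_mul_left (a := (m : ℝ) + 1) ?_ (by positivity)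
    linarith

end Pool.Agent.MP_96eeb0_lc.H87
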