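import Pool.Agent.MP_96eeb0_lc.H87.Spec

/-! The filter attached to a local subgroup: basic properties. -/

namespace Pool.Agent.MP_96eeb0_lc.H87.SAx

open Filter Topology

variable {E : Type} [Field E] [TopologicalSpace E] {Q : Type} [CommGroup Q]

structure Ctx (G : Set E) (χ : E → Q) : Prop where
  opn : IsOpen G
  one : 1 ∈ G
  zero : 0 ∉ G
  mul : ∀ g ∈ G, ∀ h ∈ G, χ (g * h) = χ g * χ h
  bd : Bd {u : E | 1 + u ∈ G}

def II (G : Set E) (χ : E → Q) : Filter E := ⨅ a : E, 𝓟 {δ | 1 + a * δ ∈ G ∧ χ (1 + a * δ) = 1}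

variable {G : Set E} {χ : E → Q}

omit [TopologicalSpace E] in
theorem tend_iff {α : Type} {l : Filter α} {f : α → E} :
    Tendsto f l (II G χ) ↔ ∀ a, ∀ᶠ x in l, 1 + a * f x ∈ G ∧ χ (1 + a * f x) = 1 := by
  simp only [II, tendsto_iInf, tendsto_principal, Set.mem_ofPred_eq]

omit [TopologicalSpace E] in
theorem ev (a : E) : ∀ᶠ δ in II G χ, 1 + a * δ ∈ G ∧ χ (1 + a * δ) = 1 :=
  (tend_iff (f := id)).1 tendsto_id a

omit [TopologicalSpace E] in
theorem mem_II {W : Set E} (hW : W ∈ II G χ) :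
    ∃ A : Finset E, ∀ δ, (∀ a ∈ A, 1 + a * δ ∈ G ∧ χ (1 + a * δ) = 1) → δ ∈ W := by
  obtain ⟨t, ht, h⟩ := (hasBasis_iInf_principal_finite _).mem_iff.1 hW
  refine ⟨ht.toFinset, fun δ hδ => h ?_⟩
  simp only [Set.mem_iInter, Set.mem_ofPred_eq]
  exact fun a ha => hδ a (ht.mem_toFinset.2 ha)

omit [TopologicalSpace E] in
theorem smul (c : E) : Tendsto (fun x => c * x) (II G χ) (II G χ) :=
  tend_iff.2 fun a => by simpa only [mul_assoc] using ev (a * c)

theorem Ctx.chi_one (h : Ctx G χ) : χ 1 = 1 := by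
  have := h.mul 1 h.one 1 h.one
  rw [mul_one] at this
  exact left_eq_mul.1 this

theorem Ctx.pure_le (h : Ctx G χ) : pure 0 ≤ II G χ := by
  have : Tendsto id (pure 0) (II G χ) := tend_iff.2 fun a => by simp [h.one, h.chi_one]
  exact this

theorem Ctx.le (h : Ctx G χ) : II G χ ≤ 𝓝 0 := fun W hW => by
  obtain ⟨t, ht, hu⟩ := h.bd W hW
  filter_upwards [ev (G := G) (χ := χ) t⁻¹] with δ hδ
  have := hu (t⁻¹ * δ) hδ.1
  rwa [mul_inv_cancel_left₀ ht] at this

variable [IsTopologicalDivisionRing E]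

theorem Ctx.near (h : Ctx G χ) {x : E} (hx : x ∈ G) {α : Type} {l : Filter α} {f : α → E}
    (hf : Tendsto f l (𝓝 0)) : ∀ᶠ t in l, x + f t ∈ G := by
  have : Tendsto (fun t => x + f t) l (𝓝 x) := by simpa using hf.const_add x
  exact this (h.opn.mem_nhds hx)

theorem Ctx.tw (h : Ctx G χ) {x : E} (hx : x ∈ G) {α : Type} {l : Filter α} {f : α → E}
    (hf : Tendsto f l (𝓝 0)) :
    ∀ᶠ t in l, x + f t ∈ G ∧ χ (x + f t) = χ x * χ (1 + f t / x) := by
  have h0 : x ≠ 0 := fun e => h.zero (e ▸ hx)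
  have h1 : Tendsto (fun t => f t / x) l (𝓝 0) := by simpa using hf.div_const x
  filter_upwards [h.near hx hf, h.near h.one h1] with t h2 h3
  refine ⟨h2, ?_⟩
  rw [← h.mul _ hx _ h3]
  congr 1
  field_simp

theorem Ctx.quot (h : Ctx G χ) {α : Type} {l : Filter α} {f g : α → E}
    (hf : Tendsto f l (𝓝 0)) (hg : Tendsto g l (𝓝 0)) :
    ∀ᶠ t in l, 1 + g t ≠ 0 ∧ (1 + f t) / (1 + g t) ∈ G ∧
      χ (1 + f t) = χ ((1 + f t) / (1 + g t)) * χ (1 + g t) := by
  have h1 : Tendsto (fun t => (1 + f t) / (1 + g t)) l (𝓝 1) := by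
    have := (hf.const_add 1).div (hg.const_add 1) (by simp)
    simp only [add_zero, div_one] at this
    exact this
  filter_upwards [h1 (h.opn.mem_nhds h.one), h.near h.one hg] with t h2 h3
  have h0 : 1 + g t ≠ 0 := fun e => h.zero (e ▸ h3)
  refine ⟨h0, h2, ?_⟩
  rw [← h.mul _ h2 _ h3, div_mul_cancel₀ _ h0]

/-- Hales-Jewett step. -/
theorem Ctx.hj [CharZero E] (h : Ctx G χ) (hfin : (Set.range χ).Finite) {B : Set E} (hB : Bd B)
    (A : Finset E) : ∃ S : Finset (E × E), ∀ u ∈ B, ∃ p ∈ S, p.1 ≠ 0 ∧ 1 + p.2 * u ≠ 0 ∧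
      ∀ a ∈ A, 1 + a * (p.1 * u / (1 + p.2 * u)) ∈ G ∧
        χ (1 + a * (p.1 * u / (1 + p.2 * u))) = 1 := by
  classical
  have := hfin.to_subtype
  obtain ⟨ι, _, hι⟩ := Combinatorics.Line.exists_mono_in_high_dimension (Option A) (Set.range χ)
  let v : Option A → E := fun o => o.elim 0 (fun a => a.1)
  let s : (ι → Option A) → E := fun x => ∑ j, v (x j)
  have hs : ∀ x, Tendsto (fun z : E => s x * z) (𝓝 0) (𝓝 0) := fun x => by
    simpa using (tendsto_id (x := 𝓝 (0 : E))).const_mul (s x)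
  have hW : ∀ᶠ z in 𝓝 (0 : E), ∀ x y, 1 + s y * z ≠ 0 ∧ (1 + s x * z) / (1 + s y * z) ∈ G ∧
      χ (1 + s x * z) = χ ((1 + s x * z) / (1 + s y * z)) * χ (1 + s y * z) :=
    eventually_all.2 fun x => eventually_all.2 fun y => h.quot (hs x) (hs y)
  obtain ⟨t, ht, htB⟩ := hB _ hW
  let m : (ι → Option (Option A)) → ℕ := fun f => (Finset.univ.filter fun j => f j = none).card
  refine ⟨Finset.univ.image fun f : ι → Option (Option A) =>
    (t * m f, t * s fun j => (f j).getD none), fun u hu => ?_⟩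
  obtain ⟨l, c, hc⟩ := hι fun x => ⟨χ (1 + s x * (t * u)), _, rfl⟩
  have hm : m l.idxFun ≠ 0 := by
    obtain ⟨j, hj⟩ := l.proper
    exact Finset.card_ne_zero.2 ⟨j, by simp [hj]⟩
  have hsum : ∀ x, s (l x) = s (l none) + m l.idxFun * v x := fun x => by
    have : ∀ j, v (l x j) = v (l none j) + if l.idxFun j = none then v x else 0 := fun j => by
      rw [Combinatorics.Line.apply_def, Combinatorics.Line.apply_def]
      cases hj : l.idxFun j <;> simp [v, hj]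
    simp only [s, this, Finset.sum_add_distrib, m]
    rw [← Finset.sum_filter]
    simp
  have h0 := (htB u hu (l none) (l none)).1
  have e0 : 1 + t * s (l none) * u = 1 + s (l none) * (t * u) := by ring
  refine ⟨(t * m l.idxFun, t * s (l none)), Finset.mem_image.2 ⟨l.idxFun, Finset.mem_univ _, rfl⟩,
    mul_ne_zero ht (Nat.cast_ne_zero.2 hm), e0 ▸ h0, fun a ha => ?_⟩
  obtain ⟨-, h1, h2⟩ := htB u hu (l (some ⟨a, ha⟩)) (l none)
  have h3 : χ (1 + s (l (some ⟨a, ha⟩)) * (t * u)) = χ (1 + s (l none) * (t * u)) :=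
    congrArg Subtype.val ((hc _).trans (hc _).symm)
  have e1 : 1 + a * (t * m l.idxFun * u / (1 + t * s (l none) * u))
      = (1 + s (l (some ⟨a, ha⟩)) * (t * u)) / (1 + s (l none) * (t * u)) := by
    rw [hsum (some _), e0]
    simp only [v, Option.elim_some]
    rw [eq_div_iff h0, add_mul, mul_assoc a, div_mul_cancel₀ _ h0]
    ring
  simp only []
  rw [e1]
  exact ⟨h1, right_eq_mul.1 (h3.symm.trans h2)⟩

theorem Ctx.nd [CharZero E] (h : Ctx G χ) (hfin : (Set.range χ).Finite) {B : Set E} (hB : Bd B)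
    (h1 : 1 ∈ B) : ∃ᶠ t in II G χ, t ≠ 0 := by
  rw [frequently_iff]
  intro W hW
  obtain ⟨A, hA⟩ := mem_II hW
  obtain ⟨S, hS⟩ := h.hj hfin hB A
  obtain ⟨p, -, h2, h3, h4⟩ := hS 1 h1
  exact ⟨_, hA _ h4, div_ne_zero (by simpa using h2) h3⟩

/-- continuity of inversion -/
theorem Ctx.inv (h : Ctx G χ) {x : E} (hx : x ≠ 0) :
    Tendsto (fun δ => (x + δ)⁻¹ - x⁻¹) (II G χ) (II G χ) := by
  refine tend_iff.2 fun a => ?_
  have hs : ∀ c : E, Tendsto (fun z : E => c * z) (II G χ) (𝓝 0) := fun c => (smul c).mono_right h.le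
  filter_upwards [h.quot (hs ((x - a) / x ^ 2)) (hs x⁻¹), ev (G := G) (χ := χ) ((x - a) / x ^ 2),
    ev (G := G) (χ := χ) x⁻¹] with δ ⟨h1, h2, h3⟩ h4 h5
  have h6 : x + δ ≠ 0 := fun e => h1 (by
    rw [show δ = -x by linear_combination e]
    field_simp
    ring)
  have e : 1 + a * ((x + δ)⁻¹ - x⁻¹) = (1 + (x - a) / x ^ 2 * δ) / (1 + x⁻¹ * δ) := by
    field_simp
    ring
  rw [e]
  refine ⟨h2, ?_⟩
  rw [h4.2, h5.2, mul_one] at h3
  exact h3.symm

end Pool.Agent.MP_96eeb0_lc.H87.SAx
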