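import Pool.Agent.MP_96eeb0_lc.H87.Spec2
import Pool.Agent.MP_96eeb0_lc.H87.SA1

/-! Hales-Jewett step for finitely many admissible colours. -/

namespace Pool.Agent.MP_96eeb0_lc.H87

open Filter Topology

theorem th : TH := by
  intro E _ _ _ _ Q _ G χ F hG h1 h0 hmul hF hK A
  classical
  have quot : ∀ a b : E, ∀ᶠ z in 𝓝 (0 : E), 1 + b * z ≠ 0 ∧ (1 + a * z) / (1 + b * z) ∈ G ∧
      χ (1 + a * z) = χ ((1 + a * z) / (1 + b * z)) * χ (1 + b * z) := fun a b => by
    have hs : ∀ c : E, Tendsto (fun z : E => 1 + c * z) (𝓝 0) (𝓝 1) := fun c => by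
      simpa using ((tendsto_id (x := 𝓝 (0 : E))).const_mul c).const_add 1
    have h2 : Tendsto (fun z => (1 + a * z) / (1 + b * z)) (𝓝 0) (𝓝 1) := by
      have := (hs a).div (hs b) one_ne_zero
      simp only [div_one] at this
      exact this
    filter_upwards [h2 (hG.mem_nhds h1), hs b (hG.mem_nhds h1)] with t h3 h4
    have h5 : 1 + b * t ≠ 0 := fun e => h0 (e ▸ h4)
    refine ⟨h5, h3, ?_⟩
    rw [← hmul _ h3 _ h4, div_mul_cancel₀ _ h5]
  have := hF.to_subtype
  obtain ⟨ι, _, hι⟩ := Combinatorics.Line.exists_mono_in_high_dimension (Option A) F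
  let v : Option A → E := fun o => o.elim 0 (fun a => a.1)
  let s : (ι → Option A) → E := fun x => ∑ j, v (x j)
  obtain ⟨δ, hW, hδ, hc⟩ := hK (Finset.univ.image s) _
    (eventually_all.2 fun x => eventually_all.2 fun y => quot (s x) (s y))
  obtain ⟨l, c, hl⟩ := hι fun x => ⟨χ (1 + s x * δ), hc _ (Finset.mem_image_of_mem _
    (Finset.mem_univ x))⟩
  let m : ℕ := (Finset.univ.filter fun j => l.idxFun j = none).card
  have hm : m ≠ 0 := by
    obtain ⟨j, hj⟩ := l.proper
    exact Finset.card_ne_zero.2 ⟨j, by simp [hj]⟩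
  have hsum : ∀ x, s (l x) = s (l none) + m * v x := fun x => by
    have : ∀ j, v (l x j) = v (l none j) + if l.idxFun j = none then v x else 0 := fun j => by
      rw [Combinatorics.Line.apply_def, Combinatorics.Line.apply_def]
      cases hj : l.idxFun j <;> simp [v, hj]
    simp only [s, this, Finset.sum_add_distrib, m]
    rw [← Finset.sum_filter]
    simp
  have h2 := (hW (l none) (l none)).1
  refine ⟨m * δ / (1 + s (l none) * δ),
    div_ne_zero (mul_ne_zero (Nat.cast_ne_zero.2 hm) hδ) h2, fun a ha => ?_⟩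
  obtain ⟨-, h3, h4⟩ := hW (l (some ⟨a, ha⟩)) (l none)
  have h5 : χ (1 + s (l (some ⟨a, ha⟩)) * δ) = χ (1 + s (l none) * δ) :=
    congrArg Subtype.val ((hl _).trans (hl _).symm)
  have e1 : 1 + a * (m * δ / (1 + s (l none) * δ))
      = (1 + s (l (some ⟨a, ha⟩)) * δ) / (1 + s (l none) * δ) := by
    rw [hsum (some _)]
    simp only [v, Option.elim_some]
    rw [eq_div_iff h2, add_mul, mul_assoc a, div_mul_cancel₀ _ h2]
    ring
  rw [e1]
  exact ⟨h3, right_eq_mul.1 (h5.symm.trans h4)⟩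

end Pool.Agent.MP_96eeb0_lc.H87
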