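import Pool.Agent.MP_96eeb0_lc.H87.Spec2

/-! Finite extensions of large fields have non-trivial points on Kummer curves. -/

namespace Pool.Agent.MP_96eeb0_lc.H87

open MvPolynomial

namespace TLx

/-- Specialisation of finitely many Laurent series. -/
theorem spec_laurent {K : Type} [Field K] (hK : Large K) {ι : Type} [Finite ι]
    (x : ι → LaurentSeries K) :
    ∃ xb : ι → K, ∀ p : MvPolynomial ι K, aeval x p = 0 → aeval xb p = 0 := by
  classical
  obtain ⟨e, he⟩ := exists_injective_nat ι
  obtain ⟨s, hs⟩ := IsNoetherian.noetherian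
    (RingHom.ker (aeval x : MvPolynomial ι K →ₐ[K] LaurentSeries K).toRingHom)
  have hx : ∃ x' : ℕ → LaurentSeries K, ∀ p ∈ s.image (rename e), aeval x' p = 0 := by
    refine ⟨Function.extend e x 0, fun p hp => ?_⟩
    obtain ⟨q, hq, rfl⟩ := Finset.mem_image.1 hp
    have hq' : q ∈ RingHom.ker (aeval x : MvPolynomial ι K →ₐ[K] LaurentSeries K).toRingHom := by
      rw [← hs]
      exact Submodule.subset_span hq
    rw [aeval_rename, Function.extend_comp he]
    exact hq'
  obtain ⟨y, hy⟩ := hK _ hx
  refine ⟨y ∘ e, fun p hp => ?_⟩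
  have hle : Submodule.span (MvPolynomial ι K) (s : Set (MvPolynomial ι K)) ≤
      RingHom.ker (aeval (y ∘ e) : MvPolynomial ι K →ₐ[K] K).toRingHom := by
    refine Submodule.span_le.2 fun q hq => ?_
    have := hy _ (Finset.mem_image_of_mem (rename e) hq)
    rw [aeval_rename] at this
    exact this
  rw [hs] at hle
  exact hle hp

/-- Power series as Laurent series. -/
noncomputable def emb (K : Type) [Field K] : PowerSeries K →ₐ[K] LaurentSeries K :=
  { HahnSeries.ofPowerSeries ℤ K with commutes' := fun _ => rfl }

theorem emb_inj (K : Type) [Field K] : Function.Injective (emb K) :=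
  HahnSeries.ofPowerSeries_injective

/-- Specialisation of finitely many power series, one of which stays non-zero. -/
theorem spec_power {K : Type} [Field K] (hK : Large K) {ι : Type} [Finite ι]
    (y : ι → PowerSeries K) (i₀ : ι) (h₀ : y i₀ ≠ 0) :
    ∃ yb : ι → K, yb i₀ ≠ 0 ∧ ∀ p : MvPolynomial ι K, aeval y p = 0 → aeval yb p = 0 := by
  have hne : emb K (y i₀) ≠ 0 := fun h => h₀ (emb_inj K (h.trans (map_zero _).symm))
  obtain ⟨xb, hxb⟩ := spec_laurent hK
    (fun o : Option ι => o.elim (emb K (y i₀))⁻¹ fun i => emb K (y i))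
  refine ⟨fun i => xb (some i), fun h => ?_, fun p hp => ?_⟩
  · have := hxb (X none * X (some i₀) - 1) (by simp [hne])
    simp [h] at this
  · have := hxb (rename some p) (by
      rw [aeval_rename]
      have h1 := comp_aeval_apply (emb K) p (f := y)
      rw [hp, map_zero] at h1
      exact h1.symm)
    rwa [aeval_rename] at this

section
variable {K E κ : Type} [Field K] [Field E] [Algebra K E] [Fintype κ]

theorem decomp (b : Module.Basis κ K E) {ι : Type} (P : MvPolynomial ι E) :
    ∃ p : κ → MvPolynomial ι K, P = ∑ k, C (b k) * map (algebraMap K E) (p k) := by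
  induction P using MvPolynomial.induction_on' with
  | monomial u a =>
    refine ⟨fun k => monomial u (b.repr a k), ?_⟩
    simp only [map_monomial, C_mul_monomial]
    rw [← map_sum]
    congr 1
    conv_lhs => rw [← b.sum_repr a]
    exact Finset.sum_congr rfl fun k _ => by rw [Algebra.smul_def, mul_comm]
  | add P Q hP hQ =>
    obtain ⟨p, rfl⟩ := hP
    obtain ⟨q, rfl⟩ := hQ
    exact ⟨fun k => p k + q k, by simp only [map_add, mul_add, Finset.sum_add_distrib]⟩

theorem indep (b : Module.Basis κ K E) (g : κ → PowerSeries K)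
    (h : ∑ k, PowerSeries.C (b k) * PowerSeries.map (algebraMap K E) (g k) = 0) (k : κ) :
    g k = 0 := by
  ext m
  have h1 := congrArg (PowerSeries.coeff m) h
  simp only [map_sum, PowerSeries.coeff_C_mul, PowerSeries.coeff_map, map_zero] at h1
  have h2 : ∑ k, PowerSeries.coeff m (g k) • b k = 0 := by
    rw [← h1]
    exact Finset.sum_congr rfl fun k _ => by rw [Algebra.smul_def, mul_comm]
  simpa using Fintype.linearIndependent_iff.1 b.linearIndependent _ h2 k

theorem coords (b : Module.Basis κ K E) (f : PowerSeries E) :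
    ∑ k, PowerSeries.C (b k) * PowerSeries.map (algebraMap K E)
      (PowerSeries.mk fun m => b.repr (PowerSeries.coeff m f) k) = f := by
  ext m
  simp only [map_sum, PowerSeries.coeff_C_mul, PowerSeries.coeff_map, PowerSeries.coeff_mk]
  conv_rhs => rw [← b.sum_repr (PowerSeries.coeff m f)]
  exact Finset.sum_congr rfl fun k _ => by rw [Algebra.smul_def, mul_comm]

omit [Fintype κ] in
theorem aeval_map_ps {ι : Type} (y : ι → PowerSeries K) (q : MvPolynomial ι K) :
    aeval (fun i => PowerSeries.map (algebraMap K E) (y i)) (map (algebraMap K E) q) =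
      PowerSeries.map (algebraMap K E) (aeval y q) := by
  induction q using MvPolynomial.induction_on with
  | C a => simp
  | add p q hp hq => simp only [map_add, hp, hq]
  | mul_X p i hp => simp only [map_mul, hp, map_X, aeval_X]

omit [Fintype κ] in
theorem aeval_map_fld {ι : Type} (y : ι → K) (q : MvPolynomial ι K) :
    aeval (fun i => algebraMap K E (y i)) (map (algebraMap K E) q) =
      algebraMap K E (aeval y q) := by
  induction q using MvPolynomial.induction_on with
  | C a => simp
  | add p q hp hq => simp only [map_add, hp, hq]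
  | mul_X p i hp => simp only [map_mul, hp, map_X, aeval_X]

theorem lift_spec (b : Module.Basis κ K E) {ι : Type} (y : ι → PowerSeries K) (yb : ι → K)
    (h : ∀ p : MvPolynomial ι K, aeval y p = 0 → aeval yb p = 0) (P : MvPolynomial ι E)
    (hP : aeval (fun i => PowerSeries.map (algebraMap K E) (y i)) P = 0) :
    aeval (fun i => algebraMap K E (yb i)) P = 0 := by
  obtain ⟨p, rfl⟩ := decomp b P
  simp only [map_sum, map_mul, aeval_C, aeval_map_ps, PowerSeries.algebraMap_apply,
    Algebra.algebraMap_self, RingHom.id_apply] at hP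
  have h0 := indep b _ hP
  simp only [map_sum, map_mul, aeval_map_fld, fun k => h _ (h0 k), map_zero, mul_zero,
    Finset.sum_const_zero]

end

theorem root {E : Type} [Field E] [CharZero E] {n : ℕ} (hn : 0 < n) (a : E) :
    ∃ u z : PowerSeries E, u ^ n = 1 + PowerSeries.C a * PowerSeries.X ∧ u * z = 1 := by
  have hpow : ∀ (r : ℚ) (m : ℕ), PowerSeries.binomialSeries E r ^ m =
      PowerSeries.binomialSeries E (m * r) := by
    intro r m
    induction m with
    | zero => simp
    | succ m ih => rw [pow_succ, ih, ← PowerSeries.binomialSeries_add]; push_cast; ring_nf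
  have hn' : (n : ℚ) ≠ 0 := by exact_mod_cast hn.ne'
  refine ⟨PowerSeries.rescale a (PowerSeries.binomialSeries E (1 / n : ℚ)),
    PowerSeries.rescale a (PowerSeries.binomialSeries E (-(1 / n) : ℚ)), ?_, ?_⟩
  · rw [← map_pow, hpow, mul_one_div_cancel hn']
    have := PowerSeries.binomialSeries_nat (R := ℚ) (A := E) 1
    rw [Nat.cast_one, pow_one] at this
    rw [this, map_add, map_one, PowerSeries.rescale_X]
  · rw [← map_mul, ← PowerSeries.binomialSeries_add, add_neg_cancel,
      PowerSeries.binomialSeries_zero, map_one]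

end TLx

open TLx

theorem tl : TL := by
  intro K _ _ hK E _ _ _ n hn A
  have : CharZero E := charZero_of_injective_algebraMap (algebraMap K E).injective
  choose u z hu hz using fun a : E => root hn a
  let b := Module.finBasis K E
  let f : A → Bool → PowerSeries E := fun a s => if s then u a else z a
  let y : Option (A × Bool × Fin (Module.finrank K E)) → PowerSeries K := fun o =>
    o.elim PowerSeries.X fun t =>
      PowerSeries.mk fun m => b.repr (PowerSeries.coeff m (f t.1 t.2.1)) t.2.2
  obtain ⟨yb, h0, hyb⟩ := spec_power hK y none PowerSeries.X_ne_zero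
  let U : A → Bool → MvPolynomial (Option (A × Bool × Fin (Module.finrank K E))) E :=
    fun a s => ∑ k, C (b k) * X (some (a, s, k))
  have hU : ∀ a s, aeval (fun i => PowerSeries.map (algebraMap K E) (y i)) (U a s) = f a s := by
    intro a s
    rw [← coords b (f a s)]
    simp only [U, map_sum, map_mul, aeval_C, aeval_X, PowerSeries.algebraMap_apply,
      Algebra.algebraMap_self, RingHom.id_apply]
    rfl
  refine ⟨algebraMap K E (yb none), (map_ne_zero _).2 h0, fun a ha => ?_⟩
  have h1 := lift_spec b y yb hyb (U ⟨a, ha⟩ true ^ n - (1 + C a * X none)) (by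
    simp only [map_sub, map_pow, hU, map_add, map_one, map_mul, aeval_C, aeval_X,
      PowerSeries.algebraMap_apply, Algebra.algebraMap_self, RingHom.id_apply]
    simp [f, y, hu])
  have h2 := lift_spec b y yb hyb (U ⟨a, ha⟩ true * U ⟨a, ha⟩ false - 1) (by
    simp only [map_sub, map_mul, hU, map_one]
    simp [f, hz])
  simp only [map_sub, map_pow, map_add, map_one, map_mul, aeval_C, aeval_X,
    Algebra.algebraMap_self, RingHom.id_apply, sub_eq_zero] at h1 h2
  exact ⟨_, left_ne_zero_of_mul_eq_one h2, h1⟩

end Pool.Agent.MP_96eeb0_lc.H87
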