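import Pool.Agent.MP_96eeb0_lc.H87.SA2

/-! The core step. -/

namespace Pool.Agent.MP_96eeb0_lc.H87

open Filter Topology SAx

theorem sa : SA := by
  intro E _ _ _ _ _ Q _ G χ N B B₀ h1 h2 h3 h4 hfin hN hq h5 hB hB1 hB0 hvc
  classical
  have h : Ctx G χ := ⟨h1, h2, h3, h4, h5⟩
  have hn := h.nd hfin hB hB1
  have hsub : ∀ {α : Type} {l : Filter α} {f g : α → E}, Tendsto f l (II G χ) →
      Tendsto g l (II G χ) → Tendsto (fun x => f x - g x) l (II G χ) := fun hf hg =>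
    (h.sub hn hvc hfin hN hq).comp (hf.prodMk hg)
  have hadd : ∀ {α : Type} {l : Filter α} {f g : α → E}, Tendsto f l (II G χ) →
      Tendsto g l (II G χ) → Tendsto (fun x => f x + g x) l (II G χ) := fun hf hg =>
    (hsub hf ((smul (-1)).comp hg)).congr fun x => by simp
  have hmu : Tendsto (fun δ : E => (1 + δ)⁻¹ - 1⁻¹) (II G χ) (II G χ) := h.inv one_ne_zero
  have hsq : Tendsto (fun δ : E => δ ^ 2) (II G χ) (II G χ) := by
    have ht := (smul 2⁻¹).comp (hadd hmu (hmu.comp (smul (-1))))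
    refine ((smul (-1)).comp (hmu.comp ht)).congr' ?_
    filter_upwards [ev (G := G) (χ := χ) 1, ev (G := G) (χ := χ) (-1)] with δ h6 h7
    have h8 : 1 + δ ≠ 0 := fun e => h3 (by simpa [e] using h6.1)
    have h9 : 1 - δ ≠ 0 := fun e => h3 (by simpa [← sub_eq_add_neg, e] using h7.1)
    have e : 1 + 2⁻¹ * ((1 + δ)⁻¹ - 1⁻¹ + ((1 + -1 * δ)⁻¹ - 1⁻¹)) = ((1 + δ) * (1 - δ))⁻¹ := by
      rw [show 1 + -1 * δ = 1 - δ by ring]
      field_simp
      ring
    simp only [Function.comp, e, inv_inv]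
    ring
  have hmul : Tendsto (fun p : E × E => p.1 * p.2) (II G χ ×ˢ II G χ) (II G χ) :=
    ((smul 4⁻¹).comp (hsub (hsq.comp (hadd tendsto_fst tendsto_snd))
      (hsq.comp (hsub tendsto_fst tendsto_snd)))).congr fun p => by
        simp only [Function.comp]
        field_simp
        ring
  obtain ⟨V, hV, hVV⟩ := mem_prod_self_iff.1 (tend_iff.1 hmul 1)
  refine ⟨II G χ, by unfold II; infer_instance, ⟨smul, hadd tendsto_fst tendsto_snd, h.pure_le, hn,
    V, hV, fun W hW => ?_, ?_⟩, h.le, by simpa using ev (G := G) (χ := χ) 1⟩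
  · obtain ⟨A, hA⟩ := mem_II hW
    filter_upwards [(eventually_all_finset A).2 fun a _ => smul (G := G) (χ := χ) a hV]
      with t ht v hv
    refine hA _ fun a ha => ?_
    have := hVV (Set.mk_mem_prod (ht a ha) hv)
    simpa [mul_assoc] using this
  · obtain ⟨A, hA⟩ := mem_II hV
    obtain ⟨S, hS⟩ := h.hj hfin hB A
    refine ⟨(B₀ ×ˢ S).image fun r => (r.1 - r.2.2, r.2.1), fun x => ?_⟩
    obtain ⟨b, hb, hx, hu⟩ := hB0 x
    obtain ⟨p, hp, h6, h7, h8⟩ := hS _ hu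
    have h9 : x - b ≠ 0 := sub_ne_zero.2 hx
    have e : x - (b - p.2) = (1 + p.2 * (x - b)⁻¹) * (x - b) := by field_simp; ring
    refine ⟨(b - p.2, p.1), Finset.mem_image.2 ⟨(b, p), Finset.mk_mem_product hb hp, rfl⟩,
      sub_ne_zero.1 (e ▸ mul_ne_zero h7 h9), h6, ?_⟩
    have := hA _ h8
    rwa [e, mul_inv, mul_comm _ (x - b)⁻¹, ← mul_assoc, ← div_eq_mul_inv _ (1 + _)]

end Pool.Agent.MP_96eeb0_lc.H87
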