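import Pool.Agent.MP_96eeb0_lc.H87.SA1

/-! Open and generic sets; continuity of subtraction under the VC hypothesis. -/

namespace Pool.Agent.MP_96eeb0_lc.H87.SAx

open Filter Topology

variable {E : Type} [Field E]

def Op (I : Filter E) (X : Set E) : Prop := ∀ x ∈ X, ∀ᶠ δ in I, x + δ ∈ X

def Gen (I : Filter E) (S : Set E) : Prop :=
  ∀ X, Op I X → X.Nonempty → ∃ Y, Op I Y ∧ Y.Nonempty ∧ Y ⊆ X ∧ Y ⊆ S

def Ct (I : Filter E) (f : E → E) (x : E) : Prop := Tendsto (fun δ => f (x + δ) - f x) I I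

def LeJ (I V : Filter E) : Prop := ∀ X ∈ I, ∀ᶠ δ in V, ∃ u ∈ X, u + δ ∈ X

section gen
variable {I : Filter E} {S S' X Y : Set E}

theorem Op.inter (h : Op I X) (h' : Op I Y) : Op I (X ∩ Y) :=
  fun x hx => (h x hx.1).and (h' x hx.2)

theorem Op.pre {f : E → E} (h : Op I X) (hY : Op I Y) (hf : ∀ x ∈ Y, Ct I f x) :
    Op I (f ⁻¹' X ∩ Y) := fun x hx => by
  filter_upwards [hf x hx.2 (h _ hx.1), hY x hx.2] with δ h1 h2
  exact ⟨by simpa using h1, h2⟩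

theorem op_univ : Op I Set.univ := fun _ _ => Eventually.of_forall fun _ => trivial

theorem Gen.mono (h : Gen I S) (hs : S ⊆ S') : Gen I S' := fun X hX hn => by
  obtain ⟨Y, h1, h2, h3, h4⟩ := h X hX hn
  exact ⟨Y, h1, h2, h3, h4.trans hs⟩

theorem Gen.inter (h : Gen I S) (h' : Gen I S') : Gen I (S ∩ S') := fun X hX hn => by
  obtain ⟨Y, h1, h2, h3, h4⟩ := h X hX hn
  obtain ⟨Z, h5, h6, h7, h8⟩ := h' Y h1 h2
  exact ⟨Z, h5, h6, h7.trans h3, Set.subset_inter (h7.trans h4) h8⟩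

theorem gen_univ : Gen I Set.univ := fun X hX hn => ⟨X, hX, hn, subset_rfl, Set.subset_univ _⟩

theorem gen_fin {ι : Type} (A : Finset ι) {T : ι → Set E} (h : ∀ a, Gen I (T a)) :
    Gen I {x | ∀ a ∈ A, x ∈ T a} := by
  classical
  induction A using Finset.induction_on with
  | empty => exact gen_univ.mono fun x _ => by simp
  | insert a s _ ih => exact ((h a).inter ih).mono fun x hx => by simpa using hx

theorem Gen.pre {f g : E → E} {P : Set E} (h : Gen I S) (hP' : Gen I P)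
    (hfg : ∀ y, f (g y) = y) (hgf : ∀ x, g (f x) = x) (hf : ∀ x ∈ P, Ct I f x)
    (hg : ∀ x ∈ P, Ct I g (f x)) : Gen I (f ⁻¹' S) := fun X hX hn => by
  obtain ⟨X', h1, ⟨x, hx⟩, h3, h4⟩ := hP' X hX hn
  have h5 : Op I (g ⁻¹' X') := fun y hy => by
    have := hg _ (h4 hy)
    rw [hfg] at this
    filter_upwards [this (h1 _ hy)] with δ h6
    simpa using h6
  obtain ⟨Y, h6, ⟨y, hy⟩, h8, h9⟩ := h _ h5 ⟨f x, by simpa [hgf] using hx⟩
  exact ⟨f ⁻¹' Y ∩ X', h6.pre h1 fun z hz => hf z (h4 hz), ⟨g y, by simpa [hfg] using hy, h8 hy⟩,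
    fun z hz => h3 hz.2, fun z hz => h9 hz.1⟩

theorem ct_aff (hs : ∀ c : E, Tendsto (fun x => c * x) I I) (a b x : E) :
    Ct I (fun z => a * z + b) x := (hs a).congr fun δ => by ring

theorem Op.aff (hs : ∀ c : E, Tendsto (fun x => c * x) I I) (h : Op I X) (a b : E) :
    Op I {x | a * x + b ∈ X} := by
  have := h.pre op_univ fun x _ => ct_aff hs a b x
  rw [Set.inter_univ] at this
  exact this

theorem Gen.aff (hs : ∀ c : E, Tendsto (fun x => c * x) I I) (h : Gen I S) {a : E} (ha : a ≠ 0)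
    (b : E) : Gen I {x | a * x + b ∈ S} :=
  h.pre (f := fun z => a * z + b) (g := fun z => a⁻¹ * z + -(a⁻¹ * b)) gen_univ
    (fun y => by field_simp; ring) (fun y => by field_simp; ring) (fun x _ => ct_aff hs _ _ _)
    (fun x _ => ct_aff hs _ _ _)

theorem LeJ.smul {V : Filter E} (hs : ∀ c : E, Tendsto (fun x => c * x) I I) (h : LeJ I V)
    (c : E) : LeJ I (V.map fun x => c * x) := fun X hX => by
  rw [eventually_map]
  filter_upwards [h _ (hs c hX)] with δ ⟨u, h1, h2⟩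
  exact ⟨c * u, h1, by simpa [mul_add] using h2⟩

end gen

variable [TopologicalSpace E] [IsTopologicalDivisionRing E] {Q : Type} [CommGroup Q]
  {G : Set E} {χ : E → Q}

def SS (χ : E → Q) (V : Filter E) (q : Q) : Set E := {x | ∀ᶠ δ in V, χ (1 + δ / x) = q}

theorem Ctx.op_lev (h : Ctx G χ) (s : Q → Prop) : Op (II G χ) {g | g ∈ G ∧ s (χ g)} :=
  fun x hx => by
    filter_upwards [h.tw hx.1 (f := id) h.le, ev (G := G) (χ := χ) x⁻¹] with δ h1 h2
    refine ⟨h1.1, ?_⟩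
    have := h1.2
    simp only [id, div_eq_inv_mul, h2.2, mul_one] at this
    rw [this]
    exact hx.2

omit [IsTopologicalDivisionRing E] in
theorem Ctx.op_ne (h : Ctx G χ) (p : E) : Op (II G χ) {x | x ≠ p} := fun x hx => by
  have h0 : x - p ≠ 0 := sub_ne_zero.2 hx
  filter_upwards [ev (G := G) (χ := χ) (x - p)⁻¹] with δ h1 e
  refine h.zero ?_
  have : 1 + (x - p)⁻¹ * δ = 0 := by
    rw [show δ = -(x - p) by linear_combination e]
    field_simp
    ring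
  exact this ▸ h1.1

omit [IsTopologicalDivisionRing E] in
theorem Ctx.gen_ne (h : Ctx G χ) (hn : ∃ᶠ t in II G χ, t ≠ 0) (p : E) :
    Gen (II G χ) {x | x ≠ p} := fun X hX ⟨x, hx⟩ => by
  refine ⟨X ∩ {x | x ≠ p}, hX.inter (h.op_ne p), ?_, Set.inter_subset_left, Set.inter_subset_right⟩
  by_cases e : x = p
  · obtain ⟨t, h1, h2⟩ := (hn.and_eventually (hX x hx)).exists
    exact ⟨x + t, h2, by simpa [e] using h1⟩
  · exact ⟨x, hx, e⟩

theorem Ctx.gen_inv (h : Ctx G χ) (hn : ∃ᶠ t in II G χ, t ≠ 0) {S : Set E}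
    (hS : Gen (II G χ) S) : Gen (II G χ) {x | x⁻¹ ∈ S} :=
  hS.pre (f := fun z => z⁻¹) (g := fun z => z⁻¹) (h.gen_ne hn 0) inv_inv inv_inv
    (fun _ hx => h.inv hx) (fun _ hx => h.inv (inv_ne_zero hx))

theorem Ctx.lej_le (h : Ctx G χ) {V : Filter E} (hV : LeJ (II G χ) V) : V ≤ 𝓝 0 := fun W hW => by
  obtain ⟨W', h1, h2⟩ := exists_nhds_half_neg hW
  filter_upwards [hV W' (h.le h1)] with δ ⟨u, h3, h4⟩
  simpa using h2 _ h4 _ h3

/-- Step B: the tree argument. -/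
theorem Ctx.stepB (h : Ctx G χ) (hn : ∃ᶠ t in II G χ, t ≠ 0) (hvc : VC {g | g ∈ G ∧ χ g = 1})
    (U : Ultrafilter E) (hU : LeJ (II G χ) U) : Gen (II G χ) (SS χ U 1) := by
  by_contra hg
  simp only [Gen, not_forall, not_exists, not_and] at hg
  obtain ⟨X, hX, hne, hb⟩ := hg
  obtain ⟨X', -, ⟨c, hc'⟩, h3, h4⟩ := h.gen_ne hn 0 X hX hne
  have hc : c ≠ 0 := h4 hc'
  have hU0 := h.lej_le hU
  let P : E → Set E := fun δ => {x | c⁻¹ * x + c⁻¹ * δ ∈ {g | g ∈ G ∧ χ g = 1}}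
  let N : E → Set E := fun δ => {x | c⁻¹ * x + c⁻¹ * δ ∈ {g | g ∈ G ∧ ¬ χ g = 1}}
  have hP : ∀ δ, Op (II G χ) (P δ) := fun δ => (h.op_lev (· = 1)).aff smul _ _
  have hN : ∀ δ, Op (II G χ) (N δ) := fun δ => (h.op_lev (¬ · = 1)).aff smul _ _
  have key : ∀ Y, Op (II G χ) Y → Y.Nonempty → Y ⊆ X ∩ P 0 →
      ∀ᶠ δ in (U : Filter E), (Y ∩ P δ).Nonempty ∧ (Y ∩ N δ).Nonempty := by
    intro Y hY hYn hYs
    obtain ⟨y, hy, hyS⟩ := Set.not_subset.1 (hb Y hY hYn fun z hz => (hYs hz).1)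
    have hy1 : c⁻¹ * y ∈ G ∧ χ (c⁻¹ * y) = 1 := by simpa [P] using (hYs hy).2
    have hy0 : y ≠ 0 := fun e => h.zero (by simpa [e] using hy1.1)
    have ht : Tendsto (fun δ => c⁻¹ * δ) (U : Filter E) (𝓝 0) := by
      simpa using (tendsto_id.mono_left hU0).const_mul c⁻¹
    filter_upwards [hU _ (hY y hy), Ultrafilter.eventually_not.2 hyS, h.tw hy1.1 ht]
      with δ ⟨u, h5, h6⟩ h7 h8
    refine ⟨⟨y + u, h5, ?_⟩, y, hy, h8.1, ?_⟩
    · have := (hYs h6).2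
      simp only [P, Set.mem_ofPred_eq, mul_zero, add_zero] at this ⊢
      rwa [← mul_add, add_assoc]
    · rw [h8.2, hy1.2, one_mul, mul_div_mul_left _ _ (inv_ne_zero hc)]
      exact h7
  have tree : ∀ n : ℕ, ∃ (δ : Fin n → E) (Y : (Fin n → Prop) → Set E), ∀ S,
      Op (II G χ) (Y S) ∧ (Y S).Nonempty ∧ Y S ⊆ X ∩ P 0 ∧ ∀ x ∈ Y S, ∀ i, x ∈ P (δ i) ↔ S i := by
    intro n
    induction n with
    | zero =>
      refine ⟨fun i => i.elim0, fun _ => X ∩ P 0, fun S => ⟨hX.inter (hP 0), ⟨c, h3 hc', ?_⟩,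
        subset_rfl, fun _ _ i => i.elim0⟩⟩
      simp [P, hc, h.one, h.chi_one]
    | succ n ih =>
      obtain ⟨δ, Y, hY⟩ := ih
      obtain ⟨d, hd⟩ := (eventually_all.2 fun S => key (Y S) (hY S).1 (hY S).2.1 (hY S).2.2.1).exists
      classical
      refine ⟨Fin.cons d δ, fun S => Y (Fin.tail S) ∩ if S 0 then P d else N d, fun S => ?_⟩
      obtain ⟨h5, -, h7, h8⟩ := hY (Fin.tail S)
      by_cases h0 : S 0
      · simp only [if_pos h0]
        refine ⟨h5.inter (hP d), (hd _).1, fun z hz => h7 hz.1, fun x hx i => ?_⟩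
        refine Fin.cases ?_ (fun i => ?_) i
        · exact iff_of_true hx.2 h0
        · exact h8 x hx.1 i
      · simp only [if_neg h0]
        refine ⟨h5.inter (hN d), (hd _).2, fun z hz => h7 hz.1, fun x hx i => ?_⟩
        refine Fin.cases ?_ (fun i => ?_) i
        · exact iff_of_false (fun h9 => hx.2.2 h9.2) h0
        · exact h8 x hx.1 i
  obtain ⟨n, hn⟩ := hvc
  obtain ⟨δ, Y, hY⟩ := tree n
  choose x hx using fun S => (hY S).2.1
  exact hn ⟨fun S => c⁻¹ * x S, fun i => c⁻¹ * δ i, fun S i => (hY S).2.2.2 _ (hx S) i⟩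

/-- The twist lemma. -/
theorem Ctx.twist [CharZero E] (h : Ctx G χ) {V : Filter E} [V.NeBot] (hV : V ≤ 𝓝 0) {q : Q}
    {N : ℕ} (hN : 0 < N) (hq : q ^ N = 1) (hg : Gen (II G χ) (SS χ V q)) : LeJ (II G χ) V := by
  intro X hX
  obtain ⟨A, hA⟩ := mem_II hX
  let C : Q → Set E := fun t => {x | ∀ a ∈ A, a ≠ 0 → 1 + a * x ∈ G ∧ χ (1 + a * x) = t}
  have hC : ∀ t, Op (II G χ) (C t) := fun t x hx => by
    simp only [C, Set.mem_ofPred_eq, eventually_all_finset]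
    intro a ha
    by_cases h0 : a = 0
    · simp [h0]
    · filter_upwards [(h.op_lev (· = t)).aff smul a 1 x (by simpa [add_comm] using hx a ha h0)]
        with δ hδ _
      simpa [add_comm] using hδ
  have step : ∀ (k : E), k ≠ 0 → ∀ t, ∀ x ∈ C t, (∀ a ∈ A, k⁻¹ * x + k⁻¹ * a⁻¹ ∈ SS χ V q) →
      ∀ᶠ δ in V, x + k * δ ∈ C (t * q) := fun k hk t x hx hs => by
    simp only [C, Set.mem_ofPred_eq, eventually_all_finset]
    intro a ha
    by_cases h0 : a = 0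
    · simp [h0]
    obtain ⟨h1, h2⟩ := hx a ha h0
    have h3 : 1 + a * x ≠ 0 := fun e => h.zero (e ▸ h1)
    have ht : Tendsto (fun δ => a * k * δ) V (𝓝 0) := by
      simpa using (tendsto_id.mono_left hV).const_mul (a * k)
    filter_upwards [h.tw h1 ht, hs a ha] with δ h4 h5 _
    have e1 : 1 + a * (x + k * δ) = 1 + a * x + a * k * δ := by ring
    have e2 : k⁻¹ * x + k⁻¹ * a⁻¹ = (1 + a * x) / (a * k) := by field_simp; ring
    rw [e1, h4.2, h2, ← h5, e2, div_div_eq_mul_div, mul_comm δ]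
    exact ⟨h4.1, rfl⟩
  have two : ∀ t, (C t).Nonempty → ∃ x, (∀ᶠ δ in V, x + 1 * δ ∈ C (t * q)) ∧
      ∀ᶠ δ in V, x + 2 * δ ∈ C (t * q) := fun t ht => by
    obtain ⟨Y, -, ⟨x, hx⟩, h1, h2⟩ :=
      ((gen_fin A fun a => hg.aff smul (inv_ne_zero one_ne_zero) (1⁻¹ * a⁻¹)).inter
        (gen_fin A fun a => hg.aff smul (inv_ne_zero two_ne_zero) (2⁻¹ * a⁻¹))) _ (hC t) ht
    exact ⟨x, step 1 one_ne_zero t x (h1 hx) (h2 hx).1, step 2 two_ne_zero t x (h1 hx) (h2 hx).2⟩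
  have pw : ∀ k : ℕ, (C (q ^ k)).Nonempty := fun k => by
    induction k with
    | zero => exact ⟨0, fun a _ _ => by simp [h.one, h.chi_one]⟩
    | succ k ih =>
      obtain ⟨x, h1, -⟩ := two _ ih
      obtain ⟨δ, hδ⟩ := h1.exists
      exact ⟨_, pow_succ q k ▸ hδ⟩
  obtain ⟨k, rfl⟩ : ∃ k, N = k + 1 := ⟨N - 1, by omega⟩
  obtain ⟨x, h1, h2⟩ := two _ (pw k)
  rw [← pow_succ, hq] at h1 h2
  have hCX : C 1 ⊆ X := fun z hz => hA z fun a ha => by
    by_cases h0 : a = 0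
    · simp [h0, h.one, h.chi_one]
    · exact hz a ha h0
  filter_upwards [h1, h2] with δ h3 h4
  exact ⟨_, hCX h3, hCX (by rwa [show x + 1 * δ + δ = x + 2 * δ by ring])⟩

/-- Step E. -/
theorem Ctx.stepE [CharZero E] (h : Ctx G χ) (hn : ∃ᶠ t in II G χ, t ≠ 0)
    (hvc : VC {g | g ∈ G ∧ χ g = 1}) (hfin : (Set.range χ).Finite) {N : ℕ} (hN : 0 < N)
    (hq : ∀ g, χ g ^ N = 1) (U : Ultrafilter E) (hU : LeJ (II G χ) U) :
    ∀ᶠ δ in (U : Filter E), χ (1 + δ) = 1 := by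
  have hU0 := h.lej_le hU
  obtain ⟨_, ⟨g, rfl⟩, hg⟩ := (Ultrafilter.eventually_exists_mem_iff (f := U)
    (P := fun q δ => χ (1 + δ) = q) hfin).1 (Eventually.of_forall fun δ => ⟨_, ⟨_, rfl⟩, rfl⟩)
  let f : E → E := fun δ => -δ / (1 + δ)
  have hf : Tendsto f (U : Filter E) (𝓝 0) := by
    have := (tendsto_id.mono_left hU0).neg.div ((tendsto_id.mono_left hU0).const_add 1) (by simp)
    simp only [neg_zero, zero_div] at this
    exact this
  have h1 : Gen (II G χ) (SS χ (U.map f) (χ g)⁻¹) := by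
    have h2 := (h.gen_inv hn ((h.stepB hn hvc U hU).aff smul one_ne_zero 1)).aff smul
      one_ne_zero (-1)
    refine ((h2.inter (h.gen_ne hn 0)).inter (h.gen_ne hn 1)).mono ?_
    rintro x ⟨⟨hx, h0⟩, h3⟩
    have h0 : x ≠ 0 := h0
    have h3 : x - 1 ≠ 0 := sub_ne_zero.2 h3
    simp only [SS, Set.mem_ofPred_eq, Ultrafilter.coe_map, eventually_map, one_mul] at hx ⊢
    have ht : Tendsto (fun δ => δ / ((x + -1)⁻¹ + 1)) (U : Filter E) (𝓝 0) := by
      simpa using (tendsto_id.mono_left hU0).div_const ((x + -1)⁻¹ + 1)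
    filter_upwards [h.quot ht (tendsto_id.mono_left hU0), hx, hg] with δ ⟨h4, _, h6⟩ h7 h8
    simp only [id] at h4 h6
    have e : 1 + f δ / x = (1 + δ / ((x + -1)⁻¹ + 1)) / (1 + δ) := by
      rw [show (x + -1)⁻¹ + 1 = x / (x - 1) by rw [← sub_eq_add_neg]; field_simp; ring]
      simp only [f]
      field_simp
      ring
    rw [e, eq_inv_iff_mul_eq_one, ← h8, ← h6, h7]
  have h2 : LeJ (II G χ) (U.map f) := h.twist hf hN (by rw [inv_pow, hq, inv_one]) h1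
  obtain ⟨Y, -, ⟨x, hx⟩, -, h3⟩ := (h1.inter (h.stepB hn hvc _ h2)) _ op_univ ⟨0, trivial⟩
  obtain ⟨δ, h4, h5⟩ := ((h3 hx).1.and (h3 hx).2).exists
  rwa [inv_eq_one.1 (h4.symm.trans h5)] at hg

theorem Ctx.sub [CharZero E] (h : Ctx G χ) (hn : ∃ᶠ t in II G χ, t ≠ 0)
    (hvc : VC {g | g ∈ G ∧ χ g = 1}) (hfin : (Set.range χ).Finite) {N : ℕ} (hN : 0 < N)
    (hq : ∀ g, χ g ^ N = 1) :
    Tendsto (fun p : E × E => p.1 - p.2) (II G χ ×ˢ II G χ) (II G χ) := by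
  refine le_iff_ultrafilter.2 fun U hU => ?_
  have h1 : LeJ (II G χ) U := fun X hX => hU (by
    rw [mem_map]
    filter_upwards [prod_mem_prod hX hX] with p hp
    exact ⟨p.2, hp.2, by simpa using hp.1⟩)
  refine (tend_iff (f := id)).2 fun a => ?_
  have h2 := h1.smul smul a
  exact (h.near h.one (h.lej_le h2)).and (h.stepE hn hvc hfin hN hq (U.map fun x => a * x) h2)

end Pool.Agent.MP_96eeb0_lc.H87.SAx
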