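import Pool.Agent.MP_96eeb0_lc.H87.Defs

/-! Statements of the steps. -/

namespace Pool.Agent.MP_96eeb0_lc.H87

open Pool.Agent.MP_96eeb0_lc.H32 Filter Topology

/-- The translates of `D` have finite VC dimension. -/
def VC {E : Type} [Field E] (D : Set E) : Prop :=
  ∃ n : ℕ, ¬ ∃ (x : (Fin n → Prop) → E) (y : Fin n → E), ∀ S i, x S + y i ∈ D ↔ S i

/-- Bounded sets of a topological field. -/
def Bd {E : Type} [Field E] [TopologicalSpace E] (B : Set E) : Prop :=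
  ∀ W ∈ 𝓝 (0 : E), ∃ t : E, t ≠ 0 ∧ ∀ u ∈ B, t * u ∈ W

/-- `I` is the filter of neighbourhoods of `0` of a non-discrete, locally bounded ring topology of
finite weight. -/
structure Good {E : Type} [Field E] (I : Filter E) : Prop where
  smul : ∀ c : E, Tendsto (fun x => c * x) I I
  add : Tendsto (fun p : E × E => p.1 + p.2) (I ×ˢ I) I
  zero : pure 0 ≤ I
  nd : ∃ᶠ t in I, t ≠ 0
  bd : ∃ V ∈ I, (∀ W ∈ I, ∀ᶠ t in I, ∀ v ∈ V, t * v ∈ W) ∧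
    ∃ P : Finset (E × E), ∀ x : E, ∃ p ∈ P, x ≠ p.1 ∧ p.2 ≠ 0 ∧ p.2 * (x - p.1)⁻¹ ∈ V

/-- Core step: the topology generated by a finite index local subgroup. -/
def SA : Prop :=
  ∀ (E : Type) [Field E] [CharZero E] [Countable E] [TopologicalSpace E]
    [IsTopologicalDivisionRing E] (Q : Type) [CommGroup Q] (G : Set E) (χ : E → Q) (N : ℕ)
    (B : Set E) (B₀ : Finset E),
    IsOpen G → 1 ∈ G → 0 ∉ G → (∀ g ∈ G, ∀ h ∈ G, χ (g * h) = χ g * χ h) →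
    (Set.range χ).Finite → 0 < N → (∀ g, χ g ^ N = 1) →
    Bd {u : E | 1 + u ∈ G} → Bd B → 1 ∈ B → (∀ x : E, ∃ b ∈ B₀, x ≠ b ∧ (x - b)⁻¹ ∈ B) →
    VC {g | g ∈ G ∧ χ g = 1} →
    ∃ I : Filter E, I.IsCountablyGenerated ∧ Good I ∧ I ≤ 𝓝 0 ∧
      ∀ᶠ δ in I, 1 + δ ∈ G ∧ χ (1 + δ) = 1

/-- Ring lemma. -/
def SB : Prop :=
  ∀ (F : Type) [Field F] (R : Subring F) (I : Ideal R) (B₀ : Finset R),
    (∀ x : F, ∃ b ∈ B₀, x ≠ b ∧ (x - b)⁻¹ ∈ R) →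
    (∀ x : F, (∀ ε ∈ I, ∃ ε' ∈ I, x * (ε : F) = (ε' : F)) → x ∈ R) →
    (∀ ε ∈ I, ∃ ε₁ ∈ I, ∃ ε₂ ∈ I, ε = ε₁ * ε₂) →
    ∀ p₁ p₂ : Ideal R, p₁.IsPrime → p₂.IsPrime → I ≤ p₁ → I ≤ p₂ → p₁ ≠ p₂ →
    ∀ (a c : R) (n : ℕ), c ∉ p₂ → a ^ n - c ^ n ∈ p₂ →
    ∃ y : R, y - 1 ∈ p₁ ∧ y * c - a ∈ p₂ ∧ y ^ n - 1 ∈ I

/-- Approximation at two independent complex places below a good filter. -/
def SC : Prop :=
  ∀ (E : Type) [Field E] (I : Filter E), I.IsCountablyGenerated → Good I →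
    ∀ (σ₁ σ₂ : E →+* ℂ), Tendsto σ₁ I (𝓝 0) → Tendsto σ₂ I (𝓝 0) →
    ∀ w : E, ‖σ₂ w‖ < 1 → 1 < ‖σ₁ w‖ →
    ∀ (n : ℕ) (ζ : ℂ), ζ ^ n = 1 → ζ ∈ closure (Set.range σ₂) →
    ∀ W ∈ I, ∀ U₁ ∈ 𝓝 (1 : ℂ), ∀ U₂ ∈ 𝓝 ζ, ∃ y : E, y ^ n - 1 ∈ W ∧ σ₁ y ∈ U₁ ∧ σ₂ y ∈ U₂

/-- A basis of neighbourhoods of `1` for the topology given by the embeddings `σ j`, for which
the local power sets have finite VC dimension. -/
structure Boxes {E J : Type} [Field E] (σ : J → E →+* ℂ) (Box : ℕ → Set E) : Prop where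
  one : ∀ m, 1 ∈ Box m
  opn : ∀ m, ∀ g ∈ Box m, ∃ η > 0, ∀ g', (∀ j, ‖σ j g' - σ j g‖ < η) → g' ∈ Box m
  small : ∀ ε > 0, ∃ m, ∀ g ∈ Box m, ∀ j, ‖σ j g - 1‖ < ε
  vc : ∀ m m' n, VC {g | g ∈ Box m ∧ ∃ u ∈ Box m', u ^ n = g}

/-- Assembly: infinite index. -/
def SD1 : Prop :=
  SA → SC → ∀ (E J : Type) [Field E] [Fintype J] (σ : J → E →+* ℂ) (Box : ℕ → Set E),
    Boxes σ Box → ∀ (i : E) (j₁ j₂ : J), i * i = -1 → σ j₁ ≠ σ j₂ → σ j₁ i = σ j₂ i →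
    ∀ n : ℕ, 2 ≤ n → ¬ (powMonoidHom n : Eˣ →* Eˣ).range.FiniteIndex

/-- Definability: boxes exist over a NIP subfield of the reals. -/
def SD2 : Prop :=
  ∀ (K : Subfield ℝ), NIP K → ∀ (E : Type) [Field E] [Algebra K E] [FiniteDimensional K E],
    ∃ Box : ℕ → Set E, Boxes (fun σ : E →ₐ[K] ℂ => (σ : E →+* ℂ)) Box

/-- Strongly NIP fields. -/
def SD3 : Prop :=
  ∀ (K : Type) [Field K], SNIP K → NIP K ∧
    ∀ (E : Type) [Field E] [Algebra K E] [FiniteDimensional K E],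
      ∃ n : ℕ, 2 ≤ n ∧ (powMonoidHom n : Eˣ →* Eˣ).range.FiniteIndex

/-- A large finite extension of a subfield of the reals that is not real closed. -/
def SD4 : Prop :=
  ∀ (K : Subfield ℝ), ¬ IsRealClosed K → ∃ E : IntermediateField K ℂ, FiniteDimensional K E ∧
    IsSquare (-1 : E) ∧ 2 < Module.finrank K E

end Pool.Agent.MP_96eeb0_lc.H87
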