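import Pool.Agent.MP_96eeb0_lc.H87.Spec
import Pool.Agent.MP_96eeb0_lc.H87.Defs2

/-! Statements of the steps for large fields. -/

namespace Pool.Agent.MP_96eeb0_lc.H87

open Pool.Agent.MP_96eeb0_lc.H32 Filter Topology

/-- Finite intersections of affine preimages of `D` have finite VC dimension. -/
def VCr {E : Type} [Field E] (D : Set E) : Prop :=
  ∀ r : ℕ, ∃ n : ℕ, ¬ ∃ (x : (Fin n → Prop) → E) (μ β : Fin n → Fin r → E),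
    ∀ S i, (∀ l, μ i l * x S + β i l ∈ D) ↔ S i

/-- The Kummer curves `u_a ^ n = 1 + a * δ` have non-trivial points. -/
def KL (E : Type) [Field E] (n : ℕ) : Prop :=
  ∀ A : Finset E, ∃ δ : E, δ ≠ 0 ∧ ∀ a ∈ A, ∃ u : E, u ≠ 0 ∧ u ^ n = 1 + a * δ

/-- `V` is the unit ball of a ring norm with uniformizer `t`. -/
structure Nm {E : Type} [Field E] (V : Set E) (t : E) : Prop where
  ne : t ≠ 0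
  zero : 0 ∈ V
  one : t ∈ V
  sub : ∀ x ∈ V, ∀ y ∈ V, t * (x - y) ∈ V
  mul : ∀ x ∈ V, ∀ y ∈ V, t * (x * y) ∈ V
  inv : ∀ x ∈ V, 1 + t * x ≠ 0 ∧ (1 + t * x)⁻¹ - 1 ∈ V

/-- Core step without finiteness. -/
def TA : Prop :=
  ∀ (E : Type) [Field E] [CharZero E] [TopologicalSpace E]
    [IsTopologicalDivisionRing E] (Q : Type) [CommGroup Q] (G : Set E) (χ : E → Q),
    IsOpen G → 1 ∈ G → 0 ∉ G → (∀ g ∈ G, ∀ h ∈ G, χ (g * h) = χ g * χ h) →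
    Bd {u : E | 1 + u ∈ G} →
    (∀ A : Finset E, ∃ δ : E, δ ≠ 0 ∧ ∀ a ∈ A, 1 + a * δ ∈ G ∧ χ (1 + a * δ) = 1) →
    VCr {g | g ∈ G ∧ χ g = 1} →
    ∃ (A : Finset E) (V : Set E), (∀ x, x ∈ V ↔ ∀ a ∈ A, 1 + a * x ∈ G ∧ χ (1 + a * x) = 1) ∧
      Bd V ∧ ∀ (C : Finset E), ∀ W ∈ 𝓝 (0 : E), ∃ t ∈ W, Nm V t ∧ (∀ c ∈ C, t * c ∈ V) ∧
        ∀ v ∈ V, 1 + t * v ∈ G ∧ χ (1 + t * v) = 1

/-- Non-trivial points with principal roots. -/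
def TH : Prop :=
  ∀ (E : Type) [Field E] [CharZero E] [TopologicalSpace E]
    [IsTopologicalDivisionRing E] (Q : Type) [CommGroup Q] (G : Set E) (χ : E → Q) (F : Set Q),
    IsOpen G → 1 ∈ G → 0 ∉ G → (∀ g ∈ G, ∀ h ∈ G, χ (g * h) = χ g * χ h) → F.Finite →
    (∀ A : Finset E, ∀ W ∈ 𝓝 (0 : E), ∃ δ ∈ W, δ ≠ 0 ∧ ∀ a ∈ A, χ (1 + a * δ) ∈ F) →
    ∀ A : Finset E, ∃ δ : E, δ ≠ 0 ∧ ∀ a ∈ A, 1 + a * δ ∈ G ∧ χ (1 + a * δ) = 1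

/-- A saturated normed ring with two complex characters. -/
structure SR {R : Type} [CommRing R] (V : Set R) (t : R) (n : ℕ) (A : Finset R)
    (s₁ s₂ : R →+* ℂ) : Prop where
  unit : IsUnit t
  zero : 0 ∈ V
  one : t ∈ V
  sub : ∀ x ∈ V, ∀ y ∈ V, t * (x - y) ∈ V
  mul : ∀ x ∈ V, ∀ y ∈ V, t * (x * y) ∈ V
  inv : ∀ x ∈ V, IsUnit (1 + t * x)
  abs : ∀ x, ∃ k : ℕ, t ^ k * x ∈ V
  vc : ∃ N : ℕ, ¬ ∃ (x : (Fin N → Prop) → R) (a c : Fin N → R), (∀ i, c i ≠ 0) ∧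
    ∀ S i, (∃ v ∈ V, x S * a i = c i * v) ↔ S i
  red : ∃ k : ℕ, ∀ x, (∃ v ∈ V, x ^ 2 = t ^ k * v) →
    (∀ a ∈ A, ∃ v ∈ V, 1 + n * (a * x) = (1 + a * x) ^ n * (1 + t ^ k * v)) → x ∈ V
  bd : ∃ C : ℝ, ∀ v ∈ V, ‖s₁ v‖ ≤ C ∧ ‖s₂ v‖ ≤ C
  lt₁ : ‖s₁ t‖ < 1
  lt₂ : ‖s₂ t‖ < 1
  sat : ∀ z : ℕ → R, (∀ k, z k ∈ V) → ∀ y : R, ∃ z' ∈ V,
    ((∀ k, ¬ ∃ v ∈ V, z k = t * v) → ¬ ∃ v ∈ V, z' = t * v) ∧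
    ((∀ k, ∃ v ∈ V, z k * y = t ^ k * v) → ∀ k, ∃ v ∈ V, z' * y = t ^ k * v) ∧
    ∀ ξ : ℂ, Tendsto (fun k => s₂ (z k)) atTop (𝓝 ξ) → s₂ z' = ξ

/-- Ring step. -/
def TB : Prop :=
  ∀ (R : Type) [CommRing R] (V : Set R) (t : R) (n : ℕ) (A : Finset R) (s₁ s₂ : R →+* ℂ),
    SR V t n A s₁ s₂ → ∀ (w i : R) (ζ : ℂ), ‖s₂ w‖ < 1 → 1 < ‖s₁ w‖ → i * i = -1 → ζ ^ n = 1 →
    ∃ y : R, (∀ k : ℕ, ∃ v ∈ V, y ^ n - 1 = t ^ k * v) ∧ s₁ y = 1 ∧ s₂ y = ζ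

/-- Approximation at two complex places. -/
def TC : Prop :=
  ∀ (E : Type) [Field E] (V : Set E) (t : E) (n : ℕ) (A : Finset E) (σ₁ σ₂ : E →+* ℂ),
    Nm V t → (∀ a ∈ A, t * a ∈ V) →
    (∃ N : ℕ, ¬ ∃ (x : (Fin N → Prop) → E) (a : Fin N → E), ∀ S i, x S * a i ∈ V ↔ S i) →
    (∃ k : ℕ, ∀ x, (∃ v ∈ V, x ^ 2 = t ^ k * v) →
      (∀ a ∈ A, ∃ v ∈ V, 1 + n * (a * x) = (1 + a * x) ^ n * (1 + t ^ k * v)) → x ∈ V) →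
    (∃ C : ℝ, ∀ v ∈ V, ‖σ₁ v‖ ≤ C ∧ ‖σ₂ v‖ ≤ C) → ‖σ₁ t‖ < 1 → ‖σ₂ t‖ < 1 →
    ∀ (w i : E) (ζ : ℂ), t * w ∈ V → t * i ∈ V → ‖σ₂ w‖ < 1 → 1 < ‖σ₁ w‖ → i * i = -1 →
    ζ ^ n = 1 → ∀ U₁ ∈ 𝓝 (1 : ℂ), ∀ U₂ ∈ 𝓝 ζ,
    ∃ y : E, (∃ v ∈ V, y ^ n - 1 = t * v) ∧ σ₁ y ∈ U₁ ∧ σ₂ y ∈ U₂

/-- Boxes with the stronger VC property. -/
structure Boxes2 {E J : Type} [Field E] (σ : J → E →+* ℂ) (Box : ℕ → Set E) : Prop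
    extends Boxes σ Box where
  vcr : ∀ m m' n, VCr {g | g ∈ Box m ∧ ∃ u ∈ Box m', u ^ n = g}

/-- Assembly. -/
def TD1 : Prop :=
  TA → TH → TC → ∀ (E J : Type) [Field E] [Fintype J] (σ : J → E →+* ℂ) (Box : ℕ → Set E),
    Boxes2 σ Box → ∀ (i : E) (j₁ j₂ : J), i * i = -1 → σ j₁ ≠ σ j₂ → σ j₁ i = σ j₂ i →
    ∀ n : ℕ, 2 ≤ n → ¬ KL E n

/-- Definability. -/
def TD2 : Prop :=
  ∀ (K : Subfield ℝ), NIP K → ∀ (E : Type) [Field E] [Algebra K E] [FiniteDimensional K E],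
    ∃ Box : ℕ → Set E, Boxes2 (fun σ : E →ₐ[K] ℂ => (σ : E →+* ℂ)) Box

/-- Finite extensions of large fields have points on Kummer curves. -/
def TL : Prop :=
  ∀ (K : Type) [Field K] [CharZero K], Large K →
    ∀ (E : Type) [Field E] [Algebra K E] [FiniteDimensional K E] (n : ℕ), 0 < n → KL E n

end Pool.Agent.MP_96eeb0_lc.H87
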