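import Pool.Agent.MP_96eeb0_lc.H87.TA1

/-! The filter of a local subgroup of finite VC dimension is a field topology. -/

namespace Pool.Agent.MP_96eeb0_lc.H87

open Filter Topology

namespace SAx

variable {E : Type} [Field E] [TopologicalSpace E] [IsTopologicalDivisionRing E] {Q : Type}
  [CommGroup Q] {G : Set E} {χ : E → Q}

omit [TopologicalSpace E] [IsTopologicalDivisionRing E] in
theorem vc_of {D : Set E} (h : VCr D) : VC D := by
  obtain ⟨n, hn⟩ := h 1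
  exact ⟨n, fun ⟨x, y, hxy⟩ => hn ⟨x, fun _ _ => 1, fun i _ => y i, fun S i => by
    simpa using hxy S i⟩⟩

theorem Ctx.genE (h : Ctx G χ) (hn : ∃ᶠ t in II G χ, t ≠ 0) (hvc : VCr {g | g ∈ G ∧ χ g = 1})
    (U : Ultrafilter E) (hU : LeJ (II G χ) U) : Gen (II G χ)
      {x | ∀ᶠ δ in (U : Filter E), χ (1 + ((1 + δ)⁻¹ - 1) / x) * χ (1 + δ) = 1} := by
  have hU0 := h.lej_le hU
  have h2 := (h.gen_inv hn ((h.stepB hn (vc_of hvc) U hU).aff smul one_ne_zero 1)).aff smul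
    one_ne_zero (-1)
  refine ((h2.inter (h.gen_ne hn 0)).inter (h.gen_ne hn 1)).mono ?_
  rintro x ⟨⟨hx, h0⟩, h3⟩
  have h0 : x ≠ 0 := h0
  have h3 : x - 1 ≠ 0 := sub_ne_zero.2 h3
  simp only [SS, Set.mem_ofPred_eq, one_mul] at hx ⊢
  have ht : Tendsto (fun δ => δ / ((x + -1)⁻¹ + 1)) (U : Filter E) (𝓝 0) := by
    simpa using (tendsto_id.mono_left hU0).div_const ((x + -1)⁻¹ + 1)
  filter_upwards [h.quot ht (tendsto_id.mono_left hU0), hx] with δ ⟨h4, _, h6⟩ h7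
  simp only [id] at h4 h6
  have e : 1 + ((1 + δ)⁻¹ - 1) / x = (1 + δ / ((x + -1)⁻¹ + 1)) / (1 + δ) := by
    rw [show (x + -1)⁻¹ + 1 = x / (x - 1) by rw [← sub_eq_add_neg]; field_simp; ring]
    field_simp
    ring
  rw [e, ← h6, h7]

theorem tend_h {α : Type} {l : Filter α} {f : α → E} (hf : Tendsto f l (𝓝 0)) :
    Tendsto (fun x => (1 + f x)⁻¹ - 1) l (𝓝 0) := by
  simpa using ((hf.const_add 1).inv₀ (by simp)).sub_const 1

theorem Ctx.jinv [CharZero E] (h : Ctx G χ) (hn : ∃ᶠ t in II G χ, t ≠ 0)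
    (hvc : VCr {g | g ∈ G ∧ χ g = 1}) :
    Tendsto (fun δ : E => (1 + δ)⁻¹ - 1) (JJ (II G χ)) (JJ (II G χ)) := by
  classical
  by_contra hc
  obtain ⟨V₀, hV₀, hb⟩ := not_tendsto_iff_exists_frequently_notMem.1 hc
  have jadd : Tendsto (fun p : E × E => p.1 + p.2) (JJ (II G χ) ×ˢ JJ (II G χ)) (JJ (II G χ)) :=
    (h.jsub hn hvc tendsto_fst (jsmul tendsto_snd (-1))).congr fun p => by ring
  have jst : ∀ T ∈ JJ (II G χ), ∃ T' ∈ JJ (II G χ), ∀ x ∈ T', ∀ y ∈ T', x + y + x * y ∈ T := by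
    intro T hT
    obtain ⟨T', h1, h2⟩ := mem_prod_self_iff.1
      ((jadd.comp (jadd.prodMk (h.jmul hn hvc tendsto_fst tendsto_snd))) hT)
    exact ⟨T', h1, fun x hx y hy => h2 (Set.mk_mem_prod hx hy)⟩
  have jne : ∀ a : E, ∀ᶠ δ in JJ (II G χ), 1 + a * δ ≠ 0 := fun a =>
    (h.near h.one ((jsmul tendsto_id a).mono_right h.jle)).mono fun δ h1 e => h.zero (e ▸ h1)
  have lemF : ∀ A : Finset E, ∀ T ∈ JJ (II G χ), ∃ᶠ δ in JJ (II G χ), ∀ a ∈ A, a ≠ 0 →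
      ∃ η, (1 + η)⁻¹ - 1 ∉ V₀ ∧ ∃ ρ ∈ T, 1 + a * δ = (1 + η) * (1 + ρ) := by
    intro A
    induction A using Finset.induction_on with
    | empty => exact fun T _ => hb.mono fun _ _ => by simp
    | insert a A _ ih =>
      intro T hT
      by_cases ha : a = 0
      · exact (ih T hT).mono fun δ h1 => by simpa [ha] using h1
      obtain ⟨T', h1, h2⟩ := jst T hT
      rw [frequently_iff]
      intro W hW
      obtain ⟨W', h3, h4⟩ := mem_prod_self_iff.1 (jadd hW)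
      obtain ⟨δ, h5, h6, h7, h8⟩ := ((ih T' h1).and_eventually ((show ∀ᶠ δ in _, δ ∈ W' from h3).and
        (((jsmul tendsto_id a).eventually_mem hT).and
          ((eventually_all_finset A).2 fun b _ => jne b)))).exists
      obtain ⟨η, h9, h10, h11⟩ := (hb.and_eventually
        (((jsmul tendsto_id ((1 + a * δ) / a)).eventually_mem h3).and
        ((eventually_all_finset A).2 fun b _ =>
          (jsmul tendsto_id (b * ((1 + a * δ) / a) / (1 + b * δ))).eventually_mem h1))).exists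
      refine ⟨δ + (1 + a * δ) / a * η, h4 (Set.mk_mem_prod h6 h10), fun b hb' hb0 => ?_⟩
      rcases Finset.mem_insert.1 hb' with rfl | hb'
      · exact ⟨η, h9, _, h7, by simp only [id]; field_simp; ring⟩
      · obtain ⟨η', h12, ρ, h13, h14⟩ := h5 b hb' hb0
        refine ⟨η', h12, _, h2 _ h13 _ (h11 b hb'), ?_⟩
        have h15 := h8 b hb'
        simp only [id]
        rw [show ∀ c : E, (1 + η') * (1 + (ρ + c + ρ * c)) = (1 + η') * (1 + ρ) * (1 + c) from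
          fun c => by ring, ← h14]
        field_simp
        ring
  obtain ⟨V₁, h1, h2⟩ := jst V₀ hV₀
  have : (JJ (II G χ) ⊓ ⨅ a : E, 𝓟 {δ | a ≠ 0 → (1 + a * δ)⁻¹ - 1 ∉ V₁}).NeBot := by
    refine inf_neBot_iff.2 fun W hW t ht => ?_
    obtain ⟨A, hA, h3⟩ := (hasBasis_iInf_principal_finite _).mem_iff.1 ht
    obtain ⟨δ, h4, h5, h6⟩ := ((lemF hA.toFinset V₁ h1).and_eventually
      ((show ∀ᶠ δ in _, δ ∈ W from hW).and
        ((eventually_all_finset hA.toFinset).2 fun b _ => jne b))).exists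
    refine ⟨δ, h5, h3 ?_⟩
    simp only [Set.mem_iInter, Set.mem_ofPred_eq]
    intro a ha ha0 h7
    obtain ⟨η, h8, ρ, h9, h10⟩ := h4 a (hA.mem_toFinset.2 ha) ha0
    have h11 := h6 a (hA.mem_toFinset.2 ha)
    refine h8 ?_
    convert h2 _ h9 _ h7 using 1
    rw [h10] at h11 ⊢
    have := left_ne_zero_of_mul h11
    have := right_ne_zero_of_mul h11
    field_simp
    ring
  obtain ⟨U, hU⟩ := Ultrafilter.exists_le
    (JJ (II G χ) ⊓ ⨅ a : E, 𝓟 {δ | a ≠ 0 → (1 + a * δ)⁻¹ - 1 ∉ V₁})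
  have hUJ : Tendsto id (U : Filter E) (JJ (II G χ)) := hU.trans inf_le_left
  obtain ⟨Y, -, ⟨x, hx⟩, -, h3⟩ := ((h.stepB hn (vc_of hvc) U (tendJ.1 hUJ)).inter
    (h.gen_ne hn 0)) _ op_univ ⟨0, trivial⟩
  obtain ⟨h4, h5⟩ := h3 hx
  have h6 := jsmul hUJ x⁻¹
  have h7 : Tendsto (fun δ => (1 + x⁻¹ * δ)⁻¹ - 1) (U : Filter E) (JJ (II G χ)) := by
    refine tendJ.2 (h.twist (tend_h (h6.mono_right h.jle)) one_pos (one_pow 1) ?_)
    refine (h.genE hn hvc (U.map fun δ => x⁻¹ * δ) (tendJ.1 h6)).mono fun z hz => ?_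
    simp only [SS, Set.mem_ofPred_eq, Ultrafilter.coe_map, eventually_map] at hz h4 ⊢
    filter_upwards [hz, h4] with δ h8 h9
    rwa [← div_eq_inv_mul, h9, mul_one, div_eq_inv_mul δ] at h8
  have h8 : ∀ᶠ δ in (U : Filter E), x⁻¹ ≠ 0 → (1 + x⁻¹ * δ)⁻¹ - 1 ∉ V₁ :=
    le_principal_iff.1 ((hU.trans inf_le_right).trans (iInf_le _ x⁻¹))
  obtain ⟨δ, h9, h10⟩ := (h8.and (h7.eventually_mem h1)).exists
  exact h9 (inv_ne_zero h5) h10

theorem Ctx.sub' [CharZero E] (h : Ctx G χ) (hn : ∃ᶠ t in II G χ, t ≠ 0)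
    (hvc : VCr {g | g ∈ G ∧ χ g = 1}) :
    Tendsto (fun p : E × E => p.1 - p.2) (II G χ ×ˢ II G χ) (II G χ) := by
  refine le_iff_ultrafilter.2 fun U hU => (tend_iff (f := id)).2 fun a => ?_
  have h1 := jsmul (show Tendsto id (U : Filter E) (JJ (II G χ)) from hU) a
  refine (h.near h.one (h1.mono_right h.jle)).and ?_
  obtain ⟨Y, -, ⟨x, hx⟩, -, h3⟩ := ((h.genE hn hvc (U.map fun δ => a * δ) (tendJ.1 h1)).inter
    (h.stepB hn (vc_of hvc) (U.map fun δ => (1 + a * δ)⁻¹ - 1)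
      (tendJ.1 ((h.jinv hn hvc).comp h1)))) _ op_univ ⟨0, trivial⟩
  obtain ⟨h4, h5⟩ := h3 hx
  simp only [SS, Set.mem_ofPred_eq, Ultrafilter.coe_map, eventually_map] at h4 h5
  filter_upwards [h4, h5] with δ h6 h7
  rwa [h7, one_mul] at h6

end SAx

open SAx

theorem ta : TA := by
  intro E _ _ _ _ Q _ G χ h1 h2 h3 h4 h5 hnd hvc
  classical
  have h : Ctx G χ := ⟨h1, h2, h3, h4, h5⟩
  have hn : ∃ᶠ t in II G χ, t ≠ 0 := frequently_iff.2 fun hW => by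
    obtain ⟨A, hA⟩ := mem_II hW
    obtain ⟨δ, h6, h7⟩ := hnd A
    exact ⟨δ, hA δ h7, h6⟩
  have hsub : ∀ {α : Type} {l : Filter α} {f g : α → E}, Tendsto f l (II G χ) →
      Tendsto g l (II G χ) → Tendsto (fun x => f x - g x) l (II G χ) := fun hf hg =>
    (h.sub' hn hvc).comp (hf.prodMk hg)
  have hJ : JJ (II G χ) ≤ II G χ := h.sub' hn hvc
  have hI : II G χ ≤ JJ (II G χ) := by
    have : Tendsto (fun x : E => (x, (0 : E))) (II G χ) (II G χ ×ˢ II G χ) :=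
      tendsto_id.prodMk (tendsto_const_pure.mono_right h.pure_le)
    exact ((tendsto_map (f := fun p : E × E => p.1 - p.2)).comp this).congr (f₂ := id)
      fun x => by simp
  have hmul : Tendsto (fun p : E × E => p.1 * p.2) (II G χ ×ˢ II G χ) (II G χ) :=
    (h.jmul1 hn hvc tendsto_fst (tendsto_snd.mono_right hI)).mono_right hJ
  obtain ⟨V', hV', hVV⟩ := mem_prod_self_iff.1 (tend_iff.1 hmul 1)
  obtain ⟨A, hA⟩ := mem_II hV'
  let V : Set E := {x | ∀ a ∈ A, 1 + a * x ∈ G ∧ χ (1 + a * x) = 1}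
  have hV : V ∈ II G χ := (eventually_all_finset A).2 fun a _ => ev a
  have hb : ∀ W ∈ II G χ, ∀ᶠ t in II G χ, ∀ v ∈ V, t * v ∈ W := fun W hW => by
    obtain ⟨B, hB⟩ := mem_II hW
    filter_upwards [(eventually_all_finset B).2 fun a _ => smul (G := G) (χ := χ) a hV']
      with t ht v hv
    refine hB _ fun a ha => ?_
    have := hVV (Set.mk_mem_prod (ht a ha) (hA v hv))
    simpa [mul_assoc] using this
  refine ⟨A, V, fun x => Iff.rfl, fun W hW => ?_, fun C W hW => ?_⟩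
  · exact (hn.and_eventually (hb W (h.le hW))).exists
  obtain ⟨W₁, h6, h7⟩ := mem_prod_self_iff.1 (h.sub' hn hvc hV)
  obtain ⟨W₂, h8, h9⟩ := mem_prod_self_iff.1 (hmul hV)
  obtain ⟨s, hs, h10⟩ := (hn.and_eventually (hb W₂ h8)).exists
  have h11 : ∀ᶠ δ in II G χ, (1 + δ ∈ G ∧ χ (1 + δ) = 1) ∧ (1 + δ)⁻¹ - 1 ∈ V :=
    (by simpa using ev (G := G) (χ := χ) 1 : ∀ᶠ δ in II G χ, 1 + δ ∈ G ∧ χ (1 + δ) = 1).and
      (by simpa using (h.inv one_ne_zero).eventually_mem hV)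
  obtain ⟨t, ht, a1, a2, a3, a4, a5, a6⟩ := (hn.and_eventually ((show ∀ᶠ t in _, t ∈ W from h.le hW).and
    ((show ∀ᶠ t in _, t ∈ V from hV).and ((hb W₁ h6).and (((smul (s * s)⁻¹).eventually (hb V hV)).and
      ((hb _ h11).and ((eventually_all_finset C).2 fun c _ => (smul c).eventually_mem hV))))))).exists
  refine ⟨t, a1, ⟨ht, h.pure_le hV, a2, fun x hx y hy => ?_, fun x hx y hy => ?_,
    fun x hx => ⟨fun e => h3 (e ▸ (a5 x hx).1.1), (a5 x hx).2⟩⟩,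
    fun c hc => mul_comm c t ▸ a6 c hc, fun v hv => (a5 v hv).1⟩
  · rw [mul_sub]
    exact h7 (Set.mk_mem_prod (a3 x hx) (a3 y hy))
  · have := a4 _ (h9 (Set.mk_mem_prod (h10 x hx) (h10 y hy)))
    convert this using 1
    field_simp

end Pool.Agent.MP_96eeb0_lc.H87
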