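import Pool.Agent.MP_96eeb0_lc.H87.Spec2
import Pool.Agent.MP_96eeb0_lc.H87.SA2

/-! Slight affine maps; the difference filter is a ring filter. -/

namespace Pool.Agent.MP_96eeb0_lc.H87.SAx

open Filter Topology

variable {E : Type} [Field E]

def Sl (I : Filter E) {α : Type} (l : Filter α) (μ β : α → E) : Prop :=
  ∀ Y, Op I Y → Y.Nonempty → ∀ᶠ ω in l, ∃ y ∈ Y, μ ω * y + β ω ∈ Y

def JJ (I : Filter E) : Filter E := (I ×ˢ I).map fun p => p.1 - p.2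

theorem tendJ {I : Filter E} {α : Type} {l : Filter α} {f : α → E} :
    Tendsto f l (JJ I) ↔ LeJ I (l.map f) := by
  refine ⟨fun h X hX => h (show _ ∈ JJ I from ?_), fun h W hW => ?_⟩
  · rw [JJ, mem_map]
    filter_upwards [prod_mem_prod hX hX] with p hp
    exact ⟨p.2, hp.2, by simpa using hp.1⟩
  · obtain ⟨X, hX, hXW⟩ := mem_prod_self_iff.1 hW
    filter_upwards [h X hX] with δ ⟨u, h1, h2⟩
    simpa using hXW (Set.mk_mem_prod h2 h1)

theorem LeJ.sl {I : Filter E} {α : Type} {l : Filter α} {f : α → E} (h : LeJ I (l.map f)) :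
    Sl I l (fun _ => 1) f := fun Y hY ⟨y, hy⟩ => by
  filter_upwards [eventually_map.1 (h _ (hY y hy))] with ω ⟨u, h1, h2⟩
  exact ⟨y + u, h1, by simpa [add_assoc] using h2⟩

variable [TopologicalSpace E] [IsTopologicalDivisionRing E] {Q : Type} [CommGroup Q]
  {G : Set E} {χ : E → Q}

theorem Ctx.op_cell (h : Ctx G χ) (A : Finset E) (p : E) :
    Op (II G χ) {x | ∀ a ∈ A, 1 + a * (x - p) ∈ G ∧ χ (1 + a * (x - p)) = 1} := fun x hx => by
  simp only [Set.mem_ofPred_eq, eventually_all_finset]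
  intro a ha
  have e : ∀ z, a * z + (1 - a * p) = 1 + a * (z - p) := fun z => by ring
  have := (h.op_lev (· = 1)).aff smul a (1 - a * p) x
    (by simpa only [e, Set.mem_ofPred_eq] using hx a ha)
  simpa only [e, Set.mem_ofPred_eq] using this

theorem Ctx.lej_of_sl (h : Ctx G χ) {α : Type} {l : Filter α} {f : α → E}
    (hs : Sl (II G χ) l (fun _ => 1) f) : LeJ (II G χ) (l.map f) := fun X hX => by
  obtain ⟨A, hA⟩ := mem_II hX
  rw [eventually_map]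
  filter_upwards [hs _ (h.op_cell A 0) ⟨0, fun a _ => by simp [h.one, h.chi_one]⟩]
    with ω ⟨y, h1, h2⟩
  exact ⟨y, hA _ (by simpa using h1), hA _ (by simpa using h2)⟩

/-- The tree argument for affine maps. -/
theorem Ctx.stepA (h : Ctx G χ) (hn : ∃ᶠ t in II G χ, t ≠ 0) (hvc : VCr {g | g ∈ G ∧ χ g = 1})
    {α : Type} (U : Ultrafilter α) {μ β : α → E} (hμ : Tendsto μ U (𝓝 1))
    (hβ : Tendsto β U (𝓝 0)) (hU : Sl (II G χ) U μ β) :
    Gen (II G χ) {x | ∀ᶠ ω in (U : Filter α), χ (1 + ((μ ω - 1) * x + β ω) / x) = 1} := by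
  by_contra hg
  simp only [Gen, not_forall, not_exists, not_and] at hg
  obtain ⟨X, hX, hne, hb⟩ := hg
  obtain ⟨X', -, ⟨c, hc'⟩, h3, h4⟩ := h.gen_ne hn 0 X hX hne
  have hc : c ≠ 0 := h4 hc'
  let P : E → E → Set E := fun m b => {x | c⁻¹ * m * x + c⁻¹ * b ∈ {g | g ∈ G ∧ χ g = 1}}
  let N : E → E → Set E := fun m b => {x | c⁻¹ * m * x + c⁻¹ * b ∈ {g | g ∈ G ∧ ¬ χ g = 1}}
  have hP : ∀ m b, Op (II G χ) (P m b) := fun m b => (h.op_lev (· = 1)).aff smul _ _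
  have hN : ∀ m b, Op (II G χ) (N m b) := fun m b => (h.op_lev (¬ · = 1)).aff smul _ _
  have key : ∀ Y, Op (II G χ) Y → Y.Nonempty → Y ⊆ X ∩ P 1 0 → ∀ᶠ ω in (U : Filter α),
      (Y ∩ P (μ ω) (β ω)).Nonempty ∧ (Y ∩ N (μ ω) (β ω)).Nonempty := by
    intro Y hY hYn hYs
    obtain ⟨y, hy, hyS⟩ := Set.not_subset.1 (hb Y hY hYn fun z hz => (hYs hz).1)
    have hy1 : c⁻¹ * y ∈ G ∧ χ (c⁻¹ * y) = 1 := by simpa [P] using (hYs hy).2
    have ht : Tendsto (fun ω => c⁻¹ * ((μ ω - 1) * y + β ω)) (U : Filter α) (𝓝 0) := by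
      simpa using (((hμ.sub_const 1).mul_const y).add hβ).const_mul c⁻¹
    filter_upwards [hU Y hY hYn, Ultrafilter.eventually_not.2 hyS, h.tw hy1.1 ht]
      with ω ⟨u, h5, h6⟩ h7 h8
    have e : c⁻¹ * y + c⁻¹ * ((μ ω - 1) * y + β ω) = c⁻¹ * μ ω * y + c⁻¹ * β ω := by ring
    rw [e] at h8
    refine ⟨⟨u, h5, ?_⟩, y, hy, h8.1, ?_⟩
    · have := (hYs h6).2
      simp only [P, Set.mem_ofPred_eq, mul_zero, add_zero, mul_one] at this ⊢
      rwa [mul_assoc, ← mul_add]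
    · rw [h8.2, hy1.2, one_mul, mul_div_mul_left _ _ (inv_ne_zero hc)]
      exact h7
  have tree : ∀ n : ℕ, ∃ (δ : Fin n → α) (Y : (Fin n → Prop) → Set E), ∀ S,
      Op (II G χ) (Y S) ∧ (Y S).Nonempty ∧ Y S ⊆ X ∩ P 1 0 ∧
        ∀ x ∈ Y S, ∀ i, x ∈ P (μ (δ i)) (β (δ i)) ↔ S i := by
    intro n
    induction n with
    | zero =>
      refine ⟨fun i => i.elim0, fun _ => X ∩ P 1 0, fun S => ⟨hX.inter (hP 1 0), ⟨c, h3 hc', ?_⟩,
        subset_rfl, fun _ _ i => i.elim0⟩⟩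
      simp [P, hc, h.one, h.chi_one]
    | succ n ih =>
      obtain ⟨δ, Y, hY⟩ := ih
      obtain ⟨d, hd⟩ := (eventually_all.2 fun S => key (Y S) (hY S).1 (hY S).2.1 (hY S).2.2.1).exists
      classical
      refine ⟨Fin.cons d δ, fun S => Y (Fin.tail S) ∩
        if S 0 then P (μ d) (β d) else N (μ d) (β d), fun S => ?_⟩
      obtain ⟨h5, -, h7, h8⟩ := hY (Fin.tail S)
      by_cases h0 : S 0
      · simp only [if_pos h0]
        refine ⟨h5.inter (hP _ _), (hd _).1, fun z hz => h7 hz.1, fun x hx i => ?_⟩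
        refine Fin.cases ?_ (fun i => ?_) i
        · exact iff_of_true hx.2 h0
        · exact h8 x hx.1 i
      · simp only [if_neg h0]
        refine ⟨h5.inter (hN _ _), (hd _).2, fun z hz => h7 hz.1, fun x hx i => ?_⟩
        refine Fin.cases ?_ (fun i => ?_) i
        · exact iff_of_false (fun h9 => hx.2.2 h9.2) h0
        · exact h8 x hx.1 i
  obtain ⟨n, hn⟩ := hvc 1
  obtain ⟨δ, Y, hY⟩ := tree n
  choose x hx using fun S => (hY S).2.1
  exact hn ⟨x, fun i _ => c⁻¹ * μ (δ i), fun i _ => c⁻¹ * β (δ i), fun S i => by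
    rw [forall_const]
    exact (hY S).2.2.2 _ (hx S) i⟩

theorem Ctx.stab (h : Ctx G χ) (hn : ∃ᶠ t in II G χ, t ≠ 0) (hvc : VCr {g | g ∈ G ∧ χ g = 1})
    {α : Type} (U : Ultrafilter α) {μ β : α → E} (hμ : Tendsto μ U (𝓝 1))
    (hβ : Tendsto β U (𝓝 0)) (hU : Sl (II G χ) U μ β) {X : Set E} (hX : Op (II G χ) X)
    (hne : X.Nonempty) : ∃ Y, Op (II G χ) Y ∧ Y.Nonempty ∧ Y ⊆ X ∧
      ∀ x ∈ Y, ∀ᶠ ω in (U : Filter α), μ ω * x + β ω ∈ X := by
  obtain ⟨x₀, hx₀⟩ := hne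
  obtain ⟨A, hA⟩ := mem_II (hX x₀ hx₀)
  have hC : ∀ x, (∀ a ∈ A, 1 + a * (x - x₀) ∈ G ∧ χ (1 + a * (x - x₀)) = 1) → x ∈ X :=
    fun x hx => by simpa using hA _ hx
  have hg : ∀ p : E, Gen (II G χ) {x | ∀ᶠ ω in (U : Filter α),
      χ (1 + ((μ ω - 1) * x + β ω) / (x - p)) = 1} := fun p => by
    have h1 : Tendsto (fun ω => (μ ω - 1) * p + β ω) U (𝓝 0) := by
      simpa using ((hμ.sub_const 1).mul_const p).add hβ
    have h2 : Sl (II G χ) U μ fun ω => (μ ω - 1) * p + β ω := fun Y hY ⟨y, hy⟩ => by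
      filter_upwards [hU _ (hY.aff smul 1 (-p)) ⟨y + p, by simpa using hy⟩] with ω ⟨z, h3, h4⟩
      refine ⟨_, h3, ?_⟩
      rwa [show μ ω * (1 * z + -p) + ((μ ω - 1) * p + β ω) = 1 * (μ ω * z + β ω) + -p by ring]
    refine ((h.stepA hn hvc U hμ h1 h2).aff smul one_ne_zero (-p)).mono fun x hx => ?_
    filter_upwards [hx] with ω h3
    rwa [show (μ ω - 1) * (1 * x + -p) + ((μ ω - 1) * p + β ω) = (μ ω - 1) * x + β ω by ring,
      show 1 * x + -p = x - p by ring] at h3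
  obtain ⟨Y, h1, h2, h3, h4⟩ := gen_fin A (fun a => hg (x₀ - a⁻¹)) _ (h.op_cell A x₀)
    ⟨x₀, fun a _ => by simp [h.one, h.chi_one]⟩
  refine ⟨Y, h1, h2, fun x hx => hC x (h3 hx), fun x hx => ?_⟩
  refine ((eventually_all_finset A).2 fun a ha => ?_).mono fun ω => hC _
  by_cases h0 : a = 0
  · simp [h0, h.one, h.chi_one]
  obtain ⟨h5, h6⟩ := h3 hx a ha
  have ht : Tendsto (fun ω => a * ((μ ω - 1) * x + β ω)) (U : Filter α) (𝓝 0) := by
    simpa using (((hμ.sub_const 1).mul_const x).add hβ).const_mul a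
  filter_upwards [h.tw h5 ht, h4 hx a ha] with ω h7 h8
  have e1 : 1 + a * (μ ω * x + β ω - x₀) = 1 + a * (x - x₀) + a * ((μ ω - 1) * x + β ω) := by ring
  have e2 : 1 + a * (x - x₀) = a * (x - (x₀ - a⁻¹)) := by field_simp; ring
  rw [e1, h7.2, h6, e2, mul_div_mul_left _ _ h0, h8, mul_one, ← e2]
  exact ⟨h7.1, rfl⟩

theorem Ctx.comb (h : Ctx G χ) (hn : ∃ᶠ t in II G χ, t ≠ 0) (hvc : VCr {g | g ∈ G ∧ χ g = 1})
    {α : Type} (U : Ultrafilter α) {μ β μ' β' : α → E} (hμ : Tendsto μ U (𝓝 1))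
    (hβ : Tendsto β U (𝓝 0)) (hU : Sl (II G χ) U μ β) (hμ' : Tendsto μ' U (𝓝 1))
    (hβ' : Tendsto β' U (𝓝 0)) (hU' : Sl (II G χ) U μ' β') {X : Set E} (hX : Op (II G χ) X)
    (hne : X.Nonempty) :
    ∃ x, ∀ᶠ ω in (U : Filter α), μ ω * x + β ω ∈ X ∧ μ' ω * x + β' ω ∈ X := by
  obtain ⟨Y, h1, h2, h3, h4⟩ := h.stab hn hvc U hμ hβ hU hX hne
  obtain ⟨Z, -, ⟨x, hx⟩, h5, h6⟩ := h.stab hn hvc U hμ' hβ' hU' h1 h2
  exact ⟨x, (h4 x (h5 hx)).and ((h6 x hx).mono fun ω h7 => h3 h7)⟩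

theorem Ctx.jle (h : Ctx G χ) : JJ (II G χ) ≤ 𝓝 0 :=
  h.lej_le (by simpa using tendJ.1 (tendsto_id (x := JJ (II G χ))))

omit [TopologicalSpace E] [IsTopologicalDivisionRing E] in
theorem jsmul {α : Type} {l : Filter α} {f : α → E} (hf : Tendsto f l (JJ (II G χ))) (c : E) :
    Tendsto (fun x => c * f x) l (JJ (II G χ)) :=
  tendJ.2 ((tendJ.1 hf).smul smul c)

theorem Ctx.jsub (h : Ctx G χ) (hn : ∃ᶠ t in II G χ, t ≠ 0) (hvc : VCr {g | g ∈ G ∧ χ g = 1})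
    {α : Type} {l : Filter α} {f g : α → E} (hf : Tendsto f l (JJ (II G χ)))
    (hg : Tendsto g l (JJ (II G χ))) : Tendsto (fun x => f x - g x) l (JJ (II G χ)) := by
  refine (tendsto_iff_ultrafilter _ _ _).2 fun U hU => tendJ.2 (h.lej_of_sl fun X hX hne => ?_)
  have hf := hf.mono_left hU
  have hg := hg.mono_left hU
  obtain ⟨x, hx⟩ := h.comb hn hvc U tendsto_const_nhds (hf.mono_right h.jle) (tendJ.1 hf).sl
    tendsto_const_nhds (hg.mono_right h.jle) (tendJ.1 hg).sl hX hne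
  filter_upwards [hx] with ω h1
  exact ⟨_, h1.2, by convert h1.1 using 1; ring⟩

theorem Ctx.jmul1 (h : Ctx G χ) (hn : ∃ᶠ t in II G χ, t ≠ 0) (hvc : VCr {g | g ∈ G ∧ χ g = 1})
    {α : Type} {l : Filter α} {v f : α → E} (hv : Tendsto v l (II G χ))
    (hf : Tendsto f l (JJ (II G χ))) : Tendsto (fun x => v x * f x) l (JJ (II G χ)) := by
  refine (h.jsub hn hvc (f := fun x => (1 + v x) * f x) ?_ hf).congr fun x => by ring
  refine (tendsto_iff_ultrafilter _ _ _).2 fun U hU => tendJ.2 (h.lej_of_sl fun X hX hne => ?_)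
  have hf := hf.mono_left hU
  have hv := hv.mono_left hU
  have h1 : Tendsto (fun x => 1 + v x) U (𝓝 1) := by simpa using (hv.mono_right h.le).const_add 1
  have h2 : Sl (II G χ) U (fun x => 1 + v x) fun _ => 0 := fun Y hY ⟨y, hy⟩ => by
    filter_upwards [((smul y).comp hv) (hY y hy)] with ω h3
    exact ⟨y, hy, by rwa [show (1 + v ω) * y + 0 = y + y * v ω by ring]⟩
  have h3 : Sl (II G χ) U (fun x => 1 + v x) fun x => (1 + v x) * f x := fun Y hY hY' => by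
    obtain ⟨x, hx⟩ := h.comb hn hvc U h1 tendsto_const_nhds h2 tendsto_const_nhds
      ((jsmul hf (-1)).mono_right h.jle) (tendJ.1 (jsmul hf (-1))).sl hY hY'
    filter_upwards [hx] with ω h4
    exact ⟨_, h4.2, by convert h4.1 using 1; ring⟩
  obtain ⟨x, hx⟩ := h.comb hn hvc U h1 tendsto_const_nhds h2 h1
    (by simpa using h1.mul (hf.mono_right h.jle)) h3 hX hne
  filter_upwards [hx] with ω h4
  exact ⟨_, h4.1, by convert h4.2 using 1; ring⟩

theorem Ctx.jmul (h : Ctx G χ) (hn : ∃ᶠ t in II G χ, t ≠ 0) (hvc : VCr {g | g ∈ G ∧ χ g = 1})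
    {α : Type} {l : Filter α} {f g : α → E} (hf : Tendsto f l (JJ (II G χ)))
    (hg : Tendsto g l (JJ (II G χ))) : Tendsto (fun x => f x * g x) l (JJ (II G χ)) := by
  have : Tendsto (fun p : E × E => p.1 * p.2) (JJ (II G χ) ×ˢ JJ (II G χ)) (JJ (II G χ)) := by
    have e : JJ (II G χ) ×ˢ JJ (II G χ) = ((II G χ ×ˢ II G χ) ×ˢ JJ (II G χ)).map
        fun p => (p.1.1 - p.1.2, p.2) := by
      exact prod_map_map_eq (m₂ := id) (f₂ := JJ (II G χ))
    rw [e, tendsto_map'_iff]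
    exact (h.jsub hn hvc (h.jmul1 hn hvc tendsto_fst.fst tendsto_snd)
      (h.jmul1 hn hvc tendsto_fst.snd tendsto_snd)).congr fun p => by simp [sub_mul]
  exact this.comp (hf.prodMk hg)

end Pool.Agent.MP_96eeb0_lc.H87.SAx
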